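import Pool.Agent.K9h12.LN.Defs

/-!
The pointwise bounds for the lines: the normalised vector.
-/

set_option autoImplicit false

open FF Metric

namespace Pool.Agent.K9h12.LN

open Pool.Agent.W603.LV Pool.Agent.W602.GT Pool.Agent.Y190.AN Pool.Agent.W603.BP
  Pool.Agent.W601.PH Pool.Agent.W602.NC Pool.Agent.TH152.HY

variable {p : ℕ}

/-! ## linear forms -/

/-- the linear form with given coefficients -/
def lf (m u : Fin 3 → ℂ) : ℂ := m 0 * u 0 + m 1 * u 1 + m 2 * u 2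

/-- the coefficients of the forms -/
def cf (α β : Fin p → ℂ) (i : Fin (p + 1)) : Fin 3 → ℂ :=
  Fin.cases ![1, 0, 0] (fun i => ![-β i, -α i, 1]) i

theorem cf_zero (α β : Fin p → ℂ) : cf α β 0 = ![1, 0, 0] := rfl
theorem cf_succ (α β : Fin p → ℂ) (i : Fin p) : cf α β i.succ = ![-β i, -α i, 1] := rfl

theorem eL_lf (α β : Fin p → ℂ) (i : Fin (p + 1)) (u : Fin 3 → ℂ) : eL α β i u = lf (cf α β i) u := by
  refine Fin.cases ?_ (fun i => ?_) i
  · rw [eL_zero, cf_zero]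
    simp [lf]
  · rw [eL_succ, cf_succ]
    simp [lf, eh]
    ring

/-- a linear form by three others -/
theorem cramer (a b c m u : Fin 3 → ℂ) :
    w3 a b c * lf m u = w3 m b c * lf a u + w3 a m c * lf b u + w3 a b m * lf c u := by
  unfold w3 lf
  ring

/-- the determinants are multiplicative -/
theorem w3_mul (a b c x y z : Fin 3 → ℂ) :
    w3 a b c * w3 x y z = w3 ![lf a x, lf b x, lf c x] ![lf a y, lf b y, lf c y] ![lf a z, lf b z, lf c z] := by
  simp [w3, lf]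
  ring

theorem w3_ne {α β : Fin p → ℂ} (hG : Gp α β) {i j k : Fin (p + 1)} (hij : i ≠ j) (hik : i ≠ k) (hjk : j ≠ k) :
    w3 (cf α β i) (cf α β j) (cf α β k) ≠ 0 := by
  have key : ∀ i j k : Fin p, i ≠ j → i ≠ k → j ≠ k →
      w3 (cf α β i.succ) (cf α β j.succ) (cf α β k.succ) ≠ 0 := by
    intro i j k hij hik hjk h
    refine hG.three i j k hij hik hjk ?_
    simp [w3, cf_succ] at h
    linear_combination h
  have inj : ∀ i j : Fin p, i ≠ j → α i - α j ≠ 0 := fun i j h h' => h (hG.inj (sub_eq_zero.1 h'))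
  induction i using Fin.cases with
  | zero =>
    induction j using Fin.cases with
    | zero => exact absurd rfl hij
    | succ j =>
      induction k using Fin.cases with
      | zero => exact absurd rfl hik
      | succ k =>
        have hjk' : j ≠ k := fun h => hjk (by rw [h])
        intro h
        simp [w3, cf_zero, cf_succ] at h
        exact inj j k hjk' (by linear_combination (-1 : ℂ) * h)
  | succ i =>
    induction j using Fin.cases with
    | zero =>
      induction k using Fin.cases with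
      | zero => exact absurd rfl hjk
      | succ k =>
        have hik' : i ≠ k := fun h => hik (by rw [h])
        intro h
        simp [w3, cf_zero, cf_succ] at h
        exact inj i k hik' (by linear_combination h)
    | succ j =>
      have hij' : i ≠ j := fun h => hij (by rw [h])
      induction k using Fin.cases with
      | zero =>
        intro h
        simp [w3, cf_zero, cf_succ] at h
        exact inj i j hij' (by linear_combination (-1 : ℂ) * h)
      | succ k =>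
        exact key i j k hij' (fun h => hik (by rw [h])) (fun h => hjk (by rw [h]))

/-! ## derivatives -/

theorem lf_deriv {f : ℂ → Fin 3 → ℂ} {z : ℂ} (hf : ∀ j, AnalyticAt ℂ (fun w => f w j) z) (m : Fin 3 → ℂ) :
    deriv (fun w => lf m (f w)) z = lf m fun j => deriv (fun w => f w j) z := by
  unfold lf
  have h : HasDerivAt (fun w => m 0 * f w 0 + m 1 * f w 1 + m 2 * f w 2)
      (m 0 * deriv (fun w => f w 0) z + m 1 * deriv (fun w => f w 1) z + m 2 * deriv (fun w => f w 2) z) z :=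
    (((hf 0).differentiableAt.hasDerivAt.const_mul (m 0)).add
      ((hf 1).differentiableAt.hasDerivAt.const_mul (m 1))).add
      ((hf 2).differentiableAt.hasDerivAt.const_mul (m 2))
  exact h.deriv

theorem lf_deriv2 {f : ℂ → Fin 3 → ℂ} {z : ℂ} (hf : ∀ j, AnalyticAt ℂ (fun w => f w j) z) (m : Fin 3 → ℂ) :
    deriv (deriv fun w => lf m (f w)) z = lf m fun j => deriv (deriv fun w => f w j) z := by
  have h1 : ∀ᶠ w in nhds z, ∀ j, AnalyticAt ℂ (fun w => f w j) w :=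
    Filter.eventually_all.2 fun j => (hf j).eventually_analyticAt
  have h2 : (deriv fun w => lf m (f w)) =ᶠ[nhds z] fun w => lf m fun j => deriv (fun w => f w j) w :=
    h1.mono fun w hw => lf_deriv hw m
  rw [h2.deriv_eq]
  exact lf_deriv (f := fun w j => deriv (fun w => f w j) w) (fun j => (hf j).deriv) m

theorem lf_an {f : ℂ → Fin 3 → ℂ} {z : ℂ} (hf : ∀ j, AnalyticAt ℂ (fun w => f w j) z) (m : Fin 3 → ℂ) :
    AnalyticAt ℂ (fun w => lf m (f w)) z := by
  unfold lf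
  exact ((analyticAt_const.fun_mul (hf 0)).fun_add (analyticAt_const.fun_mul (hf 1))).fun_add
    (analyticAt_const.fun_mul (hf 2))

theorem lf_div (m : Fin 3 → ℂ) (u : ℂ → Fin 3 → ℂ) (lam : ℂ → ℂ) (w : ℂ) :
    lf m (vt u lam w) = lf m (u w) / lam w := by
  unfold lf vt
  ring

/-! ## the constants -/

/-- the size of the coefficients -/
noncomputable def K3 (a b c m : Fin 3 → ℂ) : ℝ :=
  ‖(w3 a b c)⁻¹‖ * (1 + ‖w3 m b c‖ + ‖w3 a m c‖ + ‖w3 a b m‖)

theorem K3_nonneg (a b c m : Fin 3 → ℂ) : 0 ≤ K3 a b c m := by unfold K3; positivity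

theorem lf_le {a b c : Fin 3 → ℂ} (h : w3 a b c ≠ 0) (m u : Fin 3 → ℂ) :
    ‖lf m u‖ ≤ K3 a b c m * (‖lf a u‖ + ‖lf b u‖ + ‖lf c u‖) := by
  have h1 : lf m u = (w3 a b c)⁻¹ * (w3 m b c * lf a u + w3 a m c * lf b u + w3 a b m * lf c u) := by
    rw [← cramer, ← mul_assoc, inv_mul_cancel₀ h, one_mul]
  rw [h1, norm_mul, K3, mul_assoc]
  refine mul_le_mul_of_nonneg_left ?_ (norm_nonneg _)
  have h2 : ‖w3 m b c * lf a u + w3 a m c * lf b u + w3 a b m * lf c u‖ ≤
      ‖w3 m b c‖ * ‖lf a u‖ + ‖w3 a m c‖ * ‖lf b u‖ + ‖w3 a b m‖ * ‖lf c u‖ := by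
    rw [← norm_mul, ← norm_mul, ← norm_mul]
    exact norm_add₃_le
  refine h2.trans ?_
  have p1 := norm_nonneg (w3 m b c)
  have p2 := norm_nonneg (w3 a m c)
  have p3 := norm_nonneg (w3 a b m)
  have q1 := norm_nonneg (lf a u)
  have q2 := norm_nonneg (lf b u)
  have q3 := norm_nonneg (lf c u)
  nlinarith [mul_nonneg p1 q2, mul_nonneg p1 q3, mul_nonneg p2 q1, mul_nonneg p2 q3, mul_nonneg p3 q1,
    mul_nonneg p3 q2]

theorem exists_C0 {α β : Fin p → ℂ} (hG : Gp α β) : ∃ C0 : ℝ, 1 ≤ C0 ∧ ∀ a b c : Fin (p + 1), a ≠ b → a ≠ c → b ≠ c →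
    ‖(w3 (cf α β a) (cf α β b) (cf α β c))⁻¹‖ ≤ C0 ∧ (∀ (l : Fin (p + 1)) (u : Fin 3 → ℂ),
      ‖lf (cf α β l) u‖ ≤ C0 * (‖lf (cf α β a) u‖ + ‖lf (cf α β b) u‖ + ‖lf (cf α β c) u‖)) ∧
    ∀ (j : Fin 3) (u : Fin 3 → ℂ),
      ‖u j‖ ≤ C0 * (‖lf (cf α β a) u‖ + ‖lf (cf α β b) u‖ + ‖lf (cf α β c) u‖) := by
  -- all the forms
  let g : Fin (p + 1) ⊕ Fin 3 → Fin 3 → ℂ := Sum.elim (cf α β) fun j => Pi.single j 1
  let S : ℝ := ∑ a : Fin (p + 1), ∑ b : Fin (p + 1), ∑ c : Fin (p + 1), ∑ l : Fin (p + 1) ⊕ Fin 3,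
    K3 (cf α β a) (cf α β b) (cf α β c) (g l)
  have hle : ∀ a b c l, K3 (cf α β a) (cf α β b) (cf α β c) (g l) ≤ S := by
    intro a b c l
    refine (Finset.single_le_sum (f := fun l => K3 (cf α β a) (cf α β b) (cf α β c) (g l))
      (fun l _ => K3_nonneg _ _ _ _) (Finset.mem_univ l)).trans ?_
    refine (Finset.single_le_sum (f := fun c => ∑ l, K3 (cf α β a) (cf α β b) (cf α β c) (g l))
      (fun c _ => Finset.sum_nonneg fun l _ => K3_nonneg _ _ _ _) (Finset.mem_univ c)).trans ?_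
    refine (Finset.single_le_sum (f := fun b => ∑ c, ∑ l, K3 (cf α β a) (cf α β b) (cf α β c) (g l))
      (fun b _ => Finset.sum_nonneg fun c _ => Finset.sum_nonneg fun l _ => K3_nonneg _ _ _ _)
      (Finset.mem_univ b)).trans ?_
    exact Finset.single_le_sum (f := fun a => ∑ b, ∑ c, ∑ l, K3 (cf α β a) (cf α β b) (cf α β c) (g l))
      (fun a _ => Finset.sum_nonneg fun b _ => Finset.sum_nonneg fun c _ =>
        Finset.sum_nonneg fun l _ => K3_nonneg _ _ _ _) (Finset.mem_univ a)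
  have hS : 0 ≤ S := (K3_nonneg _ _ _ _).trans (hle 0 0 0 (Sum.inl 0))
  have hgen : ∀ a b c : Fin (p + 1), a ≠ b → a ≠ c → b ≠ c → ∀ (l) (u : Fin 3 → ℂ),
      ‖lf (g l) u‖ ≤ (1 + S) * (‖lf (cf α β a) u‖ + ‖lf (cf α β b) u‖ + ‖lf (cf α β c) u‖) := by
    intro a b c hab hac hbc l u
    refine (lf_le (w3_ne hG hab hac hbc) (g l) u).trans ?_
    refine mul_le_mul_of_nonneg_right ((hle a b c l).trans (by linarith)) (by positivity)
  refine ⟨1 + S, by linarith, fun a b c hab hac hbc => ⟨?_, fun l u => hgen a b c hab hac hbc (Sum.inl l) u,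
    fun j u => ?_⟩⟩
  · have h1 : ‖(w3 (cf α β a) (cf α β b) (cf α β c))⁻¹‖ ≤
        K3 (cf α β a) (cf α β b) (cf α β c) (g (Sum.inl 0)) := by
      unfold K3
      exact le_mul_of_one_le_right (norm_nonneg _) (by
        have := norm_nonneg (w3 (g (Sum.inl 0)) (cf α β b) (cf α β c))
        have := norm_nonneg (w3 (cf α β a) (g (Sum.inl 0)) (cf α β c))
        have := norm_nonneg (w3 (cf α β a) (cf α β b) (g (Sum.inl 0)))
        linarith)
    exact h1.trans ((hle a b c _).trans (by linarith))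
  · have h1 := hgen a b c hab hac hbc (Sum.inr j) u
    have h2 : lf (g (Sum.inr j)) u = u j := by
      fin_cases j <;> simp [lf, g]
    rwa [h2] at h1

/-! ## the theorem -/

theorem block3 (hp : 3 ≤ p) {α β : Fin p → ℂ} (hG : Gp α β) : ∃ C : ℝ, 1 ≤ C ∧
    ∀ (u : ℂ → Fin 3 → ℂ) (z : ℂ) (ε B : ℝ), 0 < ε → ε ≤ 1 → 1 ≤ B →
      (∀ w ∈ closedBall z ε, ∀ j, AnalyticAt ℂ (fun w => u w j) w) → Calm (UL α β u) z ε B →
      ∃ lam : ℂ → ℂ, AnalyticAt ℂ lam z ∧ ‖lam z‖ = sup (UL α β u) z ∧ lam z ≠ 0 ∧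
        (∀ j, AnalyticAt ℂ (fun w => vt u lam w j) z) ∧ (∀ j, ‖vt u lam z j‖ ≤ C) ∧
        (∀ j, ‖deriv (fun w => vt u lam w j) z‖ ≤ C * (B / ε)) ∧
        ‖W3 (vt u lam) z‖ ≤ C * (B / ε) ^ 3 * ∏ i, ‖eh (α i) (β i) (vt u lam z)‖ := by
  classical
  obtain ⟨C0, hC0, hC⟩ := exists_C0 hG
  have hC00 : 0 ≤ C0 := by linarith
  set C : ℝ := 3 * C0 + 4 * C0 * (3 * C0) ^ p with hCdef
  have hCp : 1 ≤ (3 * C0) ^ p := one_le_pow₀ (by linarith)
  have hC1 : 1 ≤ C := by nlinarith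
  refine ⟨C, hC1, ?_⟩
  intro u z ε B hε hε1 hB hu hcalm
  have hzb : z ∈ closedBall z ε := mem_closedBall_self hε.le
  have hBε : 1 ≤ B / ε := by rw [le_div_iff₀ hε]; linarith
  have hBε0 : 0 ≤ B / ε := by positivity
  have hUan : ∀ i, ∀ w ∈ closedBall z ε, AnalyticAt ℂ (UL α β u i) w := by
    intro i w hw
    have h1 : UL α β u i = fun w => lf (cf α β i) (u w) := funext fun w => eL_lf α β i (u w)
    rw [h1]
    exact lf_an (hu w hw) _
  obtain ⟨i0, hi0⟩ := sup_attained (UL α β u) z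
  obtain ⟨lam, hlam⟩ : ∃ lam : ℂ → ℂ, lam = UL α β u i0 := ⟨_, rfl⟩
  have hne : ∀ i, ∀ w ∈ closedBall z ε, UL α β u i w ≠ 0 := hcalm.1
  have hlne : ∀ w ∈ closedBall z ε, lam w ≠ 0 := by rw [hlam]; exact hne i0
  -- the normalised forms
  obtain ⟨V, hV⟩ : ∃ V : Fin (p + 1) → ℂ → ℂ, ∀ i, V i = fun w => lf (cf α β i) (vt u lam w) := ⟨_, fun _ => rfl⟩
  have hVq : ∀ i w, V i w = UL α β u i w / UL α β u i0 w := by
    intro i w
    rw [hV]
    simp only
    rw [lf_div, hlam, ← eL_lf]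
    rfl
  have hvan : ∀ w ∈ closedBall z ε, ∀ j, AnalyticAt ℂ (fun w => vt u lam w j) w := by
    intro w hw j
    have h1 : AnalyticAt ℂ lam w := by rw [hlam]; exact hUan i0 w hw
    exact (hu w hw j).fun_div h1 (hlne w hw)
  have hVan : ∀ i, ∀ w ∈ closedBall z ε, AnalyticAt ℂ (V i) w := fun i w hw => by
    rw [hV]; exact lf_an (hvan w hw) _
  have hVle : ∀ i, ‖V i z‖ ≤ 1 := by
    intro i
    rw [hVq, norm_div, div_le_one (norm_pos_iff.2 (hne i0 z hzb)), ← hi0]
    exact le_sup _ _ _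
  have hVdc : ∀ i, DiffContOnCl ℂ (V i) (ball z ε) := by
    intro i
    refine DifferentiableOn.diffContOnCl fun w hw => ?_
    rw [closure_ball z hε.ne'] at hw
    exact (hVan i w hw).differentiableAt.differentiableWithinAt
  have hVb : ∀ i, ∀ w ∈ sphere z ε, ‖V i w‖ ≤ B * ‖V i z‖ := fun i w hw => by
    rw [hVq, hVq]
    exact hcalm.2 i0 i w (sphere_subset_closedBall hw)
  have hd1 : ∀ i, ‖deriv (V i) z‖ ≤ B / ε * ‖V i z‖ := by
    intro i
    have := Complex.norm_deriv_le_of_forall_mem_sphere_norm_le hε (hVdc i) (hVb i)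
    refine this.trans (le_of_eq ?_)
    ring
  have hd2 : ∀ i, ‖deriv (deriv (V i)) z‖ ≤ 2 * (B / ε) ^ 2 * ‖V i z‖ := by
    intro i
    have := Complex.norm_iteratedDeriv_le_of_forall_mem_sphere_norm_le 2 hε (hVdc i) (hVb i)
    rw [iteratedDeriv_succ, iteratedDeriv_one] at this
    refine this.trans ?_
    have h1 : ((2 : ℕ).factorial : ℝ) = 2 := by norm_num [Nat.factorial]
    rw [h1]
    have h2 : 2 * (B * ‖V i z‖) / ε ^ 2 = 2 * (B / ε ^ 2) * ‖V i z‖ := by ring
    rw [h2]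
    refine mul_le_mul_of_nonneg_right ?_ (norm_nonneg _)
    refine mul_le_mul_of_nonneg_left ?_ (by norm_num)
    rw [div_pow]
    refine div_le_div_of_nonneg_right ?_ (by positivity)
    nlinarith
  -- the two smallest forms
  obtain ⟨j0, hj0, hmin0⟩ := Finset.exists_min_image (Finset.univ.filter fun j : Fin (p + 1) => j ≠ i0)
    (fun j => ‖V j z‖) (by
      rw [← Finset.card_pos]
      have h1 : (Finset.univ.filter fun j : Fin (p + 1) => j ≠ i0) = Finset.univ.erase i0 := by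
        ext j; simp
      rw [h1, Finset.card_erase_of_mem (Finset.mem_univ _), Finset.card_univ, Fintype.card_fin]
      omega)
  have hj0' : j0 ≠ i0 := (Finset.mem_filter.1 hj0).2
  obtain ⟨j1, hj1, hmin1⟩ := Finset.exists_min_image
    (Finset.univ.filter fun j : Fin (p + 1) => j ≠ i0 ∧ j ≠ j0) (fun j => ‖V j z‖) (by
      rw [← Finset.card_pos]
      have h1 : (Finset.univ.filter fun j : Fin (p + 1) => j ≠ i0 ∧ j ≠ j0) =
          (Finset.univ.erase i0).erase j0 := by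
        ext j; simp [and_comm]
      rw [h1, Finset.card_erase_of_mem (Finset.mem_erase.2 ⟨hj0', Finset.mem_univ _⟩),
        Finset.card_erase_of_mem (Finset.mem_univ _), Finset.card_univ, Fintype.card_fin]
      omega)
  have hj1' := (Finset.mem_filter.1 hj1).2
  set δ0 : ℝ := ‖V j0 z‖ with hδ0
  set δ1 : ℝ := ‖V j1 z‖ with hδ1
  have hδ00 : 0 ≤ δ0 := norm_nonneg _
  have hδ10 : 0 ≤ δ1 := norm_nonneg _
  have hδ01 : δ0 ≤ δ1 := hmin0 j1 (Finset.mem_filter.2 ⟨Finset.mem_univ _, hj1'.1⟩)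
  have hδ0le : δ0 ≤ 1 := hVle j0
  have hδ1le : δ1 ≤ 1 := hVle j1
  have hone : ∀ w ∈ closedBall z ε, V i0 w = 1 := fun w hw => by
    rw [hVq, div_self (hne i0 w hw)]
  -- the other forms are large
  have hlow : ∀ l, l ≠ j0 → l ≠ j1 → (3 * C0)⁻¹ ≤ ‖V l z‖ := by
    intro l h0 h1
    rw [inv_le_iff_one_le_mul₀ (by positivity)]
    have h2 := (hC l j0 j1 h0 h1 hj1'.2.symm).2.1 i0 (vt u lam z)
    have h3 : ∀ i, lf (cf α β i) (vt u lam z) = V i z := fun i => by rw [hV]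
    rw [h3, h3, h3, h3, hone z hzb, norm_one] at h2
    have h4 : δ1 ≤ ‖V l z‖ := by
      by_cases hl : l = i0
      · rw [hl, hone z hzb, norm_one]; exact hδ1le
      · exact hmin1 l (Finset.mem_filter.2 ⟨Finset.mem_univ _, hl, h0⟩)
    have h5 : ‖V l z‖ + δ0 + δ1 ≤ 3 * ‖V l z‖ := by linarith
    have h6 := mul_le_mul_of_nonneg_left h5 hC00
    linarith
  have hVeh : ∀ i : Fin p, ‖V i.succ z‖ = ‖eh (α i) (β i) (vt u lam z)‖ := fun i => by
    rw [hV]
    simp only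
    rw [← eL_lf, eL_succ]
  have hprod : δ0 * δ1 ≤ (3 * C0) ^ p * ∏ i, ‖eh (α i) (β i) (vt u lam z)‖ := by
    simp only [← hVeh]
    set κ : ℝ := (3 * C0)⁻¹ with hκ
    have hκ0 : 0 ≤ κ := by positivity
    have hκ1 : κ ≤ 1 := inv_le_one_of_one_le₀ (by linarith)
    have h1 : ∏ i : Fin p, ((if i.succ = j0 then δ0 else 1) * (if i.succ = j1 then δ1 else 1) * κ) ≤
        ∏ i : Fin p, ‖V i.succ z‖ := by
      refine Finset.prod_le_prod (fun i _ => ?_) fun i _ => ?_
      · split_ifs <;> positivity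
      · by_cases h0 : i.succ = j0
        · have h1 : i.succ ≠ j1 := fun h => hj1'.2 (h.symm.trans h0)
          rw [if_pos h0, if_neg h1, mul_one, h0]
          exact mul_le_of_le_one_right hδ00 hκ1
        · rw [if_neg h0, one_mul]
          by_cases h1 : i.succ = j1
          · rw [if_pos h1, h1]
            exact mul_le_of_le_one_right hδ10 hκ1
          · rw [if_neg h1, one_mul]
            exact hlow _ h0 h1
    have h2 : ∀ (j : Fin (p + 1)) (δ : ℝ), 0 ≤ δ → δ ≤ 1 → δ ≤ ∏ i : Fin p, (if i.succ = j then δ else 1) := by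
      intro j δ h0 h1
      have h3 : δ = ∏ i : Fin (p + 1), (if i = j then δ else 1) := by
        rw [Finset.prod_ite_eq' Finset.univ j (fun _ => δ), if_pos (Finset.mem_univ _)]
      have h4 : 0 ≤ ∏ i : Fin p, (if i.succ = j then δ else 1) :=
        Finset.prod_nonneg fun i _ => by split_ifs <;> linarith
      calc δ = ∏ i : Fin (p + 1), (if i = j then δ else 1) := h3
        _ = (if 0 = j then δ else 1) * ∏ i : Fin p, (if i.succ = j then δ else 1) := Fin.prod_univ_succ _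
        _ ≤ 1 * ∏ i : Fin p, (if i.succ = j then δ else 1) := by
            refine mul_le_mul_of_nonneg_right ?_ h4
            split_ifs
            · exact h1
            · exact le_rfl
        _ = _ := one_mul _
    have h3 : δ0 * δ1 * κ ^ p ≤ ∏ i : Fin p, ‖V i.succ z‖ := by
      refine le_trans ?_ h1
      rw [Finset.prod_mul_distrib, Finset.prod_mul_distrib, Finset.prod_const, Finset.card_univ,
        Fintype.card_fin]
      refine mul_le_mul_of_nonneg_right ?_ (by positivity)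
      exact mul_le_mul (h2 j0 δ0 hδ00 hδ0le) (h2 j1 δ1 hδ10 hδ1le) hδ10
        (hδ00.trans (h2 j0 δ0 hδ00 hδ0le))
    calc δ0 * δ1 = (3 * C0) ^ p * (δ0 * δ1 * κ ^ p) := by
          rw [hκ, inv_pow]
          field_simp
      _ ≤ _ := mul_le_mul_of_nonneg_left h3 (by positivity)
  -- the Wronskian
  have hvz := hvan z hzb
  have hW : w3 (cf α β i0) (cf α β j0) (cf α β j1) * W3 (vt u lam) z =
      deriv (V j0) z * deriv (deriv (V j1)) z - deriv (V j1) z * deriv (deriv (V j0)) z := by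
    rw [W3, w3_mul]
    have e0 : ∀ i, lf (cf α β i) (vt u lam z) = V i z := fun i => by rw [hV]
    have e1 : ∀ i, lf (cf α β i) (fun j => deriv (fun w => vt u lam w j) z) = deriv (V i) z := fun i => by
      rw [hV]; exact (lf_deriv hvz _).symm
    have e2 : ∀ i, lf (cf α β i) (fun j => deriv (deriv fun w => vt u lam w j) z) = deriv (deriv (V i)) z :=
      fun i => by rw [hV]; exact (lf_deriv2 hvz _).symm
    have h1 : V i0 =ᶠ[nhds z] fun _ => 1 := by
      filter_upwards [closedBall_mem_nhds z hε] with w hw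
      exact hone w hw
    have h2 : deriv (V i0) z = 0 := by rw [h1.deriv_eq, deriv_const]
    have h3 : deriv (deriv (V i0)) z = 0 := by
      rw [h1.deriv.deriv_eq]
      simp
    simp only [e0, e1, e2, h2, h3, hone z hzb]
    simp [w3]
  have hWle : ‖W3 (vt u lam) z‖ ≤ C0 * (4 * (B / ε) ^ 3 * (δ0 * δ1)) := by
    have hD := w3_ne hG hj0'.symm hj1'.1.symm hj1'.2.symm
    have h1 : W3 (vt u lam) z = (w3 (cf α β i0) (cf α β j0) (cf α β j1))⁻¹ *
        (deriv (V j0) z * deriv (deriv (V j1)) z - deriv (V j1) z * deriv (deriv (V j0)) z) := by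
      rw [← hW, ← mul_assoc, inv_mul_cancel₀ hD, one_mul]
    rw [h1, norm_mul]
    refine mul_le_mul (hC i0 j0 j1 hj0'.symm hj1'.1.symm hj1'.2.symm).1 ?_ (norm_nonneg _) hC00
    refine (norm_sub_le _ _).trans ?_
    rw [norm_mul, norm_mul]
    have a1 : ‖deriv (V j0) z‖ * ‖deriv (deriv (V j1)) z‖ ≤ (B / ε * δ0) * (2 * (B / ε) ^ 2 * δ1) :=
      mul_le_mul (hd1 j0) (hd2 j1) (norm_nonneg _) (by positivity)
    have a2 : ‖deriv (V j1) z‖ * ‖deriv (deriv (V j0)) z‖ ≤ (B / ε * δ1) * (2 * (B / ε) ^ 2 * δ0) :=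
      mul_le_mul (hd1 j1) (hd2 j0) (norm_nonneg _) (by positivity)
    calc _ ≤ (B / ε * δ0) * (2 * (B / ε) ^ 2 * δ1) + (B / ε * δ1) * (2 * (B / ε) ^ 2 * δ0) := add_le_add a1 a2
      _ = 4 * (B / ε) ^ 3 * (δ0 * δ1) := by ring
  -- three forms
  obtain ⟨a, b, c, hab, hac, hbc⟩ : ∃ a b c : Fin (p + 1), a ≠ b ∧ a ≠ c ∧ b ≠ c := by
    refine ⟨⟨0, by omega⟩, ⟨1, by omega⟩, ⟨2, by omega⟩, ?_, ?_, ?_⟩ <;> simp [Fin.ext_iff]
  have hcoord := (hC a b c hab hac hbc).2.2
  refine ⟨lam, by rw [hlam]; exact hUan i0 z hzb, by rw [hlam]; exact hi0.symm, hlne z hzb, hvz, fun j => ?_,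
    fun j => ?_, ?_⟩
  · refine (hcoord j (vt u lam z)).trans ?_
    have e0 : ∀ i, lf (cf α β i) (vt u lam z) = V i z := fun i => by rw [hV]
    rw [e0, e0, e0]
    have h1 : ‖V a z‖ + ‖V b z‖ + ‖V c z‖ ≤ 3 := by linarith [hVle a, hVle b, hVle c]
    have h2 := mul_le_mul_of_nonneg_left h1 hC00
    have h3 : 0 ≤ 4 * C0 * (3 * C0) ^ p := by positivity
    linarith
  · refine (hcoord j fun j => deriv (fun w => vt u lam w j) z).trans ?_
    have e1 : ∀ i, lf (cf α β i) (fun j => deriv (fun w => vt u lam w j) z) = deriv (V i) z := fun i => by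
      rw [hV]; exact (lf_deriv hvz _).symm
    rw [e1, e1, e1]
    have h0 : ∀ i, ‖deriv (V i) z‖ ≤ B / ε := fun i =>
      (hd1 i).trans (mul_le_of_le_one_right hBε0 (hVle i))
    have h1 : ‖deriv (V a) z‖ + ‖deriv (V b) z‖ + ‖deriv (V c) z‖ ≤ 3 * (B / ε) := by
      linarith [h0 a, h0 b, h0 c]
    have h2 := mul_le_mul_of_nonneg_left h1 hC00
    have h3 : 0 ≤ 4 * C0 * (3 * C0) ^ p * (B / ε) := by positivity
    have h4 : C * (B / ε) = C0 * (3 * (B / ε)) + 4 * C0 * (3 * C0) ^ p * (B / ε) := by rw [hCdef]; ring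
    rw [h4]
    linarith
  · refine hWle.trans ?_
    have hPn : 0 ≤ ∏ i, ‖eh (α i) (β i) (vt u lam z)‖ := Finset.prod_nonneg fun i _ => norm_nonneg _
    calc C0 * (4 * (B / ε) ^ 3 * (δ0 * δ1)) = 4 * C0 * (B / ε) ^ 3 * (δ0 * δ1) := by ring
      _ ≤ 4 * C0 * (B / ε) ^ 3 * ((3 * C0) ^ p * ∏ i, ‖eh (α i) (β i) (vt u lam z)‖) :=
          mul_le_mul_of_nonneg_left hprod (by positivity)
      _ = (4 * C0 * (3 * C0) ^ p) * (B / ε) ^ 3 * ∏ i, ‖eh (α i) (β i) (vt u lam z)‖ := by ring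
      _ ≤ C * (B / ε) ^ 3 * ∏ i, ‖eh (α i) (β i) (vt u lam z)‖ := by
          refine mul_le_mul_of_nonneg_right (mul_le_mul_of_nonneg_right ?_ (by positivity)) hPn
          rw [hCdef]
          linarith

end Pool.Agent.K9h12.LN
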