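import Pool.Agent.K9h12.LN.Ord

/-!
The orders of the jet differentials at germs of curves.
-/

set_option autoImplicit false

open FF MvPolynomial

namespace Pool.Agent.K9h12.LN

open Pool.Agent.W603.LV Pool.Agent.W602.GT Pool.Agent.K9h12.SH

variable {p : ℕ} {L : Type} [Field L] [Algebra ℂ L] {P : Place ℂ L} {D : Derivation ℂ L L}

/-- **Curves through a common point of two lines.** -/
theorem node_F (h : Nice P D) {α β : Fin p → ℂ} {i j : Fin p} (hij : i ≠ j) {x0 y0 : ℂ}
    (hi : y0 - α i * x0 = β i) (hj : y0 - α j * x0 = β j) {N m : ℕ} {f : TT p}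
    (hf : Fam N m f) {x y : L} (hx : Ge P 1 (x - algebraMap ℂ L x0))
    (hy : Ge P 1 (y - algebraMap ℂ L y0)) : Ge P 12 (F1 N m α β f D x y) := by
  have hx0 : Ge P 0 x := by
    have := (hx.mono (by omega : (0 : ℤ) ≤ 1)).add (Ge.const (P := P) x0)
    rwa [sub_add_cancel] at this
  by_cases h1 : Ge P 1 (D x)
  · obtain ⟨π, hπ, hDπ⟩ := h.uni
    have hπ1 : Ge P 1 π := Or.inr hπ.ge
    have hDD : D (D π) = 0 := by rw [hDπ, D.map_one_eq_zero]
    let Q : Polynomial L := Fx N m α β f
      ![1, Polynomial.C x + Polynomial.X * Polynomial.C π, Polynomial.C y]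
      (Polynomial.C (D x) + Polynomial.X) (Polynomial.C (D y))
      ((Polynomial.C (D x) + Polynomial.X) * Polynomial.C (D (D y)) -
        Polynomial.C (D (D x)) * Polynomial.C (D y))
    have hQ : ∀ ε : ℂ, Q.eval (algebraMap ℂ L ε) = F1 N m α β f D (x + algebraMap ℂ L ε * π) y := by
      intro ε
      let φ : Polynomial L →ₐ[ℂ] L := (Polynomial.aeval (algebraMap ℂ L ε)).restrictScalars ℂ
      have h2 : ∀ q : Polynomial L, φ q = q.eval (algebraMap ℂ L ε) := fun q => by
        change Polynomial.aeval _ q = _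
        rw [Polynomial.coe_aeval_eq_eval]
      rw [← h2]
      simp only [Q]
      rw [Fx_map]
      have e1 : D (x + algebraMap ℂ L ε * π) = D x + algebraMap ℂ L ε := by
        rw [map_add, D.leibniz, D.map_algebraMap, hDπ]
        simp
      have e2 : D (D x + algebraMap ℂ L ε) = D (D x) := by
        rw [map_add, D.map_algebraMap, add_zero]
      unfold F1 SH.W
      rw [e1, e2]
      have e3 : (fun j => φ ((![1, Polynomial.C x + Polynomial.X * Polynomial.C π,
          Polynomial.C y] : Fin 3 → Polynomial L) j)) = ![1, x + algebraMap ℂ L ε * π, y] := by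
        funext j
        rw [h2]
        fin_cases j
        · simp
        · simp
          ring
        · simp
      rw [e3, h2, h2, h2]
      simp
    have h3 := interp Q (n := 12) (P := P) fun ε hε => by
      rw [hQ]
      have e1 : D (x + algebraMap ℂ L ε * π) = D x + algebraMap ℂ L ε := by
        rw [map_add, D.leibniz, D.map_algebraMap, hDπ]
        simp
      have h4 : ¬ Ge P 1 (D (x + algebraMap ℂ L ε * π)) := by
        intro h5
        rw [e1] at h5
        have h6 := h5.sub h1
        rw [add_sub_cancel_left] at h6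
        exact const_not hε h6
      have h5 : Ge P 1 (x + algebraMap ℂ L ε * π - algebraMap ℂ L x0) := by
        have := hx.add (((Ge.const ε).mul hπ1).mono (by omega))
        convert this using 1
        ring
      have h6 : Ge P 0 (x + algebraMap ℂ L ε * π) :=
        hx0.add (((Ge.const ε).mul hπ1).mono (by omega))
      obtain ⟨u1, u2⟩ := unit_of (h.reg _ h6) h4
      exact (node_imm h hij hi hj hf h5 hy u1 u2).1
    have h4 := hQ 0
    rw [map_zero, zero_mul, add_zero] at h4
    rw [← h4]
    exact h3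
  · obtain ⟨u1, u2⟩ := unit_of (h.reg _ hx0) h1
    exact (node_imm h hij hi hj hf hx hy u1 u2).1

theorem D_el (D : Derivation ℂ L L) (a b : ℂ) (x y : L) :
    D (el a b x y) = D y - algebraMap ℂ L a * D x := by
  unfold el
  rw [map_sub, map_sub, D.leibniz, D.map_algebraMap, D.map_algebraMap]
  simp

/-- the Wronskian and the lines -/
theorem W_el (D : Derivation ℂ L L) (a b : ℂ) (x y : L) : W D x y = W D x (el a b x y) := by
  unfold SH.W
  rw [D_el, map_sub, D.leibniz, D.map_algebraMap]
  simp only [smul_eq_mul, mul_zero, add_zero]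
  ring

theorem W_el2 (D : Derivation ℂ L L) (a b a' b' : ℂ) (x y : L) :
    algebraMap ℂ L (a - a') * W D x y = W D (el a' b' x y) (el a b x y) := by
  unfold SH.W
  rw [D_el, D_el, map_sub D, map_sub D, D.leibniz, D.leibniz, D.map_algebraMap, D.map_algebraMap,
    map_sub]
  simp only [smul_eq_mul, mul_zero, add_zero]
  ring

theorem ge_W1 (h : Nice P D) {a b : ℂ} {x y : L} (hx : Ge P 0 x) {n : ℤ}
    (hl : Ge P n (el a b x y)) : Ge P (n - 2) (W D x y) := by
  rw [W_el D a b]
  exact (h.W_ge (h.reg x hx) (h.ge_der hl)).mono (by omega)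

theorem ge_W2 (h : Nice P D) {a b a' b' : ℂ} (ha : a ≠ a') {x y : L} {n n' : ℤ}
    (hl : Ge P n (el a b x y)) (hl' : Ge P n' (el a' b' x y)) : Ge P (n + n' - 3) (W D x y) := by
  have h1 := (h.W_ge (h.ge_der hl') (h.ge_der hl)).mono (show n + n' - 3 ≤ _ by omega)
  rw [← W_el2 D a b a' b'] at h1
  have h2 : W D x y = algebraMap ℂ L (a - a')⁻¹ * (algebraMap ℂ L (a - a') * W D x y) := by
    rw [← mul_assoc, ← map_mul, inv_mul_cancel₀ (sub_ne_zero.2 ha), map_one, one_mul]
  rw [h2]
  exact ((Ge.const _).mul h1).mono (by omega)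

theorem ge_W0 (h : Nice P D) {x y : L} (hx : Ge P 0 x) (hy : Ge P 0 y) : Ge P 0 (W D x y) := by
  have h1 := h.reg x hx
  have h2 := h.reg y hy
  unfold SH.W
  exact ((h1.mul (h.reg _ h2)).mono (by omega)).sub (((h.reg _ h1).mul h2).mono (by omega))

/-- the common point of two lines -/
theorem node_pt {α β : Fin p → ℂ} (hG : Gp α β) {i j : Fin p} (hij : i ≠ j) {x y : L}
    (hi : Ge P 1 (el (α i) (β i) x y)) (hj : Ge P 1 (el (α j) (β j) x y)) :
    ∃ x0 y0 : ℂ, y0 - α i * x0 = β i ∧ y0 - α j * x0 = β j ∧ Ge P 1 (x - algebraMap ℂ L x0) ∧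
      Ge P 1 (y - algebraMap ℂ L y0) := by
  have ha : α i - α j ≠ 0 := sub_ne_zero.2 fun h => hij (hG.inj h)
  obtain ⟨x0, hx0⟩ : ∃ x0, x0 = (β j - β i) / (α i - α j) := ⟨_, rfl⟩
  have e1 : x0 * (α i - α j) = β j - β i := by rw [hx0]; field_simp
  have hx : Ge P 1 (x - algebraMap ℂ L x0) := by
    have h1 : x - algebraMap ℂ L x0 = algebraMap ℂ L (α i - α j)⁻¹ *
        (el (α j) (β j) x y - el (α i) (β i) x y) := by
      have h2 : el (α j) (β j) x y - el (α i) (β i) x y = algebraMap ℂ L (α i - α j) *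
          (x - algebraMap ℂ L x0) := by
        have h3 := congrArg (algebraMap ℂ L) e1
        simp only [map_mul, map_sub] at h3
        unfold el
        rw [map_sub]
        linear_combination h3
      rw [h2, ← mul_assoc, ← map_mul, inv_mul_cancel₀ ha, map_one, one_mul]
    rw [h1]
    exact ((Ge.const _).mul (hj.sub hi)).mono (by omega)
  refine ⟨x0, α i * x0 + β i, by ring, by linear_combination e1, hx, ?_⟩
  have h1 : y - algebraMap ℂ L (α i * x0 + β i) = el (α i) (β i) x y +
      algebraMap ℂ L (α i) * (x - algebraMap ℂ L x0) := by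
    unfold el
    rw [map_add, map_mul]
    ring
  rw [h1]
  exact hi.add (((Ge.const _).mul hx).mono (by omega))

/-- three lines have no common point -/
theorem no_three {α β : Fin p → ℂ} (hG : Gp α β) {i j k : Fin p} (hij : i ≠ j) (hik : i ≠ k)
    (hjk : j ≠ k) {x y : L} (hi : Ge P 1 (el (α i) (β i) x y))
    (hj : Ge P 1 (el (α j) (β j) x y)) (hk : Ge P 1 (el (α k) (β k) x y)) : False := by
  have h1 : algebraMap ℂ L ((β k - β i) * (α j - α i) - (β j - β i) * (α k - α i)) =
      algebraMap ℂ L (α j - α k) * el (α i) (β i) x y +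
      algebraMap ℂ L (α k - α i) * el (α j) (β j) x y +
      algebraMap ℂ L (α i - α j) * el (α k) (β k) x y := by
    unfold el
    simp only [map_sub, map_mul]
    ring
  refine const_not (P := P) (sub_ne_zero.2 (hG.three i j k hij hik hjk).symm) ?_
  rw [h1]
  exact ((((Ge.const _).mul hi).mono (by omega)).add (((Ge.const _).mul hj).mono (by omega))).add
    (((Ge.const _).mul hk).mono (by omega))

/-- the tangent curves -/
theorem tan_F (h : Nice P D) {α β : Fin p → ℂ} (hG : Gp α β) {i j : Fin p} (hij : i ≠ j)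
    {N m : ℕ} (hm : 54 ≤ m) {f : TT p} (hf : Fam N m f) {x y : L} (hx : Ge P 0 x) (hy : Ge P 0 y)
    (hi : Ge P 2 (el (α i) (β i) x y)) (hj : Ge P 1 (el (α j) (β j) x y)) :
    Ge P 18 (F1 N m α β f D x y) := by
  obtain ⟨x0, y0, e1, e2, hx1, hy1⟩ := node_pt hG hij (hi.mono (by omega)) hj
  have hd := h.ge_der hi
  rw [D_el] at hd
  by_cases h1 : Ge P 1 (D x)
  · have h2 : Ge P 1 (D y) := by
      have := (hd.mono (by omega : (1 : ℤ) ≤ 2 - 1)).add
        (((Ge.const (α i)).mul h1).mono (by omega : (1 : ℤ) ≤ 0 + 1))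
      rwa [sub_add_cancel] at this
    have := nonimm h (α := α) (β := β) hf (n := 18) (by omega) hx hy h1 h2
    exact_mod_cast this
  · obtain ⟨u1, u2⟩ := unit_of (h.reg _ hx) h1
    refine (node_imm h hij e1 e2 hf hx1 hy1 u1 u2).2 ?_
    have h3 := ge_div u1 hd
    rw [u2] at h3
    have h4 : D y / D x - algebraMap ℂ L (α i) = (D y - algebraMap ℂ L (α i) * D x) / D x := by
      field_simp
    rw [h4]
    exact h3.mono (by omega)

/-- the curves tangent to one line -/
theorem line_F (h : Nice P D) {α β : Fin p → ℂ} (i : Fin p)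
    {N m : ℕ} (hm : 54 ≤ m) {f : TT p} (hf : Fam N m f) {x y : L} (hx : Ge P 0 x) (hy : Ge P 0 y)
    (hi : Ge P 2 (el (α i) (β i) x y)) : Ge P 12 (F1 N m α β f D x y) := by
  have hd := h.ge_der hi
  rw [D_el] at hd
  by_cases h1 : Ge P 1 (D x)
  · have h2 : Ge P 1 (D y) := by
      have := (hd.mono (by omega : (1 : ℤ) ≤ 2 - 1)).add
        (((Ge.const (α i)).mul h1).mono (by omega : (1 : ℤ) ≤ 0 + 1))
      rwa [sub_add_cancel] at this
    have := nonimm h (α := α) (β := β) hf (n := 12) (by omega) hx hy h1 h2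
    exact_mod_cast this
  · obtain ⟨u1, u2⟩ := unit_of (h.reg _ hx) h1
    refine line_imm h i hf hx hy hi u1 u2 ?_
    have h3 := ge_div u1 hd
    rw [u2] at h3
    have h4 : D y / D x - algebraMap ℂ L (α i) = (D y - algebraMap ℂ L (α i) * D x) / D x := by
      field_simp
    rw [h4]
    exact h3.mono (by omega)

/-- **The orders at finite points.** -/
theorem loc_fin (h : Nice P D) {α β : Fin p → ℂ} (hG : Gp α β) {N m : ℕ} (hm : 54 ≤ m) {f : TT p}
    (hf : Fam N m f) {x y : L} (hx : Ge P 0 x) (hy : Ge P 0 y)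
    (hl : ∀ i, el (α i) (β i) x y ≠ 0) (hF : F1 N m α β f D x y ≠ 0) (hW : W D x y ≠ 0) :
    6 * ∑ i, P.ord (el (α i) (β i) x y) - 6 ≤ P.ord (F1 N m α β f D x y) + 6 * P.ord (W D x y) ∧
    (∑ i, P.ord (el (α i) (β i) x y) ≠ 1 → 6 * ∑ i, P.ord (el (α i) (β i) x y) ≤
      P.ord (F1 N m α β f D x y) + 6 * P.ord (W D x y)) := by
  classical
  have hreg : ∀ i, 0 ≤ P.ord (el (α i) (β i) x y) := fun i => by
    have h1 : Ge P 0 (el (α i) (β i) x y) := by
      unfold el
      exact (hy.sub (((Ge.const _).mul hx).mono (by omega))).sub (Ge.const _)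
    exact h1.resolve_left (hl i)
  have F0 := (F1_reg h (α := α) (β := β) N m f hx hy).resolve_left hF
  have W0 := (ge_W0 h hx hy).resolve_left hW
  have gi : ∀ i, Ge P (P.ord (el (α i) (β i) x y)) (el (α i) (β i) x y) := fun i => ge_ord P _
  by_cases h0 : ∃ i, 1 ≤ P.ord (el (α i) (β i) x y)
  · obtain ⟨i, -, hi⟩ := Finset.exists_max_image Finset.univ
      (fun i => P.ord (el (α i) (β i) x y)) (by obtain ⟨i, -⟩ := h0; exact ⟨i, Finset.mem_univ i⟩)
    have hi1 : 1 ≤ P.ord (el (α i) (β i) x y) := by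
      obtain ⟨k, hk⟩ := h0
      exact hk.trans (hi k (Finset.mem_univ k))
    by_cases h1 : ∃ j, j ≠ i ∧ 1 ≤ P.ord (el (α j) (β j) x y)
    · obtain ⟨j, hji, hj1⟩ := h1
      have hoth : ∀ k, k ≠ i → k ≠ j → P.ord (el (α k) (β k) x y) = 0 := by
        intro k hki hkj
        by_contra hne
        have := hreg k
        exact no_three hG hji.symm hki.symm hkj.symm ((gi i).mono hi1) ((gi j).mono hj1)
          ((gi k).mono (by omega))
      have hsum : ∑ k, P.ord (el (α k) (β k) x y) =
          P.ord (el (α i) (β i) x y) + P.ord (el (α j) (β j) x y) := by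
        rw [← Finset.sum_pair (f := fun k => P.ord (el (α k) (β k) x y)) hji.symm]
        refine (Finset.sum_subset (Finset.subset_univ _) fun k _ hk => ?_).symm
        simp only [Finset.mem_insert, Finset.mem_singleton, not_or] at hk
        exact hoth k hk.1 hk.2
      have hle := hi j (Finset.mem_univ j)
      have key : 6 * ∑ i, P.ord (el (α i) (β i) x y) ≤
          P.ord (F1 N m α β f D x y) + 6 * P.ord (W D x y) := by
        rw [hsum]
        have w1 := (ge_W2 h (fun e => hji (hG.inj e).symm) (gi i) (gi j)).resolve_left hW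
        by_cases h2 : 2 ≤ P.ord (el (α i) (β i) x y)
        · have f1 := (tan_F h hG hji.symm hm hf hx hy ((gi i).mono h2)
            ((gi j).mono hj1)).resolve_left hF
          omega
        · obtain ⟨x0, y0, e1, e2, hx1, hy1⟩ := node_pt hG hji.symm ((gi i).mono hi1)
            ((gi j).mono hj1)
          have f1 := (node_F h hji.symm e1 e2 hf hx1 hy1).resolve_left hF
          omega
      exact ⟨by omega, fun _ => key⟩
    · push Not at h1
      have hsum : ∑ k, P.ord (el (α k) (β k) x y) = P.ord (el (α i) (β i) x y) := by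
        refine Finset.sum_eq_single i (fun k _ hk => ?_) fun h => absurd (Finset.mem_univ i) h
        have h2 := h1 k hk
        have h3 := hreg k
        omega
      rw [hsum]
      by_cases h2 : 2 ≤ P.ord (el (α i) (β i) x y)
      · have f1 := (line_F h i hm hf hx hy ((gi i).mono h2)).resolve_left hF
        have w1 := (ge_W1 h hx (gi i)).resolve_left hW
        exact ⟨by omega, fun _ => by omega⟩
      · exact ⟨by omega, fun h3 => absurd (by omega) h3⟩
  · push Not at h0
    have hsum : ∑ k, P.ord (el (α k) (β k) x y) = 0 :=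
      Finset.sum_eq_zero fun k _ => by have h1 := h0 k; have h2 := hreg k; omega
    rw [hsum]
    exact ⟨by omega, fun _ => by omega⟩

end Pool.Agent.K9h12.LN
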