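import Pool.Agent.K9h12.LN.Mer
import Pool.Agent.K9h12.LN.Loc
import Pool.Agent.K9h12.LN.Blk

/-!
The pointwise bounds for the auxiliary form along a map to the plane.
-/

set_option autoImplicit false

open FF Filter Metric Set Topology

namespace Pool.Agent.K9h12.LN

open Pool.Agent.W603.LV Pool.Agent.W602.GT Pool.Agent.W603.BP Pool.Agent.W601.PH
  Pool.Agent.W602.NC Pool.Agent.TH152.HY Pool.Agent.Y190.AN Pool.Agent.K9h12.AX
  Pool.Agent.K9h12.SH Pool.Agent.K9h12.SG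

variable {p : ℕ}

/-! ## bounds for normalised vectors -/

/-- the bound of the jet differential -/
theorem Fx_bound {N m : ℕ} (α β : Fin p → ℂ) {f : TT p} (hJ : Up wJ m f) {C1 C2 C3 : ℝ}
    (h1 : 0 ≤ C1) (h2 : 0 ≤ C2) (h3 : 0 ≤ C3) : ∃ a : ℝ, 1 ≤ a ∧
    ∀ (v : Fin 3 → ℂ) (w1 w2 W : ℂ) (K : ℝ), 1 ≤ K → (∀ j, ‖v j‖ ≤ C1) → ‖w1‖ ≤ C2 * K →
      ‖w2‖ ≤ C2 * K → ‖W‖ ≤ C3 * K ^ 3 → ‖Fx N m α β f v w1 w2 W‖ ≤ a * K ^ m := by
  let q : (VV p →₀ ℕ) → ℝ := fun μ => ‖cs α β f μ‖ *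
    ((C1 ^ μ (Sum.inl 0) * C1 ^ μ (Sum.inl 1) * C1 ^ (N - μ (Sum.inl 0) - μ (Sum.inl 1))) *
      (C2 ^ (m - μ (Sum.inl 2) - 3 * μ (Sum.inl 3)) * C2 ^ μ (Sum.inl 2) *
        (C3 * C1 ^ 3) ^ μ (Sum.inl 3)))
  have hq0 : ∀ μ, 0 ≤ q μ := fun μ => by positivity
  refine ⟨1 + ∑ μ ∈ f.support, q μ, le_add_of_nonneg_right (Finset.sum_nonneg fun μ _ => hq0 μ), ?_⟩
  intro v w1 w2 W K hK hv hw1 hw2 hW
  have hK0 : 0 ≤ K := by linarith
  unfold Fx
  refine (norm_sum_le _ _).trans ?_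
  have hterm : ∀ μ ∈ f.support, ‖algebraMap ℂ ℂ (cs α β f μ) *
      ((v 1 ^ μ (Sum.inl 0) * v 2 ^ μ (Sum.inl 1) * v 0 ^ (N - μ (Sum.inl 0) - μ (Sum.inl 1))) *
      (w1 ^ (m - μ (Sum.inl 2) - 3 * μ (Sum.inl 3)) * w2 ^ μ (Sum.inl 2) *
        (W * v 0 ^ 3) ^ μ (Sum.inl 3)))‖ ≤ q μ * K ^ m := by
    intro μ hμ
    have e2 := hJ μ hμ
    rw [← wJ_nonneg] at e2
    rw [norm_mul, norm_mul, norm_mul, norm_mul, norm_mul, norm_mul, norm_pow, norm_pow, norm_pow, norm_pow,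
      norm_pow, norm_pow, norm_mul, norm_pow, Algebra.algebraMap_self, RingHom.id_apply]
    have b1 := pow_le_pow_left₀ (norm_nonneg _) (hv 1) (μ (Sum.inl 0))
    have b2 := pow_le_pow_left₀ (norm_nonneg _) (hv 2) (μ (Sum.inl 1))
    have b0 := pow_le_pow_left₀ (norm_nonneg _) (hv 0) (N - μ (Sum.inl 0) - μ (Sum.inl 1))
    have b3 := pow_le_pow_left₀ (norm_nonneg _) hw1 (m - μ (Sum.inl 2) - 3 * μ (Sum.inl 3))
    have b4 := pow_le_pow_left₀ (norm_nonneg _) hw2 (μ (Sum.inl 2))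
    have b5 : ‖W‖ * ‖v 0‖ ^ 3 ≤ C3 * K ^ 3 * C1 ^ 3 :=
      mul_le_mul hW (pow_le_pow_left₀ (norm_nonneg _) (hv 0) 3) (by positivity) (by positivity)
    have b6 := pow_le_pow_left₀ (by positivity) b5 (μ (Sum.inl 3))
    calc _ ≤ ‖cs α β f μ‖ *
        ((C1 ^ μ (Sum.inl 0) * C1 ^ μ (Sum.inl 1) * C1 ^ (N - μ (Sum.inl 0) - μ (Sum.inl 1))) *
        ((C2 * K) ^ (m - μ (Sum.inl 2) - 3 * μ (Sum.inl 3)) * (C2 * K) ^ μ (Sum.inl 2) *
        (C3 * K ^ 3 * C1 ^ 3) ^ μ (Sum.inl 3))) := by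
          refine mul_le_mul_of_nonneg_left (mul_le_mul (mul_le_mul (mul_le_mul b1 b2 (by positivity)
            (by positivity)) b0 (by positivity) (by positivity)) (mul_le_mul (mul_le_mul b3 b4
            (by positivity) (by positivity)) b6 (by positivity) (by positivity)) (by positivity)
            (by positivity)) (norm_nonneg _)
      _ = q μ * K ^ m := by
          obtain ⟨k, hk⟩ : ∃ k, k = μ (Sum.inl 2) := ⟨_, rfl⟩
          obtain ⟨l, hl⟩ : ∃ l, l = μ (Sum.inl 3) := ⟨_, rfl⟩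
          simp only [q]
          rw [← hk, ← hl] at e2 ⊢
          obtain ⟨j, hj⟩ : ∃ j, m = k + 3 * l + j := ⟨m - (k + 3 * l), by omega⟩
          rw [show m - k - 3 * l = j by omega, show K ^ m = K ^ (j + k + 3 * l) by congr 1; omega]
          simp only [mul_pow, pow_add K, pow_mul K]
          ring
  calc _ ≤ ∑ μ ∈ f.support, q μ * K ^ m := Finset.sum_le_sum hterm
    _ = (∑ μ ∈ f.support, q μ) * K ^ m := by rw [Finset.sum_mul]
    _ ≤ (1 + ∑ μ ∈ f.support, q μ) * K ^ m :=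
        mul_le_mul_of_nonneg_right (by linarith) (by positivity)

/-- the bound of the homogeneous form -/
theorem hA_bound (d : ℕ) (A : MvPolynomial (Fin 2) ℂ) {C1 : ℝ} (h1 : 0 ≤ C1) : ∃ a : ℝ, 1 ≤ a ∧
    ∀ v : Fin 3 → ℂ, (∀ j, ‖v j‖ ≤ C1) → ‖hA d A v‖ ≤ a := by
  refine ⟨1 + ∑ ν ∈ A.support, ‖A.coeff ν‖ * (C1 ^ ν 0 * C1 ^ ν 1 * C1 ^ (d - ν 0 - ν 1)),
    le_add_of_nonneg_right (Finset.sum_nonneg fun i _ => by positivity), fun v hv => ?_⟩
  unfold hA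
  refine le_trans (norm_sum_le _ _) (le_trans (Finset.sum_le_sum fun ν _ => ?_)
    (le_add_of_nonneg_left zero_le_one))
  rw [norm_mul, norm_mul, norm_mul, norm_pow, norm_pow, norm_pow, Algebra.algebraMap_self,
    RingHom.id_apply]
  have b1 := pow_le_pow_left₀ (norm_nonneg _) (hv 1) (ν 0)
  have b2 := pow_le_pow_left₀ (norm_nonneg _) (hv 2) (ν 1)
  have b0 := pow_le_pow_left₀ (norm_nonneg _) (hv 0) (d - ν 0 - ν 1)
  exact mul_le_mul_of_nonneg_left (mul_le_mul (mul_le_mul b1 b2 (by positivity) (by positivity)) b0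
    (by positivity) (by positivity)) (norm_nonneg _)

/-! ## scaling -/

theorem scale3_at {u : ℂ → Fin 3 → ℂ} {lam : ℂ → ℂ} {z : ℂ} (hl : AnalyticAt ℂ lam z)
    (h0 : lam z ≠ 0) (hvt : ∀ j, AnalyticAt ℂ (fun w => vt u lam w j) z) :
    (∀ j, u z j = lam z * vt u lam z j) ∧ w1f u z = lam z ^ 2 * w1f (vt u lam) z ∧
    w2f u z = lam z ^ 2 * w2f (vt u lam) z ∧ W3 u z = lam z ^ 3 * W3 (vt u lam) z := by
  have hne : ∀ᶠ w in 𝓝 z, lam w ≠ 0 := hl.continuousAt.eventually_ne h0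
  have heq : ∀ j w, lam w ≠ 0 → u w j = lam w * vt u lam w j := by
    intro j w hw
    unfold vt
    field_simp
  have hgood : ∀ᶠ w in 𝓝 z, (∀ᶠ t in 𝓝 w, lam t ≠ 0) ∧ AnalyticAt ℂ lam w ∧
      ∀ j, AnalyticAt ℂ (fun w => vt u lam w j) w := by
    filter_upwards [hne.eventually_nhds, hl.eventually_analyticAt,
      Filter.eventually_all.2 fun j => (hvt j).eventually_analyticAt] with w h1 h2 h3 using ⟨h1, h2, h3⟩
  have hder : ∀ j, ∀ᶠ w in 𝓝 z, deriv (fun w => u w j) w =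
      deriv lam w * vt u lam w j + lam w * deriv (fun w => vt u lam w j) w := by
    intro j
    filter_upwards [hgood] with w hw
    obtain ⟨h1, h2, h3⟩ := hw
    have h4 : (fun w => u w j) =ᶠ[𝓝 w] fun w => lam w * vt u lam w j := by
      filter_upwards [h1] with t ht using heq j t ht
    rw [h4.deriv_eq, deriv_fun_mul h2.differentiableAt (h3 j).differentiableAt]
  have hder2 : ∀ j, deriv (deriv fun w => u w j) z =
      deriv (deriv lam) z * vt u lam z j + 2 * deriv lam z * deriv (fun w => vt u lam w j) z +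
        lam z * deriv (deriv fun w => vt u lam w j) z := by
    intro j
    have h5 : (deriv fun w => u w j) =ᶠ[𝓝 z] fun w => deriv lam w * vt u lam w j +
      lam w * deriv (fun w => vt u lam w j) w := hder j
    rw [h5.deriv_eq, deriv_fun_add (hl.deriv.fun_mul (hvt j)).differentiableAt
      (hl.fun_mul (hvt j).deriv).differentiableAt,
      deriv_fun_mul hl.deriv.differentiableAt (hvt j).differentiableAt,
      deriv_fun_mul hl.differentiableAt (hvt j).deriv.differentiableAt]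
    ring
  have e0 : ∀ j, u z j = lam z * vt u lam z j := fun j => heq j z h0
  have e1 : ∀ j, deriv (fun w => u w j) z =
      deriv lam z * vt u lam z j + lam z * deriv (fun w => vt u lam w j) z := fun j => (hder j).self_of_nhds
  refine ⟨e0, ?_, ?_, ?_⟩
  · unfold w1f
    rw [e0, e0, e1, e1]
    ring
  · unfold w2f
    rw [e0, e0, e1, e1]
    ring
  · unfold W3 w3
    simp only [e0, e1, hder2]
    ring

theorem eh_smul (a b s : ℂ) {u v : Fin 3 → ℂ} (h : ∀ j, u j = s * v j) : eh a b u = s * eh a b v := by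
  unfold eh
  rw [h, h, h]
  simp only [Algebra.algebraMap_self, RingHom.id_apply]
  ring

theorem eh_norm_le (a b : ℂ) {v : Fin 3 → ℂ} {C : ℝ} (hv : ∀ j, ‖v j‖ ≤ C) :
    ‖eh a b v‖ ≤ C * (1 + ‖a‖ + ‖b‖) := by
  unfold eh
  simp only [Algebra.algebraMap_self, RingHom.id_apply]
  calc ‖v 2 - a * v 1 - b * v 0‖ ≤ ‖v 2‖ + ‖a‖ * ‖v 1‖ + ‖b‖ * ‖v 0‖ := by
        rw [← norm_mul, ← norm_mul]
        exact (norm_sub_le _ _).trans (add_le_add (norm_sub_le _ _) le_rfl)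
    _ ≤ C + ‖a‖ * C + ‖b‖ * C := add_le_add (add_le_add (hv 2)
        (mul_le_mul_of_nonneg_left (hv 1) (norm_nonneg _)))
        (mul_le_mul_of_nonneg_left (hv 0) (norm_nonneg _))
    _ = _ := by ring

/-- LEAF BD -/
theorem Axf_bound (hp : 3 ≤ p) {α β : Fin p → ℂ} (hG : Gp α β) {N m c d κ : ℕ} {f : TT p}
    (hD : Up wD N f) (hJ : Up wJ m f) {A : MvPolynomial (Fin 2) ℂ} (hA : A.totalDegree ≤ d)
    (hκ : c * p = N + 2 * m + 5 * c + 3 * c * d + κ) :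
    ∃ C0 : ℝ, 1 ≤ C0 ∧ ∀ (u : ℂ → Fin 3 → ℂ) (z : ℂ) (ε K : ℝ), 0 < ε → ε ≤ 1 → 1 ≤ K →
      (∀ w ∈ closedBall z ε, ∀ j, AnalyticAt ℂ (fun w => u w j) w) → Calm (UL α β u) z ε K →
      ‖Axf N m c d α β f A u z‖ * sup (UL α β u) z ^ κ ≤
        C0 * (K / ε) ^ (m + 3 * c) * ∏ i, ‖UL α β u i z‖ ^ cl1 c i := by
  obtain ⟨C, hC, HC⟩ := block3 hp hG
  have hC0 : 0 ≤ C := by linarith
  set E0 : ℝ := ∏ i : Fin p, (C * (1 + ‖α i‖ + ‖β i‖)) with hE0
  have hE0n : 0 ≤ E0 := Finset.prod_nonneg fun i _ => by positivity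
  obtain ⟨a, ha, Ha⟩ := Fx_bound (N := N) α β hJ (C1 := C) (C2 := 2 * C ^ 2) (C3 := C * E0) hC0
    (by positivity) (by positivity)
  obtain ⟨b, hb, Hb⟩ := hA_bound d A hC0
  have ha0 : 0 ≤ a := by linarith
  have hb0 : 0 ≤ b := by linarith
  refine ⟨a * C ^ c * C ^ (2 * c) * b ^ (3 * c), ?_, ?_⟩
  · have q1 : 1 ≤ C ^ c := one_le_pow₀ hC
    have q2 : 1 ≤ C ^ (2 * c) := one_le_pow₀ hC
    have q3 : 1 ≤ b ^ (3 * c) := one_le_pow₀ hb
    exact one_le_mul_of_one_le_of_one_le (one_le_mul_of_one_le_of_one_le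
      (one_le_mul_of_one_le_of_one_le ha q1) q2) q3
  intro u z ε K hε hε1 hK hu hcalm
  obtain ⟨lam, hlan, hlsup, hlne, hvan, hvC, hvd, hW⟩ := HC u z ε K hε hε1 hK hu hcalm
  have hKε : 1 ≤ K / ε := by rw [le_div_iff₀ hε]; linarith
  have hKε0 : 0 ≤ K / ε := by linarith
  obtain ⟨s0, s1, s2, s3⟩ := scale3_at hlan hlne hvan
  obtain ⟨v, hv⟩ : ∃ v : ℂ → Fin 3 → ℂ, v = vt u lam := ⟨_, rfl⟩
  rw [← hv] at hvC hW s1 s2 s3
  have hvd' : ∀ j, ‖deriv (fun w => v w j) z‖ ≤ C * (K / ε) := by rw [hv]; exact hvd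
  have s0' : ∀ j, u z j = lam z * v z j := by rw [hv]; exact s0
  -- the bounds of the minors
  have hpair : ∀ i j : Fin 3, ‖v z i * deriv (fun w => v w j) z‖ ≤ C ^ 2 * (K / ε) := by
    intro i j
    rw [norm_mul]
    calc ‖v z i‖ * ‖deriv (fun w => v w j) z‖ ≤ C * (C * (K / ε)) :=
          mul_le_mul (hvC i) (hvd' j) (norm_nonneg _) hC0
      _ = _ := by ring
  have hw1 : ‖w1f v z‖ ≤ 2 * C ^ 2 * (K / ε) := by
    unfold w1f
    refine (norm_sub_le _ _).trans ?_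
    linarith [hpair 0 1, hpair 1 0]
  have hw2 : ‖w2f v z‖ ≤ 2 * C ^ 2 * (K / ε) := by
    unfold w2f
    refine (norm_sub_le _ _).trans ?_
    linarith [hpair 0 2, hpair 2 0]
  set Q : ℝ := ∏ i, ‖eh (α i) (β i) (v z)‖ with hQ
  have hQ0 : 0 ≤ Q := Finset.prod_nonneg fun i _ => norm_nonneg _
  have hQE : Q ≤ E0 := Finset.prod_le_prod (fun i _ => norm_nonneg _) fun i _ => eh_norm_le _ _ hvC
  have hW' : ‖W3 v z‖ ≤ C * E0 * (K / ε) ^ 3 := by
    refine hW.trans ?_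
    calc C * (K / ε) ^ 3 * Q ≤ C * (K / ε) ^ 3 * E0 := mul_le_mul_of_nonneg_left hQE (by positivity)
      _ = _ := by ring
  have hF := Ha (v z) (w1f v z) (w2f v z) (W3 v z) (K / ε) hKε hvC hw1 hw2 hW'
  have hAb := Hb (v z) hvC
  -- the form of the normalised vector
  have hAx : ‖Ax N m c d α β f A (v z) (w1f v z) (w2f v z) (W3 v z)‖ ≤
      (a * C ^ c * C ^ (2 * c) * b ^ (3 * c)) * (K / ε) ^ (m + 3 * c) * Q ^ c := by
    unfold Ax
    rw [norm_mul, norm_mul, norm_mul, norm_pow, norm_pow, norm_pow]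
    have b1 := pow_le_pow_left₀ (norm_nonneg _) hW c
    have b2 := pow_le_pow_left₀ (norm_nonneg _) (hvC 0) (2 * c)
    have b3 := pow_le_pow_left₀ (norm_nonneg _) hAb (3 * c)
    calc _ ≤ (a * (K / ε) ^ m) * (C * (K / ε) ^ 3 * Q) ^ c * C ^ (2 * c) * b ^ (3 * c) := by
          refine mul_le_mul (mul_le_mul (mul_le_mul hF b1 (by positivity) (by positivity)) b2
            (by positivity) (by positivity)) b3 (by positivity) (by positivity)
      _ = _ := by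
          simp only [mul_pow, pow_add, ← pow_mul]
          ring
  have hscale : Axf N m c d α β f A u z = lam z ^ (N + 2 * m + 5 * c + 3 * c * d) *
      Ax N m c d α β f A (v z) (w1f v z) (w2f v z) (W3 v z) := by
    unfold Axf
    exact Ax_scale hD hJ hA s0' s1 s2 s3
  rw [hscale, norm_mul, norm_pow, ← hlsup]
  have hprod : ∏ i, ‖UL α β u i z‖ ^ cl1 c i = ‖lam z‖ ^ (c * p) * Q ^ c := by
    rw [Fin.prod_univ_succ, cl1_zero, pow_zero, one_mul]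
    have h1 : ∀ i : Fin p, ‖UL α β u i.succ z‖ ^ cl1 c i.succ =
        ‖lam z‖ ^ c * ‖eh (α i) (β i) (v z)‖ ^ c := by
      intro i
      rw [cl1_succ]
      unfold UL
      rw [eL_succ, eh_smul _ _ _ s0', norm_mul, mul_pow]
    rw [Finset.prod_congr rfl fun i _ => h1 i, Finset.prod_mul_distrib, Finset.prod_const,
      Finset.card_univ, Fintype.card_fin, ← pow_mul, hQ, Finset.prod_pow]
  rw [hprod, hκ]
  have hl0 : 0 ≤ ‖lam z‖ := norm_nonneg _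
  calc ‖lam z‖ ^ (N + 2 * m + 5 * c + 3 * c * d) *
        ‖Ax N m c d α β f A (v z) (w1f v z) (w2f v z) (W3 v z)‖ * ‖lam z‖ ^ κ
      ≤ ‖lam z‖ ^ (N + 2 * m + 5 * c + 3 * c * d) *
        ((a * C ^ c * C ^ (2 * c) * b ^ (3 * c)) * (K / ε) ^ (m + 3 * c) * Q ^ c) * ‖lam z‖ ^ κ :=
        mul_le_mul_of_nonneg_right (mul_le_mul_of_nonneg_left hAx (by positivity)) (by positivity)
    _ = _ := by rw [pow_add ‖lam z‖ _ κ]; ring

end Pool.Agent.K9h12.LN
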