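import Pool.Agent.K9h12.LN.Inf
import Pool.Agent.K9h12.LN.Bd
import Pool.Agent.K9h12.SH.An

/-!
Meromorphic functions near infinity without simple contacts with general lines: the main case.
-/

set_option autoImplicit false

open FF Filter Metric Set Topology

namespace Pool.Agent.K9h12.LN

open Pool.Agent.W603.LV Pool.Agent.W602.GT Pool.Agent.W603.BP Pool.Agent.W601.PH
  Pool.Agent.W602.NC Pool.Agent.TH152.HY Pool.Agent.Y190.AN Pool.Agent.K9h12.AX
  Pool.Agent.K9h12.SH Pool.Agent.K9h12.SG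

variable {p : ℕ}

section classes

variable {D : Dm} {u : ℂ → Fin 3 → ℂ} (hu : ∀ j, MeromorphicOn (fun z => u z j) D.U)

include hu in
theorem UL_mero (α β : Fin p → ℂ) (i : Fin (p + 1)) : MeromorphicOn (UL α β u i) D.U := by
  unfold UL
  refine Fin.cases ?_ (fun k => ?_) i
  · exact hu 0
  · exact fun z hz => ((hu 2 z hz).fun_sub
      ((MeromorphicAt.const _ z).fun_mul (hu 1 z hz))).fun_sub
      ((MeromorphicAt.const _ z).fun_mul (hu 0 z hz))

theorem cl_UL (α β : Fin p → ℂ) (i : Fin (p + 1)) (h : MeromorphicOn (UL α β u i) D.U) :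
    cl _ h = eL α β i (clw hu) := by
  revert h
  unfold UL
  refine Fin.cases ?_ (fun k => ?_) i
  · intro h; rfl
  · intro h
    have h1 : MeromorphicOn (fun z => algebraMap ℂ ℂ (α k) * u z 1) D.U := fun z hz =>
      (MeromorphicAt.const _ z).fun_mul (hu 1 z hz)
    have h0 : MeromorphicOn (fun z => algebraMap ℂ ℂ (β k) * u z 0) D.U := fun z hz =>
      (MeromorphicAt.const _ z).fun_mul (hu 0 z hz)
    have h2 : MeromorphicOn (fun z => u z 2 - algebraMap ℂ ℂ (α k) * u z 1) D.U := fun z hz =>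
      (hu 2 z hz).fun_sub (h1 z hz)
    have h3 := cl_fun_sub h2 h0 h
    rw [show cl (fun z => eL α β k.succ (u z)) h = _ from h3, cl_fun_sub (hu 2) h1,
      cl_fun_mul (MeromorphicOn.const _) (hu 1) h1, cl_fun_mul (MeromorphicOn.const _) (hu 0) h0,
      cl_fun_const, cl_fun_const]
    rfl

end classes

theorem UL_an {α β : Fin p → ℂ} {u : ℂ → Fin 3 → ℂ} {z : ℂ}
    (hu : ∀ j, AnalyticAt ℂ (fun w => u w j) z) (i : Fin (p + 1)) :
    AnalyticAt ℂ (UL α β u i) z := by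
  unfold UL
  refine Fin.cases ?_ (fun k => ?_) i
  · exact hu 0
  · exact ((hu 2).fun_sub (analyticAt_const.fun_mul (hu 1))).fun_sub
      (analyticAt_const.fun_mul (hu 0))

/-- a primitive vector of two functions -/
theorem prim_vec3 (x y : MK (exD 1 one_pos)) : ∃ (r : ℝ) (_ : 1 < r) (u : ℂ → Fin 3 → ℂ)
    (hu : ∀ j, MeromorphicOn (fun z => u z j) (exD 1 one_pos).U),
    (∀ z ∈ Ext r, ∀ j, AnalyticAt ℂ (fun z => u z j) z) ∧ (∀ z ∈ Ext r, u z ≠ 0) ∧
    clw hu 0 ≠ 0 ∧ clw hu 1 = clw hu 0 * x ∧ clw hu 2 = clw hu 0 * y := by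
  obtain ⟨r, hr, s, G, hG, hs, h1, h2, h3⟩ := primitive one_pos (d := 2) ![1, x, y] (by
    intro h
    have := congrFun h 0
    simp at this)
  have e0 : (1 : MK (exD 1 one_pos)) = s * cl (fun z => G z 0) (hG 0) := h3 0
  have e1 : x = s * cl (fun z => G z 1) (hG 1) := h3 1
  have e2 : y = s * cl (fun z => G z 2) (hG 2) := h3 2
  have h0 : clw hG 0 ≠ 0 := by
    intro h
    unfold clw at h
    rw [h, mul_zero] at e0
    exact one_ne_zero e0
  refine ⟨r, hr, G, hG, h1, h2, h0, ?_, ?_⟩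
  · apply mul_left_cancel₀ hs
    have e3 : s * (clw hG 0 * x) = (s * clw hG 0) * x := by ring
    rw [e3]
    unfold clw
    rw [← e0, ← e1, one_mul]
  · apply mul_left_cancel₀ hs
    have e3 : s * (clw hG 0 * y) = (s * clw hG 0) * y := by ring
    rw [e3]
    unfold clw
    rw [← e0, ← e2, one_mul]

/-- orders of a primitive vector -/
theorem prim_at3 {r : ℝ} {u : ℂ → Fin 3 → ℂ}
    {hu : ∀ j, MeromorphicOn (fun z => u z j) (exD 1 one_pos).U}
    (h1 : ∀ z ∈ Ext r, ∀ j, AnalyticAt ℂ (fun z => u z j) z) (h2 : ∀ z ∈ Ext r, u z ≠ 0)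
    {z : ℂ} (hz : z ∈ Ext r) (hz' : z ∈ (exD 1 one_pos).U) :
    (∀ j, Ge (PL hz') 0 (clw hu j)) ∧
      ∃ j, clw hu j ≠ 0 ∧ (PL hz').ord (clw hu j) = 0 := by
  refine ⟨fun j => ge_cl hz' (h1 z hz j), ?_⟩
  obtain ⟨j, hj⟩ := Function.ne_iff.1 (h2 z hz)
  refine ⟨j, ?_, ?_⟩
  · intro h0
    have h3 : ∀ᶠ w in 𝓝[≠] z, u w j = 0 := (cl_eq_zero (hf := hu j)).1 h0 z hz'
    have h4 : Tendsto (fun w => u w j) (𝓝[≠] z) (𝓝 (u z j)) :=
      (h1 z hz j).continuousAt.tendsto.mono_left nhdsWithin_le_nhds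
    have h5 : Tendsto (fun w => u w j) (𝓝[≠] z) (𝓝 0) :=
      tendsto_const_nhds.congr' (h3.mono fun w hw => hw.symm)
    exact hj (tendsto_nhds_unique h4 h5)
  · have h4 : analyticOrderAt (fun z => u z j) z = ((0 : ℕ) : ℕ∞) := by
      rw [Nat.cast_zero, (h1 z hz j).analyticOrderAt_eq_zero]
      exact hj
    have := ord_cl (hg := hu j) hz' (h1 z hz j) h4
    exact_mod_cast this

/-- quotients which are meromorphic at infinity -/
theorem minf_el {u : ℂ → Fin 3 → ℂ}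
    {hu : ∀ j, MeromorphicOn (fun z => u z j) (exD 1 one_pos).U} {x y : MK (exD 1 one_pos)}
    (h0 : clw hu 0 ≠ 0) (hx : clw hu 1 = clw hu 0 * x) (hy : clw hu 2 = clw hu 0 * y)
    {α β : Fin p → ℂ} (k : Fin p) {R : ℂ → ℂ}
    (hR : MeromorphicAt (fun w => R w⁻¹) 0) {R0 : ℝ}
    (h : ∀ z, R0 < ‖z‖ → UL α β u k.succ z = R z * UL α β u 0 z) :
    el (α k) (β k) x y ∈ Minf 1 one_pos := by
  have hk := UL_mero hu α β k.succ
  have hq : MeromorphicOn (fun z => UL α β u k.succ z / u z 0) (exD 1 one_pos).U := fun z hz =>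
    (hk z hz).fun_div (hu 0 z hz)
  have h1 : el (α k) (β k) x y = cl _ hq := by
    have h2 : cl (fun z => UL α β u k.succ z / u z 0) hq
        = eh (α k) (β k) (clw hu) / clw hu 0 := by
      have h3 : cl (UL α β u k.succ) hk = eh (α k) (β k) (clw hu) := by
        rw [cl_UL hu, eL_succ]
      rw [← h3]
      unfold clw
      rw [cl_div]
      rfl
    rw [h2, eh_eq hx hy, mul_div_cancel_left₀ _ h0]
  rw [h1]
  refine mem_of_large (R := R) (R0 := max R0 1) hR ?_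
  intro z hz
  have hz1 : z ∈ (exD 1 one_pos).U := lt_of_le_of_lt (le_max_right _ _) hz
  have hop : ∀ᶠ t in 𝓝[≠] z, max R0 1 < ‖t‖ :=
    nhdsWithin_le_nhds (continuous_norm.continuousAt.eventually (lt_mem_nhds hz))
  filter_upwards [hop, ev_ne h0 hz1] with t ht t0
  have h2 := h t (lt_of_le_of_lt (le_max_left _ _) ht)
  have h3 : UL α β u 0 t = u t 0 := rfl
  rw [h2, h3, mul_div_cancel_right₀ _ t0]

/-- **The main case.** -/
theorem an_main (hp : 3 ≤ p) {α β : Fin p → ℂ} (hG : Gp α β) {N m d κ : ℕ} (hm : 54 ≤ m)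
    {f : TT p} (hf : Fam N m f) {A : MvPolynomial (Fin 2) ℂ} (hd : A.totalDegree ≤ d)
    (hκ : 6 * p = N + 2 * m + 5 * 6 + 3 * 6 * d + κ) (hκ0 : 0 < κ) {x y : MK (exD 1 one_pos)}
    (hl : ∀ i, el (α i) (β i) x y ≠ 0) (hF : F1 N m α β f (MDer (exD 1 one_pos)) x y ≠ 0)
    (hW : SH.W (MDer (exD 1 one_pos)) x y ≠ 0) (hA : MvPolynomial.aeval ![x, y] A ≠ 0)
    (hst : ∀ (z : ℂ) (hz : z ∈ (exD 1 one_pos).U), Ctc α β A (PL hz) x y) :
    x ∈ Minf 1 one_pos ∧ y ∈ Minf 1 one_pos := by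
  obtain ⟨r, hr0, u, hu, hu1, hu2, hu0, hux, huy⟩ := prim_vec3 x y
  have hE0 : Ext r ⊆ (exD 1 one_pos).U := Ext_mono hr0.le
  have hloc : ∀ z (hz : z ∈ Ext r),
      AxA N m 6 d α β f A (MDer (exD 1 one_pos)) (clw hu) ≠ 0 ∧
      6 * ∑ i, (PL (hE0 hz)).ord (eh (α i) (β i) (clw hu)) ≤
        (PL (hE0 hz)).ord (AxA N m 6 d α β f A (MDer (exD 1 one_pos)) (clw hu)) := by
    intro z hz
    obtain ⟨p1, p2⟩ := prim_at3 (hu := hu) hu1 hu2 hz (hE0 hz)
    obtain ⟨n1, -, n3⟩ := loc_ax (nice_PL (hE0 hz)) hG hm hf hd hu0 hux huy p1 p2 hl hF hW hA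
    exact ⟨n1, n3 (hst z (hE0 hz))⟩
  obtain ⟨z1, hz1⟩ := Ext_nonempty r
  have hAux0 := (hloc z1 hz1).1
  obtain ⟨C0, hC1, hC⟩ := Axf_bound (c := 6) hp hG hf.dg hf.jt hd hκ
  obtain ⟨hPm, hPc⟩ := Axf_cl N m 6 d α β f A hu
  have hpos : 0 < r := by linarith
  have hUn : ∀ i, eL α β i (clw hu) ≠ 0 := by
    intro i
    refine Fin.cases hu0 (fun k => ?_) i
    rw [eL_succ, eh_eq hux huy]
    exact mul_ne_zero hu0 (hl k)
  have hUc : ∀ i, cl _ (UL_mero hu α β i) ≠ 0 := fun i => by rw [cl_UL hu]; exact hUn i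
  have hmain := abstract_ext (r0 := r) hpos (cl1 6) (κ := κ) (Nn := m + 3 * 6) hκ0 hC1
    (U := UL α β u) (fun i z hz => UL_an (hu1 z hz) i)
    (fun i => exists_ne (hUc i) (Ext_open r) hE0 ⟨z1, hz1⟩)
    (P := Axf N m 6 d α β f A u)
    (fun z hz => Axf_an N m 6 d α β f A (hu1 z hz))
    (exists_ne (hf := hPm) (by rw [hPc]; exact hAux0) (Ext_open r) hE0 ⟨z1, hz1⟩) ?_ ?_
  · have hel : ∀ k : Fin p, el (α k) (β k) x y ∈ Minf 1 one_pos := by
      intro k
      obtain ⟨R, hR, R0, hR0⟩ := hmain k.succ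
      exact minf_el hu0 hux huy k hR hR0
    let i0 : Fin p := ⟨0, by omega⟩
    let i1 : Fin p := ⟨1, by omega⟩
    have hne : α i0 - α i1 ≠ 0 := by
      rw [sub_ne_zero]
      intro h
      have := hG.inj h
      simp [i0, i1] at this
    have hx : x ∈ Minf 1 one_pos := by
      have h1 : algebraMap ℂ (MK (exD 1 one_pos)) (α i0 - α i1)⁻¹ *
          (el (α i1) (β i1) x y - el (α i0) (β i0) x y +
            algebraMap ℂ (MK (exD 1 one_pos)) (β i1 - β i0)) = x := by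
        have h2 : algebraMap ℂ (MK (exD 1 one_pos)) (α i0 - α i1) ≠ 0 := by
          rwa [Ne, map_eq_zero]
        rw [map_inv₀, inv_mul_eq_iff_eq_mul₀ h2]
        unfold el
        rw [map_sub, map_sub]
        ring
      rw [← h1]
      exact mul_mem (IntermediateField.algebraMap_mem _ _) (add_mem (sub_mem (hel i1) (hel i0))
        (IntermediateField.algebraMap_mem _ _))
    refine ⟨hx, ?_⟩
    have h1 : y = el (α i0) (β i0) x y + algebraMap ℂ (MK (exD 1 one_pos)) (α i0) * x +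
        algebraMap ℂ (MK (exD 1 one_pos)) (β i0) := by
      unfold el
      ring
    rw [h1]
    exact add_mem (add_mem (hel i0) (mul_mem (IntermediateField.algebraMap_mem _ _) hx))
      (IntermediateField.algebraMap_mem _ _)
  · intro z hz a ha
    apply le_order (hf := hPm) (hE0 hz) (Axf_an N m 6 d α β f A (hu1 z hz))
    rw [hPc]
    refine le_trans (le_of_eq ?_) (hloc z hz).2
    have e1 : ∀ i : Fin p, (PL (hE0 hz)).ord (eh (α i) (β i) (clw hu)) = a i.succ := fun i => by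
      rw [← eL_succ, ← cl_UL hu α β i.succ (UL_mero hu α β i.succ)]
      exact ord_cl (hE0 hz) (UL_an (hu1 z hz) i.succ) (ha i.succ)
    simp only [e1]
    rw [Fin.sum_univ_succ, cl1_zero, zero_mul, zero_add, Finset.mul_sum]
    push_cast
    rfl
  · intro z ε B hε hε1 hB hball hcu
    exact hC u z ε B hε hε1 hB (fun w hw => hu1 w (hball hw)) hcu

end Pool.Agent.K9h12.LN
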