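import Pool.Agent.K9h12.LN.Inf

/-!
Curves: functions without simple contacts with general lines.
-/

set_option autoImplicit false

open FF

namespace Pool.Agent.K9h12.LN

open Pool.Agent.W603.LV Pool.Agent.W602.GT Pool.Agent.K9h12.SH Pool.Agent.W603.BP
  Pool.Agent.W601.PH

variable {p : ℕ} {L : Type} [Field L] [Algebra ℂ L]

theorem exists_prim3 (P : Place ℂ L) (x y : L) : ∃ u : Fin 3 → L, u 0 ≠ 0 ∧ u 1 = u 0 * x ∧
    u 2 = u 0 * y ∧ (∀ j, Ge P 0 (u j)) ∧ ∃ j, u j ≠ 0 ∧ P.ord (u j) = 0 := by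
  have key : ∀ t : L, t ≠ 0 → P.ord t < 0 → Ge P (P.ord t) x → Ge P (P.ord t) y →
      (∀ j, Ge P 0 ((![t⁻¹, t⁻¹ * x, t⁻¹ * y] : Fin 3 → L) j)) := by
    intro t ht h0 hx hy j
    have h1 : Ge P (-P.ord t) t⁻¹ := Or.inr (P.ord_inv t).ge
    fin_cases j
    · exact h1.mono (by omega)
    · exact (h1.mul hx).mono (by omega)
    · exact (h1.mul hy).mono (by omega)
  by_cases ha : Ge P 0 x ∧ Ge P 0 y
  · refine ⟨![1, x, y], one_ne_zero, by simp, by simp, ?_, 0, one_ne_zero, P.ord_one⟩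
    intro j
    fin_cases j
    · exact Ge.one
    · exact ha.1
    · exact ha.2
  · by_cases hb : ¬ Ge P 0 x ∧ Ge P (P.ord x) y
    · obtain ⟨h1, h2⟩ := hb
      have hx0 : x ≠ 0 := fun h => h1 (Or.inl h)
      have h3 : P.ord x < 0 := by
        by_contra h
        exact h1 (Or.inr (by omega))
      refine ⟨![x⁻¹, x⁻¹ * x, x⁻¹ * y], inv_ne_zero hx0, by simp, by simp,
        key x hx0 h3 (Or.inr le_rfl) h2, 1, ?_, ?_⟩
      · change x⁻¹ * x ≠ 0
        rw [inv_mul_cancel₀ hx0]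
        exact one_ne_zero
      · change P.ord (x⁻¹ * x) = 0
        rw [inv_mul_cancel₀ hx0]
        exact P.ord_one
    · have hc : ¬ Ge P 0 y ∧ Ge P (P.ord y) x := by
        by_cases hx : Ge P 0 x
        · have hy : ¬ Ge P 0 y := fun h => ha ⟨hx, h⟩
          refine ⟨hy, hx.mono ?_⟩
          by_contra h
          exact hy (Or.inr (by omega))
        · have hy : ¬ Ge P (P.ord x) y := fun h => hb ⟨hx, h⟩
          have h3 : P.ord x < 0 := by
            by_contra h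
            exact hx (Or.inr (by omega))
          refine ⟨fun h => hy (h.mono (by omega)), Or.inr ?_⟩
          by_contra h
          exact hy (Or.inr (by omega))
      obtain ⟨h1, h2⟩ := hc
      have hy0 : y ≠ 0 := fun h => h1 (Or.inl h)
      have h3 : P.ord y < 0 := by
        by_contra h
        exact h1 (Or.inr (by omega))
      refine ⟨![y⁻¹, y⁻¹ * x, y⁻¹ * y], inv_ne_zero hy0, by simp, by simp,
        key y hy0 h3 h2 (Or.inr le_rfl), 2, ?_, ?_⟩
      · change y⁻¹ * y ≠ 0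
        rw [inv_mul_cancel₀ hy0]
        exact one_ne_zero
      · change P.ord (y⁻¹ * y) = 0
        rw [inv_mul_cancel₀ hy0]
        exact P.ord_one

theorem F1_smul {N m : ℕ} {α β : Fin p → ℂ} {f : TT p} (hJ : Up wJ m f) (c : L)
    (D : Derivation ℂ L L) (x y : L) :
    F1 N m α β f (c • D) x y = c ^ m * F1 N m α β f D x y := by
  unfold F1 Fx
  rw [Finset.mul_sum, W_smul]
  refine Finset.sum_congr rfl fun μ hμ => ?_
  have e2 := hJ μ hμ
  rw [← wJ_nonneg] at e2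
  obtain ⟨k, hk⟩ : ∃ k, k = μ (Sum.inl 2) := ⟨_, rfl⟩
  obtain ⟨l, hl⟩ : ∃ l, l = μ (Sum.inl 3) := ⟨_, rfl⟩
  rw [← hk, ← hl] at e2
  rw [← hk, ← hl]
  obtain ⟨j, hj⟩ : ∃ j, m = k + 3 * l + j := ⟨m - (k + 3 * l), by omega⟩
  rw [show m - k - 3 * l = j by omega, hj]
  simp only [Derivation.smul_apply, smul_eq_mul, mul_pow, pow_add, pow_mul]
  ring

/-- the order of the forms on curves -/
theorem ord_form {P : Place ℂ L} {D : Derivation ℂ L L} (h : Nice P D) {α β : Fin p → ℂ}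
    (hG : Gp α β) {N m d κ : ℕ} (hm : 54 ≤ m) {f : TT p} (hf : Fam N m f)
    {A : MvPolynomial (Fin 2) ℂ} (hd : A.totalDegree ≤ d)
    (hκ : 6 * p = N + 2 * m + 5 * 6 + 3 * 6 * d + κ) (hκ0 : 0 < κ) {x y : L} (hx0 : x ≠ 0)
    (hl : ∀ i, el (α i) (β i) x y ≠ 0) (hF : F1 N m α β f D x y ≠ 0) (hW : SH.W D x y ≠ 0)
    (hA : MvPolynomial.aeval ![x, y] A ≠ 0) {j : ℕ} (hj : j ≤ 1) :
    Ge P (-6) (F1 N m α β f D x y * SH.W D x y ^ 6 * MvPolynomial.aeval ![x, y] A ^ (3 * 6) /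
      (∏ i, el (α i) (β i) x y) ^ 6 * x ^ j) ∧
    (Ctc α β A P x y → Ge P 0 (F1 N m α β f D x y * SH.W D x y ^ 6 *
      MvPolynomial.aeval ![x, y] A ^ (3 * 6) / (∏ i, el (α i) (β i) x y) ^ 6 * x ^ j)) := by
  obtain ⟨u, hu0, hux, huy, hu, hprim⟩ := exists_prim3 P x y
  obtain ⟨n1, n2, n3⟩ := loc_ax h hG hm hf hd hu0 hux huy hu hprim hl hF hW hA
  rw [AxA_eq hf.dg hf.jt hd D hux huy] at n1 n2 n3
  set T := F1 N m α β f D x y * SH.W D x y ^ 6 * MvPolynomial.aeval ![x, y] A ^ (3 * 6) with hT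
  have hT0 : T ≠ 0 := right_ne_zero_of_mul n1
  have hpr : ∏ i, el (α i) (β i) x y ≠ 0 := Finset.prod_ne_zero_iff.2 fun i _ => hl i
  have ordp : ∀ s : Finset (Fin p), P.ord (∏ i ∈ s, el (α i) (β i) x y) =
      ∑ i ∈ s, P.ord (el (α i) (β i) x y) := by
    intro s
    classical
    induction s using Finset.induction_on with
    | empty =>
      rw [Finset.prod_empty, Finset.sum_empty]
      exact P.ord_one
    | insert i s hi ih =>
      rw [Finset.prod_insert hi, Finset.sum_insert hi, P.ord_mul (hl i)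
        (Finset.prod_ne_zero_iff.2 fun j _ => hl j), ih]
  have o1 : ∑ i, P.ord (eh (α i) (β i) u) = p * P.ord (u 0) +
      ∑ i, P.ord (el (α i) (β i) x y) := by
    have h1 : ∀ i, P.ord (eh (α i) (β i) u) = P.ord (u 0) + P.ord (el (α i) (β i) x y) :=
      fun i => by rw [eh_eq hux huy, P.ord_mul hu0 (hl i)]
    simp only [h1, Finset.sum_add_distrib, Finset.sum_const, Finset.card_univ, Fintype.card_fin,
      nsmul_eq_mul]
  have o2 : P.ord (T / (∏ i, el (α i) (β i) x y) ^ 6 * x ^ j) =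
      P.ord T - 6 * ∑ i, P.ord (el (α i) (β i) x y) + j * P.ord x := by
    rw [P.ord_mul (div_ne_zero hT0 (pow_ne_zero _ hpr)) (pow_ne_zero _ hx0),
      P.ord_div hT0 (pow_ne_zero _ hpr), P.ord_pow, P.ord_pow, ordp]
    push_cast
    ring
  rw [P.ord_mul (pow_ne_zero _ hu0) hT0, P.ord_pow, o1] at n2 n3
  have hs : 0 ≤ P.ord (u 0) := (hu 0).resolve_left hu0
  have hx1 : -P.ord (u 0) ≤ P.ord x := by
    have h1 := (hu 1).resolve_left (by rw [hux]; exact mul_ne_zero hu0 hx0)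
    rw [hux, P.ord_mul hu0 hx0] at h1
    omega
  have hpos : 0 ≤ κ * P.ord (u 0) + j * P.ord x := by
    have r2 : (j : ℤ) ≤ κ := by exact_mod_cast (by omega : j ≤ κ)
    have r3 : 0 ≤ ((κ : ℤ) - j) * P.ord (u 0) := mul_nonneg (by linarith) hs
    have r4 : 0 ≤ (j : ℤ) * (P.ord x + P.ord (u 0)) :=
      mul_nonneg (Int.natCast_nonneg _) (by linarith)
    nlinarith
  have k1 : 6 * ((p : ℤ) * P.ord (u 0)) =
      ((N + 2 * m + 5 * 6 + 3 * 6 * d : ℕ) : ℤ) * P.ord (u 0) + κ * P.ord (u 0) := by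
    have k2 : (6 : ℤ) * p = ((N + 2 * m + 5 * 6 + 3 * 6 * d : ℕ) : ℤ) + κ := by
      exact_mod_cast hκ
    rw [← add_mul, ← k2]
    ring
  refine ⟨Or.inr ?_, fun hst => Or.inr ?_⟩
  · rw [o2]
    linarith
  · rw [o2]
    have := n3 hst
    linarith

/-- **Curves.** -/
theorem cur_main [IsFF ℂ L] {α β : Fin p → ℂ} (hG : Gp α β)
    {N m d κ : ℕ} (hm : 54 ≤ m) {f : TT p} (hf : Fam N m f) {A : MvPolynomial (Fin 2) ℂ}
    (hd : A.totalDegree ≤ d) (hκ : 6 * p = N + 2 * m + 5 * 6 + 3 * 6 * d + κ) (hκ0 : 0 < κ)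
    {x y : L} {D0 : Derivation ℂ L L} (hx : D0 x ≠ 0) (hl : ∀ i, el (α i) (β i) x y ≠ 0)
    (hF : F1 N m α β f D0 x y ≠ 0) (hW : SH.W D0 x y ≠ 0)
    (hA : MvPolynomial.aeval ![x, y] A ≠ 0) {Bd : Place ℂ L → Prop}
    (hst : ∀ P, ¬ Bd P → Ctc α β A P x y) : LogGeneralType ℂ L 1 Bd := by
  have tx := trans_of_der hx
  have hcx := const_of_eq hx
  have hx0 : x ≠ 0 := fun h0 => hcx 0 (by rw [h0, map_zero])
  have hpr : ∏ i, el (α i) (β i) x y ≠ 0 := Finset.prod_ne_zero_iff.2 fun i _ => hl i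
  have hne : ∀ {P : Place ℂ L} {D : Derivation ℂ L L}, Nice P D →
      F1 N m α β f D x y ≠ 0 ∧ SH.W D x y ≠ 0 := by
    intro P D hD
    have hDne := hD.ne_zero
    -- derivations of a function field of one variable are proportional
    obtain ⟨g, hg⟩ : ∃ g : L, D0 = g • D := by
      refine ⟨D0 x / D x, ?_⟩
      have hDx : D x ≠ 0 := der_ne_zero hDne tx
      have h1 : D0 - (D0 x / D x) • D = 0 := by
        by_contra hne
        refine der_ne_zero hne tx ?_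
        simp only [Derivation.sub_apply, Derivation.smul_apply, smul_eq_mul]
        field_simp
        ring
      exact sub_eq_zero.1 h1
    refine ⟨fun h0 => hF ?_, fun h0 => hW ?_⟩
    · rw [hg, F1_smul hf.jt, h0, mul_zero]
    · rw [hg, W_smul, h0, mul_zero]
  refine curve_lgt Bd (N := m + 18) (by omega)
    (fun j D => F1 N m α β f D x y * SH.W D x y ^ 6 * MvPolynomial.aeval ![x, y] A ^ (3 * 6) /
      (∏ i, el (α i) (β i) x y) ^ 6 * x ^ (j : ℕ)) (fun j a D => ?_) D0 ?_ tx ?_ ?_ ?_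
  · rw [F1_smul hf.jt, W_smul, mul_pow, ← pow_mul, pow_add]
    ring
  · exact mul_ne_zero (div_ne_zero (mul_ne_zero (mul_ne_zero hF (pow_ne_zero _ hW))
      (pow_ne_zero _ hA)) (pow_ne_zero _ hpr)) (pow_ne_zero _ hx0)
  · have h1 : F1 N m α β f D0 x y * SH.W D0 x y ^ 6 * MvPolynomial.aeval ![x, y] A ^ (3 * 6) /
        (∏ i, el (α i) (β i) x y) ^ 6 ≠ 0 :=
      div_ne_zero (mul_ne_zero (mul_ne_zero hF (pow_ne_zero _ hW))
        (pow_ne_zero _ hA)) (pow_ne_zero _ hpr)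
    rw [show ((1 : Fin 2) : ℕ) = 1 from rfl, show ((0 : Fin 2) : ℕ) = 0 from rfl, pow_one,
      pow_zero, mul_one, mul_div_cancel_left₀ _ h1]
  · intro P D hD j
    refine (ord_form hD hG hm hf hd hκ hκ0 hx0 hl (hne hD).1 (hne hD).2 hA (j := j)
      (by have := j.2; omega)).1.mono ?_
    push_cast
    linarith [Int.natCast_nonneg m]
  · intro P hP D hD j
    exact (ord_form hD hG hm hf hd hκ hκ0 hx0 hl (hne hD).1 (hne hD).2 hA (j := j)
      (by have := j.2; omega)).2 (hst P hP)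

end Pool.Agent.K9h12.LN
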