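import Pool.Agent.K9h12.SH.Han
import Pool.Agent.K9h12.SH.Cur
import Pool.Agent.K9h12.VG.High

/-!
General lines in the plane and functions without simple contacts with them: definitions.
-/

set_option autoImplicit false

open FF

namespace Pool.Agent.K9h12.LN

open Pool.Agent.W603.LV Pool.Agent.W602.GT Pool.Agent.Y190.AN Pool.Agent.W603.BP
  Pool.Agent.W601.PH

section

variable {R : Type} [CommRing R] [Algebra ℂ R]

/-- the equation of the line `y = a x + b` -/
def el (a b : ℂ) (x y : R) : R := y - algebraMap ℂ R a * x - algebraMap ℂ R b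

/-- the homogeneous equation of the line `y = a x + b` -/
def eh (a b : ℂ) (u : Fin 3 → R) : R := u 2 - algebraMap ℂ R a * u 1 - algebraMap ℂ R b * u 0

variable {p : ℕ}

/-- the line at infinity and the lines -/
def eL (α β : Fin p → ℂ) (i : Fin (p + 1)) (u : Fin 3 → R) : R :=
  Fin.cases (u 0) (fun i => eh (α i) (β i) u) i

theorem eL_zero (α β : Fin p → ℂ) (u : Fin 3 → R) : eL α β 0 u = u 0 := rfl

theorem eL_succ (α β : Fin p → ℂ) (i : Fin p) (u : Fin 3 → R) :
    eL α β i.succ u = eh (α i) (β i) u := rfl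

/-- the determinant of three vectors -/
def w3 (a b c : Fin 3 → R) : R := a 0 * (b 1 * c 2 - b 2 * c 1) - a 1 * (b 0 * c 2 - b 2 * c 0) +
  a 2 * (b 0 * c 1 - b 1 * c 0)

end

variable {p : ℕ}

/-- the lines `y = α i x + β i` have distinct slopes, and no three of them have a common point -/
structure Gp (α β : Fin p → ℂ) : Prop where
  inj : Function.Injective α
  three : ∀ i j k, i ≠ j → i ≠ k → j ≠ k →
    (β j - β i) * (α k - α i) ≠ (β k - β i) * (α j - α i)

/-- a germ of a curve does not meet the lines in a simple contact outside `A = 0` -/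
def Ctc (α β : Fin p → ℂ) (A : MvPolynomial (Fin 2) ℂ) {L : Type} [Field L] [Algebra ℂ L]
    (P : Place ℂ L) (x y : L) : Prop :=
  Ge P 0 x → Ge P 0 y → P.ord (MvPolynomial.aeval ![x, y] A) = 0 →
    ∑ i, P.ord (el (α i) (β i) x y) ≠ 1

/-- the common point of two lines -/
noncomputable def node (α β : Fin p → ℂ) (i j : Fin p) : ℂ × ℂ :=
  ((β j - β i) / (α i - α j), α i * ((β j - β i) / (α i - α j)) + β i)

/-- the line through two points -/
noncomputable def jn (s t : ℂ × ℂ) : MvPolynomial (Fin 2) ℂ :=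
  (MvPolynomial.X 0 - MvPolynomial.C s.1) * MvPolynomial.C (t.2 - s.2) -
    (MvPolynomial.X 1 - MvPolynomial.C s.2) * MvPolynomial.C (t.1 - s.1)

open Classical in
/-- the lines through two common points of the lines -/
noncomputable def JJ (α β : Fin p → ℂ) : MvPolynomial (Fin 2) ℂ :=
  ∏ q : (Fin p × Fin p) × (Fin p × Fin p),
    if node α β q.1.1 q.1.2 = node α β q.2.1 q.2.2 then 1
    else jn (node α β q.1.1 q.1.2) (node α β q.2.1 q.2.2)

/-- the functions along a map -/
def UL (α β : Fin p → ℂ) (u : ℂ → Fin 3 → ℂ) (i : Fin (p + 1)) (w : ℂ) : ℂ := eL α β i (u w)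

/-- the vector divided by a function -/
noncomputable def vt (u : ℂ → Fin 3 → ℂ) (lam : ℂ → ℂ) (w : ℂ) (j : Fin 3) : ℂ := u w j / lam w

/-- the Wronskian of a map -/
noncomputable def W3 (u : ℂ → Fin 3 → ℂ) (z : ℂ) : ℂ :=
  w3 (u z) (fun j => deriv (fun w => u w j) z) fun j => deriv (deriv fun w => u w j) z

end Pool.Agent.K9h12.LN
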