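import Pool.Agent.K9h12.LN.Sieg

/-!
Existence of forms with the conditions on the lines: the end of the proof.
-/

set_option autoImplicit false

open MvPolynomial

namespace Pool.Agent.K9h12.LN

variable {p : ℕ}

/-- the exponents determine the monomial -/
theorem ex_inj {a b c d a' b' c' d' : ℕ} (h : ex a b c d = ex a' b' c' d') :
    a = a' ∧ b = b' ∧ c = c' ∧ d = d' := by
  have h0 := congrArg (fun μ : Fin 4 →₀ ℕ => μ 0) h
  have h1 := congrArg (fun μ : Fin 4 →₀ ℕ => μ 1) h
  have h2 := congrArg (fun μ : Fin 4 →₀ ℕ => μ 2) h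
  have h3 := congrArg (fun μ : Fin 4 →₀ ℕ => μ 3) h
  exact ⟨h0, h1, h2, h3⟩

theorem monomial_ex (a b c d : ℕ) (r : Rp p) : monomial (ex a b c d) r =
    C r * (X 0 ^ a * X 1 ^ b * (X 2 ^ c * X 3 ^ d)) := by
  have e : ∀ k, (ex a b c d) k = ![a, b, c, d] k := fun k => rfl
  rw [monomial_eq, Finsupp.prod_fintype _ _ (fun i => pow_zero _), Fin.prod_univ_four, e, e, e, e]
  simp only [Matrix.cons_val_zero, Matrix.cons_val_one, Matrix.cons_val]
  ring

/-- the form does not vanish -/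
theorem Ph_ne {N M : ℕ} {f : Ix N M → Rp p} (hf : f ≠ 0) : Ph f ≠ 0 := by
  classical
  obtain ⟨q0, hq0⟩ := Function.ne_iff.1 hf
  intro h
  let ψ : TT p →ₐ[ℂ] R4 p := aeval (dv X (fun i => C (ar i)) fun i => C (br i))
  have hx : ∀ k, ψ (xv k) = X k := fun k => by
    simp only [ψ, xv]
    rw [aeval_X]
    rfl
  have hr : ∀ r : Rp p, ψ (ren bv r) = C r := by
    intro r
    have h1 : (ψ.comp (ren bv) : Rp p →ₐ[ℂ] R4 p) = (Algebra.ofId (Rp p) (R4 p)).restrictScalars ℂ := by
      ext v : 1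
      rw [AlgHom.comp_apply]
      rcases v with i | i
      · change ψ (ren bv (ar i)) = _
        rw [ren_a]
        simp only [ψ, av]
        rw [aeval_X]
        rfl
      · change ψ (ren bv (br i)) = _
        rw [ren_b]
        simp only [ψ, bv]
        rw [aeval_X]
        rfl
    exact congrArg (fun F : Rp p →ₐ[ℂ] R4 p => F r) h1
  have h1 := congrArg (fun F => coeff (ex q0.1.1.1 q0.1.1.2 q0.2.1.2 q0.2.1.1) (ψ F)) h
  rw [map_zero, coeff_zero] at h1
  unfold Ph at h1
  rw [map_sum, coeff_sum, Finset.sum_eq_single q0] at h1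
  · rw [map_mul, hr, map_mul, map_mul, map_mul, map_pow, map_pow, map_pow, map_pow, hx, hx, hx, hx,
      ← monomial_ex, coeff_monomial, if_pos rfl] at h1
    exact hq0 h1
  · intro q _ hq
    rw [map_mul, hr, map_mul, map_mul, map_mul, map_pow, map_pow, map_pow, map_pow, hx, hx, hx, hx,
      ← monomial_ex, coeff_monomial, if_neg]
    intro he
    obtain ⟨e0, e1, e2, e3⟩ := ex_inj he
    apply hq
    refine Prod.ext (Subtype.ext ?_) (Subtype.ext ?_)
    · exact Sigma.ext e0 (heq_of_eq e1)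
    · exact Sigma.ext e3 (heq_of_eq e2)
  · intro hq
    exact absurd (Finset.mem_univ _) hq

theorem up_ren {w : VV p → ℤ} (hw : Wt w) (r : Rp p) : Up w 0 (ren bv r) := by
  have h0 : Up (fun _ : Fin p ⊕ Fin p => (0 : ℤ)) 0 r := Up.nonpos (fun _ => le_rfl) r
  refine Up.subst (τ := (ren bv : Rp p →ₐ[ℂ] TT p).toRingHom) (fun r => ?_) (fun v => ?_) h0
  · have : (ren bv : Rp p →ₐ[ℂ] TT p).toRingHom (C r) = C r := (ren bv).commutes r
    rw [this]
    exact Up.const r
  · rcases v with i | i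
    · have : (ren bv : Rp p →ₐ[ℂ] TT p).toRingHom (X (Sum.inl i)) = av i := ren_a bv i
      rw [this]
      exact hw.av i
    · have : (ren bv : Rp p →ₐ[ℂ] TT p).toRingHom (X (Sum.inr i)) = bv i := ren_b bv i
      rw [this]
      exact hw.bv i

theorem Ph_dg {N M : ℕ} (f : Ix N M → Rp p) : Up wD N (Ph f) := by
  refine Up.sum _ fun q _ => ?_
  have hq := mem_tri.1 q.1.2
  have x0 : Up wD 1 (xv 0 : TT p) := up_x _ 0
  have x1 : Up wD 1 (xv 1 : TT p) := up_x _ 1
  have x2 : Up wD 0 (xv 2 : TT p) := up_x _ 2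
  have x3 : Up wD 0 (xv 3 : TT p) := up_x _ 3
  refine ((up_ren wt_D _).mul (((x0.pow _).mul (x1.pow _)).mul
    ((x2.pow _).mul (x3.pow _)))).mono ?_
  omega

theorem Ph_jt {N M : ℕ} (f : Ix N M → Rp p) : Up wJ (3 * M) (Ph f) := by
  refine Up.sum _ fun q _ => ?_
  have hq := mem_jt.1 q.2.2
  have x0 : Up wJ 0 (xv 0 : TT p) := up_x _ 0
  have x1 : Up wJ 0 (xv 1 : TT p) := up_x _ 1
  have x2 : Up wJ 1 (xv 2 : TT p) := up_x _ 2
  have x3 : Up wJ 3 (xv 3 : TT p) := up_x _ 3
  refine ((up_ren wt_J _).mul (((x0.pow _).mul (x1.pow _)).mul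
    ((x2.pow _).mul (x3.pow _)))).mono ?_
  omega

/-- weights zero -/
theorem weight_zero {w : VV p → ℤ} {f : TT p} (h1 : Up w 0 f) (h2 : Up (fun v => -w v) 0 f) :
    ∀ m ∈ f.support, Finsupp.weight w m = 0 := by
  intro m hm
  have e1 := h1 m hm
  have e2 := h2 m hm
  have e3 : Finsupp.weight (fun v => -w v) m = -Finsupp.weight w m := by
    rw [Finsupp.weight_apply, Finsupp.weight_apply, Finsupp.sum, Finsupp.sum,
      ← Finset.sum_neg_distrib]
    exact Finset.sum_congr rfl fun v _ => smul_neg _ _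
  rw [e3] at e2
  omega

theorem av_ne {i j : Fin p} (h : i ≠ j) : (av i - av j : TT p) ≠ 0 := by
  rw [sub_ne_zero]
  intro h1
  exact h (Sum.inl.inj (Sum.inr.inj (MvPolynomial.X_injective h1)))

/-- cancelling the denominator -/
theorem up_can {w : VV p → ℤ} (hw : Wt w) {i j : Fin p} (hij : i ≠ j) {N : ℕ} {C : ℤ} {g : TT p}
    (h : Up w C ((av i - av j) ^ N * g)) : Up w C g := by
  have hw' : Wt (fun v => -w v) := ⟨fun i => neg_eq_zero.2 (hw.a i), fun i => neg_eq_zero.2 (hw.b i)⟩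
  refine Up.cancel (weight_zero ?_ ?_) (pow_ne_zero N (av_ne hij)) h
  · exact (((hw.av i).sub (hw.av j)).pow N).mono (by simp)
  · exact (((hw'.av i).sub (hw'.av j)).pow N).mono (by simp)

theorem up_slot {w4 : Fin 4 → ℤ} {w : VV p → ℤ} (hle : ∀ v, w v ≤ 0)
    (h4 : ∀ k, w (Sum.inl k) ≤ w4 k) (f : Fin p → TT p) {C : ℤ} {g : R4 p} (hg : Up w4 C g) :
    Up w C (slot f g) := by
  refine Up.subst (τ := slot f) (fun r => Up.nonpos hle _) (fun k => ?_) hg
  rw [slot_X]
  exact (up_x w k).mono (h4 k)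

/-- the pairs of lines -/
theorem card_pairs (p : ℕ) : 2 * Fintype.card (Σ j : Fin p, Fin (j : ℕ)) + p = p * p := by
  rw [Fintype.card_sigma]
  simp only [Fintype.card_fin]
  rw [Fin.sum_univ_eq_sum_range (fun j => j) p]
  have h := Finset.sum_range_id_mul_two p
  cases p with
  | zero => rfl
  | succ n =>
    rw [Nat.add_sub_cancel] at h
    rw [mul_comm 2, h]
    ring

/-- **Existence of forms.** -/
theorem exists_fam (p N M : ℕ) (hcount : Fintype.card (Σ j : Fin p, Fin (j : ℕ)) * 30 *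
      (jt (M + 6)).card + (p * p * 111 * (M + 9) + p * 42 * (N + 1) * (M + 1)) <
      (tri N).card * (jt M).card) :
    ∃ f : TT p, f ≠ 0 ∧ Fam N (3 * M) f := by
  classical
  let A : (((Σ j : Fin p, Fin (j : ℕ)) × ↥E12) × ↥(jt (M + 6))) ⊕
      ((((Fin p × Fin p) × ↥E18) × Fin (M + 9)) ⊕ (((Fin p × ↥E42) × Fin (N + 1)) × Fin (M + 1))) →
      Ix N M → Rp p := fun e q => Sum.elim
    (fun e => coeff (ex e.1.2.1.1 e.1.2.1.2 e.2.1.2 e.2.1.1)
      (Ws N 0 (Fin.castLE e.1.1.1.2.le e.1.1.2) e.1.1.1 q.1.1.1 q.1.1.2 q.2.1.2 q.2.1.1))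
    (Sum.elim (fun e => coeff (ex e.1.2.1.1 e.1.2.1.2.1 e.1.2.1.2.2 e.2)
      (Ws N 1 e.1.1.1 e.1.1.2 q.1.1.1 q.1.1.2 q.2.1.2 q.2.1.1))
      fun e => coeff (ex e.1.2 e.1.1.2.1.1 e.1.1.2.1.2 e.2)
      (Wl e.1.1.1 q.1.1.1 q.1.1.2 q.2.1.2 q.2.1.1)) e
  obtain ⟨f, hf0, hf⟩ := lin_exists A (by
    simp only [Fintype.card_sum, Fintype.card_prod, Fintype.card_fin, Fintype.card_coe,
      card_E12, card_E18, card_E42]
    exact hcount)
  -- the conditions at the common points
  have n1 : ∀ i j : Fin p, i < j → Up ![-1, -3, 0, 0] (-12) (Gs 0 i j f) := by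
    intro i j hij μ hμ
    by_contra hcon
    rw [weight4] at hcon
    simp only [Matrix.cons_val_zero, Matrix.cons_val_one, Matrix.cons_val] at hcon
    have h1 := up_Gs i j f μ hμ
    rw [weight4] at h1
    simp only [Matrix.cons_val_zero, Matrix.cons_val_one, Matrix.cons_val] at h1
    have h2 : (μ 0, μ 1) ∈ E12 := by
      unfold E12
      simp only [Finset.mem_filter, Finset.mem_product, Finset.mem_range]
      omega
    have h3 : (⟨μ 3, μ 2⟩ : Σ _ : ℕ, ℕ) ∈ jt (M + 6) := by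
      rw [mem_jt]
      simp only
      omega
    have h4 := hf (Sum.inl ((⟨j, ⟨i, hij⟩⟩, ⟨_, h2⟩), ⟨_, h3⟩))
    rw [MvPolynomial.mem_support_iff, coeff_Gs] at hμ
    apply hμ
    rw [← h4]
    refine Finset.sum_congr rfl fun q _ => ?_
    simp only [A, Sum.elim_inl]
    rw [ex_eq]
    rfl
  have n2 : ∀ i j : Fin p, i ≠ j → Up ![-1, -3, 0, 0] (-12) (Gs 0 i j f) := by
    intro i j hij
    rcases lt_or_gt_of_ne hij with h | h
    · exact n1 i j h
    · rw [Gs_swap j i f]
      have h1 : Up ![-1, -3, 0, 0] 0 ((-1) ^ N : R4 p) := by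
        have : ((-1) ^ N : R4 p) = C ((-1) ^ N) := by rw [map_pow, map_neg, map_one]
        rw [this]
        exact Up.const _
      exact (h1.mul (n1 j i h)).mono (by omega)
  have t1 : ∀ i j : Fin p, i ≠ j → Up ![-1, -3, 0, 0] (-12) (Gs 1 i j f) := by
    intro i j hij
    rw [← shf_Gs]
    have hC : ∀ r : Rp p, shf i (C r) = C r := fun r => (shf i).commutes r
    have h2 := Up.subst (w := ![-1, -3, 0, 0]) (w' := ![-1, -3, 0, 0])
      (τ := (shf i : R4 p →ₐ[Rp p] R4 p).toRingHom) (fun r => by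
        have : (shf i : R4 p →ₐ[Rp p] R4 p).toRingHom (C r) = C r := hC r
        rw [this]
        exact Up.const r) (fun k => ?_) (n2 i j hij)
    · exact h2
    · have h3 : (shf i : R4 p →ₐ[Rp p] R4 p).toRingHom (X k) =
          (![X 0, X 1, X 2 + C (ar i), X 3] : Fin 4 → R4 p) k := by
        change shf i (X k) = _
        unfold shf
        rw [aeval_X]
      rw [h3]
      fin_cases k
      · exact Up.X 0
      · exact Up.X 1
      · exact (Up.X 2).add (Up.const _)
      · exact Up.X 3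
  have t2 : ∀ i j : Fin p, i ≠ j → Up ![-1, -3, -1, 0] (-18) (Gs 1 i j f) := by
    intro i j hij μ hμ
    by_contra hcon
    rw [weight4] at hcon
    simp only [Matrix.cons_val_zero, Matrix.cons_val_one, Matrix.cons_val] at hcon
    have h0 := t1 i j hij μ hμ
    rw [weight4] at h0
    simp only [Matrix.cons_val_zero, Matrix.cons_val_one, Matrix.cons_val] at h0
    have h1 := up_Gs i j f μ hμ
    rw [weight4] at h1
    simp only [Matrix.cons_val_zero, Matrix.cons_val_one, Matrix.cons_val] at h1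
    have h2 : (μ 0, μ 1, μ 2) ∈ E18 := by
      unfold E18
      simp only [Finset.mem_filter, Finset.mem_product, Finset.mem_range]
      omega
    have h4 := hf (Sum.inr (Sum.inl (((i, j), ⟨_, h2⟩), ⟨μ 3, by omega⟩)))
    rw [MvPolynomial.mem_support_iff, coeff_Gs] at hμ
    apply hμ
    rw [← h4]
    refine Finset.sum_congr rfl fun q _ => ?_
    simp only [A, Sum.elim_inl, Sum.elim_inr]
    rw [ex_eq]
  have l1 : ∀ i : Fin p, Up ![0, -2, -1, 0] (-12) (Gl i f) := by
    intro i μ hμ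
    by_contra hcon
    rw [weight4] at hcon
    simp only [Matrix.cons_val_zero, Matrix.cons_val_one, Matrix.cons_val] at hcon
    have h1 := up_Gl_a i f μ hμ
    rw [weight4] at h1
    simp only [Matrix.cons_val_zero, Matrix.cons_val_one, Matrix.cons_val] at h1
    have h0 := up_Gl_b i f μ hμ
    rw [weight4] at h0
    simp only [Matrix.cons_val_zero, Matrix.cons_val_one, Matrix.cons_val] at h0
    have h2 : (μ 1, μ 2) ∈ E42 := by
      unfold E42
      simp only [Finset.mem_filter, Finset.mem_product, Finset.mem_range]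
      omega
    have h4 := hf (Sum.inr (Sum.inr (((i, ⟨_, h2⟩), ⟨μ 0, by omega⟩), ⟨μ 3, by omega⟩)))
    rw [MvPolynomial.mem_support_iff, coeff_Gl] at hμ
    apply hμ
    rw [← h4]
    refine Finset.sum_congr rfl fun q _ => ?_
    simp only [A, Sum.elim_inr]
    rw [ex_eq]
  refine ⟨Ph f, Ph_ne hf0, ⟨Ph_dg f, by exact_mod_cast Ph_jt f, fun i j hij => ?_,
    fun i j hij => ?_, fun i => ?_⟩⟩
  · refine up_can (wt_S 0) hij (N := N) ?_
    rw [← slot_Gs hij]
    exact up_slot (wS_le 0) (fun k => by fin_cases k <;> simp [wS, dv]) _ (n2 i j hij)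
  · refine up_can (wt_S 1) hij (N := N) ?_
    rw [← slot_Gs hij]
    exact up_slot (wS_le 1) (fun k => by fin_cases k <;> simp [wS, dv]) _ (t2 i j hij)
  · rw [← slot_Gl]
    exact up_slot wL_le (fun k => by fin_cases k <;> simp [wL, dv]) _ (l1 i)

/-- **Existence of forms, with explicit numbers.** -/
theorem exists_fam' {p : ℕ} (hp : 0 < p) : ∃ f : TT p, f ≠ 0 ∧ Fam (289 * p / 50) 750 f := by
  refine exists_fam p (289 * p / 50) 250 ?_
  have h1 := card_pairs p
  have h2 := card_tri (289 * p / 50)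
  have h3 : (jt 256).card = 98945 := by have := card_jt 256; omega
  have h4 : (jt 250).card = 94376 := by have := card_jt 250; omega
  rw [show 250 + 6 = 256 by norm_num, h3, h4]
  obtain ⟨n, hn⟩ : ∃ n, 289 * p / 50 = n := ⟨_, rfl⟩
  rw [hn] at h2 ⊢
  generalize Fintype.card (Σ j : Fin p, Fin (j : ℕ)) = c at h1 ⊢
  generalize (tri n).card = T at h2 ⊢
  have h5 : 289 * p + 1 ≤ 50 * (n + 1) := by omega
  clear hn h3 h4
  obtain ⟨m, hm⟩ : ∃ m, 50 * (n + 1) = 289 * p + 1 + m := ⟨50 * (n + 1) - (289 * p + 1), by omega⟩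
  have e1 : 2 * (c * 30 * 98945 + (p * p * 111 * (250 + 9) + p * 42 * (n + 1) * (250 + 1))) +
      p * 2968350 = p * p * (2968350 + 57498) + 21084 * (p * (n + 1)) := by
    have : 2 * (c * 30 * 98945) + p * 2968350 = p * p * 2968350 := by
      rw [← h1]; ring
    linarith
  have e2 : 2 * (T * 94376) = (n + 1) * (n + 2) * 94376 := by rw [← h2]; ring
  have e3 : p * p * (2968350 + 57498) + 21084 * (p * (n + 1)) < (n + 1) * (n + 2) * 94376 + p * 2968350 := by
    have e4 : 2500 * ((n + 1) * (n + 2)) = (289 * p + 1 + m) * (289 * p + 51 + m) := by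
      have : 50 * (n + 2) = 289 * p + 51 + m := by omega
      calc 2500 * ((n + 1) * (n + 2)) = (50 * (n + 1)) * (50 * (n + 2)) := by ring
        _ = _ := by rw [hm, this]
    have e5 : 50 * (p * (n + 1)) = p * (289 * p + 1 + m) := by
      calc 50 * (p * (n + 1)) = p * (50 * (n + 1)) := by ring
        _ = _ := by rw [hm]
    have e6 : 2500 * (p * p * (2968350 + 57498) + 21084 * (p * (n + 1))) <
        2500 * ((n + 1) * (n + 2) * 94376 + p * 2968350) := by
      calc 2500 * (p * p * (2968350 + 57498) + 21084 * (p * (n + 1)))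
          = 2500 * (p * p * (2968350 + 57498)) + 50 * 21084 * (50 * (p * (n + 1))) := by ring
        _ = 2500 * (p * p * (2968350 + 57498)) + 50 * 21084 * (p * (289 * p + 1 + m)) := by rw [e5]
        _ < (289 * p + 1 + m) * (289 * p + 51 + m) * 94376 + 2500 * (p * 2968350) := by
            nlinarith [Nat.zero_le (p * m), Nat.zero_le (m * m), Nat.zero_le (p * p)]
        _ = 2500 * ((n + 1) * (n + 2)) * 94376 + 2500 * (p * 2968350) := by rw [e4]
        _ = _ := by ring
    exact lt_of_mul_lt_mul_left e6 (by norm_num)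
  rw [← e1, ← e2] at e3
  refine lt_of_mul_lt_mul_left (a := 2) ?_ (by norm_num)
  exact lt_of_add_lt_add_right e3

end Pool.Agent.K9h12.LN
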