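import Pool.Agent.K9h12.LN.Defs

set_option autoImplicit false

open FF Metric

namespace Pool.Agent.K9h12.LN

open Pool.Agent.W603.LV Pool.Agent.W602.GT Pool.Agent.Y190.AN Pool.Agent.W603.BP
  Pool.Agent.W601.PH Pool.Agent.W602.NC Pool.Agent.TH152.HY

open MvPolynomial in
/-- General lines are in general position. -/
theorem exists_gp (p : ℕ) : ∃ Ψ : MvPolynomial (Fin p ⊕ Fin p) ℂ, Ψ ≠ 0 ∧
    ∀ α β : Fin p → ℂ, MvPolynomial.eval (Sum.elim α β) Ψ ≠ 0 → Gp α β := by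
  classical
  let f : Fin p × Fin p → MvPolynomial (Fin p ⊕ Fin p) ℂ := fun q =>
    if q.1 = q.2 then 1 else X (Sum.inl q.1) - X (Sum.inl q.2)
  let g : Fin p × Fin p × Fin p → MvPolynomial (Fin p ⊕ Fin p) ℂ := fun q =>
    if q.1 ≠ q.2.1 ∧ q.1 ≠ q.2.2 ∧ q.2.1 ≠ q.2.2 then
      (X (Sum.inr q.2.1) - X (Sum.inr q.1)) * (X (Sum.inl q.2.2) - X (Sum.inl q.1)) -
        (X (Sum.inr q.2.2) - X (Sum.inr q.1)) * (X (Sum.inl q.2.1) - X (Sum.inl q.1)) else 1
  have hne : ∀ i j : Fin p, i ≠ j → ((i : ℕ) : ℂ) - ((j : ℕ) : ℂ) ≠ 0 := by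
    intro i j hij h
    rw [sub_eq_zero] at h
    exact hij (Fin.ext (by exact_mod_cast h))
  refine ⟨(∏ q, f q) * ∏ q, g q, ?_, ?_⟩
  · refine mul_ne_zero (Finset.prod_ne_zero_iff.2 fun q _ => ?_)
      (Finset.prod_ne_zero_iff.2 fun q _ => ?_)
    · intro h
      by_cases hq : q.1 = q.2
      · simp only [f, if_pos hq] at h
        exact one_ne_zero h
      · simp only [f, if_neg hq] at h
        have h1 := congrArg (eval (Sum.elim (fun i : Fin p => ((i : ℕ) : ℂ))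
          (fun i : Fin p => ((i : ℕ) : ℂ) ^ 2))) h
        simp only [map_sub, eval_X, Sum.elim_inl, map_zero] at h1
        exact hne _ _ hq h1
    · intro h
      by_cases hq : q.1 ≠ q.2.1 ∧ q.1 ≠ q.2.2 ∧ q.2.1 ≠ q.2.2
      · simp only [g, if_pos hq] at h
        have h1 := congrArg (eval (Sum.elim (fun i : Fin p => ((i : ℕ) : ℂ))
          (fun i : Fin p => ((i : ℕ) : ℂ) ^ 2))) h
        simp only [map_sub, map_mul, eval_X, Sum.elim_inl, Sum.elim_inr, map_zero] at h1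
        have h2 : (((q.2.1 : ℕ) : ℂ) - ((q.1 : ℕ) : ℂ)) * (((q.2.2 : ℕ) : ℂ) - ((q.1 : ℕ) : ℂ)) *
            (((q.2.1 : ℕ) : ℂ) - ((q.2.2 : ℕ) : ℂ)) = 0 := by
          rw [← h1]; ring
        exact mul_ne_zero (mul_ne_zero (hne _ _ (Ne.symm hq.1)) (hne _ _ (Ne.symm hq.2.1)))
          (hne _ _ hq.2.2) h2
      · simp only [g, if_neg hq] at h
        exact one_ne_zero h
  · intro α β h
    rw [map_mul, map_prod, map_prod] at h
    have hf := fun q => Finset.prod_ne_zero_iff.1 (left_ne_zero_of_mul h) q (Finset.mem_univ q)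
    have hg := fun q => Finset.prod_ne_zero_iff.1 (right_ne_zero_of_mul h) q (Finset.mem_univ q)
    refine ⟨fun i j hij => ?_, fun i j k h1 h2 h3 h4 => ?_⟩
    · by_contra hne'
      refine hf (i, j) ?_
      simp only [f, if_neg hne', map_sub, eval_X, Sum.elim_inl, hij, sub_self]
    · refine hg (i, j, k) ?_
      simp only [g, if_pos (And.intro h1 (And.intro h2 h3)), map_sub, map_mul, eval_X,
        Sum.elim_inl, Sum.elim_inr, h4, sub_self]

end Pool.Agent.K9h12.LN
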