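import Pool.Agent.K9h12.LN.Defs
import Pool.Agent.K9h12.NV.High

/-!
Surfaces: functions without simple contacts with general lines.
-/

set_option autoImplicit false

open FF Metric

namespace Pool.Agent.K9h12.LN

open Pool.Agent.W603.LV Pool.Agent.W602.GT Pool.Agent.Y190.AN Pool.Agent.W603.BP
  Pool.Agent.W601.PH Pool.Agent.W602.NC Pool.Agent.TH152.HY

variable {p : ℕ} {L : Type} [Field L] [Algebra ℂ L]

/-- the value of a form of degree two -/
def dd (D : Fin 2 → Derivation ℂ L L) (f g : L) : L := D 0 f * D 1 g - D 0 g * D 1 f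

theorem det_eq (D : Fin 2 → Derivation ℂ L L) (x : Fin 2 → L) :
    (Matrix.of fun i j => D i (x j)).det = dd D (x 0) (x 1) := by
  rw [Matrix.det_fin_two]
  rfl

theorem dd_shift (D : Fin 2 → Derivation ℂ L L) (X Y : L) (c a b : ℂ) :
    dd D X Y = dd D (X - algebraMap ℂ L c) (el a b X Y) := by
  unfold dd el
  simp only [map_sub, Derivation.map_algebraMap, Derivation.leibniz, smul_eq_mul, mul_zero,
    sub_zero, add_zero]
  ring

theorem dd_shift2 (D : Fin 2 → Derivation ℂ L L) (X Y : L) (c c' : ℂ) :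
    dd D X Y = dd D (X - algebraMap ℂ L c) (Y - algebraMap ℂ L c') := by
  unfold dd
  simp only [map_sub, Derivation.map_algebraMap, sub_zero]

theorem dd_lines (D : Fin 2 → Derivation ℂ L L) (X Y : L) {a b a' b' : ℂ} (h : a ≠ a') :
    dd D X Y = algebraMap ℂ L (1 / (a' - a)) * dd D (el a b X Y) (el a' b' X Y) := by
  have h1 : algebraMap ℂ L (a' - a) ≠ 0 :=
    (_root_.map_ne_zero _).2 (sub_ne_zero.2 h.symm)
  rw [map_div₀, map_one, one_div, eq_inv_mul_iff_mul_eq₀ h1, map_sub]
  unfold dd el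
  simp only [map_sub, Derivation.map_algebraMap, Derivation.leibniz, smul_eq_mul, mul_zero,
    sub_zero, add_zero]
  ring

/-- the estimate of a form of degree two -/
def Est (P : Place ℂ L) (D : Fin 2 → Derivation ℂ L L) (ε : ℤ) : Prop :=
  ∀ f g : L, f ≠ 0 → g ≠ 0 → Ge P (P.ord f + P.ord g - ε) (dd D f g)

theorem dd_div (D : Fin 2 → Derivation ℂ L L) {f g : L} (hf : f ≠ 0) (hg : g ≠ 0) :
    dd D f g = f * g * (Matrix.of fun i j => D i (![f, g] j) / ![f, g] j).det := by
  rw [Matrix.det_fin_two]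
  unfold dd
  simp only [Matrix.of_apply, Matrix.cons_val_zero, Matrix.cons_val_one]
  field_simp

theorem est_log {P : Place ℂ L} {D : Fin 2 → Derivation ℂ L L} (hD : ∀ i, DerLog P (D i)) :
    Est P D 0 := by
  intro f g hf hg
  rw [dd_div D hf hg]
  have g3 : Ge P 0 (Matrix.of fun i j => D i (![f, g] j) / ![f, g] j).det := by
    refine ge_det P _ 0 (fun _ _ => 0) (fun i j => ?_) fun σ => by simp
    exact ge_logder_log (hD i) _
  exact ((((ge_ord P f).mul (ge_ord P g)).mul g3)).mono (by omega)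

theorem est_reg {P : Place ℂ L} {D : Fin 2 → Derivation ℂ L L} (hD : ∀ i, DerReg P (D i)) :
    Est P D 1 := by
  intro f g hf hg
  rw [dd_div D hf hg]
  have g3 : Ge P (-1) (Matrix.of fun i j => D i (![f, g] j) / ![f, g] j).det :=
    det_log D hD _ fun j => by fin_cases j <;> assumption
  exact ((((ge_ord P f).mul (ge_ord P g)).mul g3)).mono (by omega)

theorem dd_reg {P : Place ℂ L} {D : Fin 2 → Derivation ℂ L L} (hD : ∀ i, DerReg P (D i))
    {f g : L} (hf : Ge P 0 f) (hg : Ge P 0 g) : Ge P 0 (dd D f g) := by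
  have h : ∀ i (u : L), Ge P 0 u → Ge P 0 (D i u) := fun i u hu => hD i u hu
  unfold dd
  refine ((((h 0 f hf).mul (h 1 g hg))).mono (by omega)).sub
    (((h 0 g hg).mul (h 1 f hf)).mono (by omega))

/-- the order of a polynomial -/
theorem ge_poly {P : Place ℂ L} {n : ℕ} {v : Fin n → L} {s : ℤ} (hs : 0 ≤ s)
    (hv : ∀ j, Ge P (-s) (v j)) (A : MvPolynomial (Fin n) ℂ) :
    Ge P (-(s * A.totalDegree)) (MvPolynomial.aeval v A) := by
  rw [MvPolynomial.aeval_def, MvPolynomial.eval₂_eq']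
  refine Ge.sum _ _ fun m hm => ?_
  have h1 : Ge P (∑ j, (m j : ℤ) * -s) (∏ j, v j ^ m j) :=
    Ge.prod Finset.univ _ _ fun j _ => (hv j).pow (m j)
  refine ((Ge.const (MvPolynomial.coeff m A)).mul h1).mono ?_
  have h2 := MvPolynomial.le_totalDegree hm
  rw [Finsupp.sum_fintype _ _ fun _ => rfl] at h2
  rw [← Finset.sum_mul, zero_add]
  have h3 : ((∑ j, m j : ℕ) : ℤ) ≤ A.totalDegree := by exact_mod_cast h2
  push_cast at h3
  nlinarith

/-- the order at a pole -/
theorem ord_lin {P : Place ℂ L} {X : L} {a b : ℂ} (ha : a ≠ 0) (hX0 : X ≠ 0)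
    (hX : P.ord X < 0) : algebraMap ℂ L a * X + algebraMap ℂ L b ≠ 0 ∧
      P.ord (algebraMap ℂ L a * X + algebraMap ℂ L b) = P.ord X := by
  have ha' : algebraMap ℂ L a ≠ 0 := (_root_.map_ne_zero _).2 ha
  have h1 : P.ord (algebraMap ℂ L a * X) = P.ord X := by
    rw [P.ord_mul ha' hX0, P.ord_const ha, zero_add]
  by_cases hb : b = 0
  · rw [hb, map_zero, add_zero]
    exact ⟨mul_ne_zero ha' hX0, h1⟩
  · have hb' : algebraMap ℂ L b ≠ 0 := (_root_.map_ne_zero _).2 hb
    have h2 := P.ord_add_eq (mul_ne_zero ha' hX0) hb' (by rw [h1, P.ord_const hb]; exact hX)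
    exact ⟨h2.1, h2.2.trans h1⟩

/-- **Finite places.** -/
theorem high_fin {α β : Fin p → ℂ} (hG : Gp α β) {P : Place ℂ L} {X Y : L}
    (hX : ∀ c : ℂ, X ≠ algebraMap ℂ L c) (hY : ∀ c : ℂ, Y ≠ algebraMap ℂ L c)
    (hl : ∀ i, el (α i) (β i) X Y ≠ 0) (h0 : Ge P 0 X) (h1 : Ge P 0 Y)
    {D : Fin 2 → Derivation ℂ L L} {ε : ℤ} (hE : Est P D ε) :
    0 ≤ ∑ i, P.ord (el (α i) (β i) X Y) ∧
      Ge P (∑ i, P.ord (el (α i) (β i) X Y) - ε) (dd D X Y) := by
  classical
  have hge : ∀ i, Ge P 0 (el (α i) (β i) X Y) := fun i => by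
    unfold el
    refine (h1.sub ?_).sub (Ge.const _)
    exact ((Ge.const (α i)).mul h0).mono (by omega)
  have hnn : ∀ i, 0 ≤ P.ord (el (α i) (β i) X Y) := fun i => (hge i).resolve_left (hl i)
  set Z : Finset (Fin p) := Finset.univ.filter fun i => 0 < P.ord (el (α i) (β i) X Y) with hZ
  have hsum : ∑ i, P.ord (el (α i) (β i) X Y) = ∑ i ∈ Z, P.ord (el (α i) (β i) X Y) := by
    rw [hZ, Finset.sum_filter]
    refine Finset.sum_congr rfl fun i _ => ?_
    split_ifs with h
    · rfl
    · exact le_antisymm (not_lt.1 h) (hnn i)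
  have hZ2 : Z.card ≤ 2 := by
    by_contra hcon
    push Not at hcon
    obtain ⟨i, hi, j, hj, k, hk, hij, hik, hjk⟩ := Finset.two_lt_card.1 hcon
    simp only [hZ, Finset.mem_filter, Finset.mem_univ, true_and] at hi hj hk
    have h2 := hG.three i j k hij hik hjk
    have gi : Ge P 1 (el (α i) (β i) X Y) := Or.inr hi
    have gj : Ge P 1 (el (α j) (β j) X Y) := Or.inr hj
    have gk : Ge P 1 (el (α k) (β k) X Y) := Or.inr hk
    have h3 : algebraMap ℂ L ((β j - β i) * (α k - α i) - (β k - β i) * (α j - α i)) =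
        algebraMap ℂ L (α k - α i) * (el (α i) (β i) X Y - el (α j) (β j) X Y) -
        algebraMap ℂ L (α j - α i) * (el (α i) (β i) X Y - el (α k) (β k) X Y) := by
      unfold el
      simp only [map_sub, map_mul]
      ring
    have h4 : Ge P 1 (algebraMap ℂ L
        ((β j - β i) * (α k - α i) - (β k - β i) * (α j - α i))) := by
      rw [h3]
      exact (((Ge.const _).mul (gi.sub gj)).mono (by omega)).sub
        (((Ge.const _).mul (gi.sub gk)).mono (by omega))
    have h5 := sub_ne_zero.2 h2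
    rcases h4 with h4 | h4
    · exact h5 ((_root_.map_eq_zero _).1 h4)
    · rw [P.ord_const h5] at h4
      omega
  refine ⟨Finset.sum_nonneg fun i _ => hnn i, ?_⟩
  rw [hsum]
  obtain ⟨c, hc⟩ := VG.exists_unit P hX h0
  have hXc : X - algebraMap ℂ L c ≠ 0 := sub_ne_zero.2 (hX c)
  rcases (by omega : Z.card = 0 ∨ Z.card = 1 ∨ Z.card = 2) with h | h | h
  · rw [Finset.card_eq_zero.1 h, Finset.sum_empty]
    obtain ⟨c', hc'⟩ := VG.exists_unit P hY h1
    rw [dd_shift2 D X Y c c']
    exact (hE _ _ hXc (sub_ne_zero.2 (hY c'))).mono (by omega)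
  · obtain ⟨i, hi⟩ := Finset.card_eq_one.1 h
    rw [hi, Finset.sum_singleton, dd_shift D X Y c (α i) (β i)]
    exact (hE _ _ hXc (hl i)).mono (by omega)
  · obtain ⟨i, j, hij, hi⟩ := Finset.card_eq_two.1 h
    rw [hi, Finset.sum_pair hij, dd_lines D X Y (b := β i) (b' := β j) (hG.inj.ne hij)]
    exact ((Ge.const _).mul (hE _ _ (hl i) (hl j))).mono (by omega)

/-- **Poles.** -/
theorem loc_inf {α β : Fin p → ℂ} (hG : Gp α β) (hp : 0 < p) {P : Place ℂ L} {X Y : L}
    (hX : ∀ c : ℂ, X ≠ algebraMap ℂ L c) (hY : ∀ c : ℂ, Y ≠ algebraMap ℂ L c)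
    (hl : ∀ i, el (α i) (β i) X Y ≠ 0) (h : ¬ (Ge P 0 X ∧ Ge P 0 Y))
    {D : Fin 2 → Derivation ℂ L L} {ε : ℤ} (hE : Est P D ε) :
    ∃ s a : ℤ, 0 < s ∧ 0 ≤ a ∧ Ge P (-s) X ∧ Ge P (-s) Y ∧
      ∑ i, P.ord (el (α i) (β i) X Y) = -(p * s) + a ∧ Ge P (-(2 * s) + a - ε) (dd D X Y) := by
  classical
  have hX0 : X ≠ 0 := fun h0 => hX 0 (by rw [h0, map_zero])
  have hY0 : Y ≠ 0 := fun h0 => hY 0 (by rw [h0, map_zero])
  obtain ⟨s, hs⟩ : ∃ s, min (P.ord X) (P.ord Y) = -s := ⟨_, (neg_neg _).symm⟩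
  have hs0 : 0 < s := by
    by_contra hcon
    refine h ⟨Or.inr ?_, Or.inr ?_⟩
    · have := min_le_left (P.ord X) (P.ord Y)
      omega
    · have := min_le_right (P.ord X) (P.ord Y)
      omega
  have hsX : -s ≤ P.ord X := hs ▸ min_le_left _ _
  have hsY : -s ≤ P.ord Y := hs ▸ min_le_right _ _
  have hge : ∀ i, Ge P (-s) (el (α i) (β i) X Y) := fun i => by
    unfold el
    refine (Ge.sub (Or.inr hsY) ?_).sub ((Ge.const _).mono (by omega))
    exact ((Ge.const (α i)).mul (Or.inr hsX)).mono (by omega)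
  have hnn : ∀ i, -s ≤ P.ord (el (α i) (β i) X Y) := fun i => (hge i).resolve_left (hl i)
  by_cases hc : P.ord X = -s
  · -- the pole of `X`
    obtain ⟨i0, -, hi0⟩ := Finset.exists_max_image Finset.univ
      (fun i => P.ord (el (α i) (β i) X Y)) ⟨⟨0, hp⟩, Finset.mem_univ _⟩
    have hoth : ∀ i, i ≠ i0 → P.ord (el (α i) (β i) X Y) = -s := by
      intro i hi
      by_contra hcon
      have h1 : -s < P.ord (el (α i) (β i) X Y) := lt_of_le_of_ne (hnn i) (Ne.symm hcon)
      have h2 := hi0 i (Finset.mem_univ i)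
      have g1 : Ge P (-s + 1) (el (α i) (β i) X Y - el (α i0) (β i0) X Y) :=
        Ge.sub (Or.inr (by omega)) (Or.inr (by omega))
      have h3 : el (α i) (β i) X Y - el (α i0) (β i0) X Y =
          algebraMap ℂ L (α i0 - α i) * X + algebraMap ℂ L (β i0 - β i) := by
        unfold el
        simp only [map_sub]
        ring
      have h4 := ord_lin (P := P) (b := β i0 - β i) (sub_ne_zero.2 (hG.inj.ne hi.symm)) hX0
        (by omega)
      rw [h3] at g1
      have h5 := g1.resolve_left h4.1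
      rw [h4.2] at h5
      omega
    refine ⟨s, P.ord (el (α i0) (β i0) X Y) + s, hs0, by have := hnn i0; omega,
      Or.inr hsX, Or.inr hsY, ?_, ?_⟩
    · rw [← Finset.add_sum_erase _ _ (Finset.mem_univ i0)]
      rw [Finset.sum_congr rfl fun i hi => hoth i (Finset.ne_of_mem_erase hi)]
      rw [Finset.sum_const, Finset.card_erase_of_mem (Finset.mem_univ _), Finset.card_univ,
        Fintype.card_fin, nsmul_eq_mul, Nat.cast_sub hp, Nat.cast_one]
      ring
    · rw [dd_shift D X Y 0 (α i0) (β i0), map_zero, sub_zero]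
      exact (hE _ _ hX0 (hl i0)).mono (by omega)
  · -- the pole of `Y`
    have hX1 : -s < P.ord X := lt_of_le_of_ne hsX (Ne.symm hc)
    have hY1 : P.ord Y = -s := by
      rcases min_choice (P.ord X) (P.ord Y) with h1 | h1
      · rw [h1] at hs
        exact absurd hs hc
      · rw [h1] at hs
        exact hs
    have hall : ∀ i, P.ord (el (α i) (β i) X Y) = -s := by
      intro i
      have g1 : Ge P (-s + 1) (-(algebraMap ℂ L (α i) * X + algebraMap ℂ L (β i))) := by
        refine Ge.neg (Ge.add ?_ ((Ge.const _).mono (by omega)))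
        exact ((Ge.const (α i)).mul (ge_ord P X)).mono (by omega)
      have h2 : el (α i) (β i) X Y =
          Y + -(algebraMap ℂ L (α i) * X + algebraMap ℂ L (β i)) := by
        unfold el
        ring
      rw [h2]
      by_cases h3 : -(algebraMap ℂ L (α i) * X + algebraMap ℂ L (β i)) = 0
      · rw [h3, add_zero, hY1]
      · have h4 := g1.resolve_left h3
        rw [(P.ord_add_eq hY0 h3 (by omega)).2, hY1]
    refine ⟨s, 0, hs0, le_rfl, Or.inr hsX, Or.inr hsY, ?_, ?_⟩
    · rw [Finset.sum_congr rfl fun i _ => hall i, Finset.sum_const, Finset.card_univ,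
        Fintype.card_fin, nsmul_eq_mul]
      ring
    · exact (hE _ _ hX0 hY0).mono (by omega)

/-- **Surfaces.** -/
theorem high_lines {α β : Fin p → ℂ} (hG : Gp α β) {A : MvPolynomial (Fin 2) ℂ}
    (hp : A.totalDegree + 8 ≤ p) {x : Fin 2 → L} (hx : IsTranscendenceBasis ℂ x)
    (hA : A ≠ 0) {Bd : Place ℂ L → Prop} (hst : ∀ P, ¬ Bd P → Ctc α β A P (x 0) (x 1)) :
    LogGeneralType ℂ L 2 Bd := by
  classical
  have htr : ∀ j, Transcendental ℂ (x j) := fun j => hx.1.transcendental j
  have hc : ∀ j (c : ℂ), x j ≠ algebraMap ℂ L c := fun j c h => htr j (by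
    rw [h]; exact isAlgebraic_algebraMap c)
  have hx0 : ∀ j, x j ≠ 0 := fun j h0 => hc j 0 (by rw [h0, map_zero])
  have hv : ![x 0, x 1] = x := by
    funext j
    fin_cases j <;> rfl
  have hAx : MvPolynomial.aeval ![x 0, x 1] A ≠ 0 := fun h0 => hA (by
    rw [hv] at h0
    exact (algebraicIndependent_iff.1 hx.1) A h0)
  have hl : ∀ i, el (α i) (β i) (x 0) (x 1) ≠ 0 := by
    intro i h0
    have h1 : MvPolynomial.aeval x (MvPolynomial.X 1 - MvPolynomial.C (α i) * MvPolynomial.X 0 -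
        MvPolynomial.C (β i) : MvPolynomial (Fin 2) ℂ) = 0 := by
      simp only [map_sub, map_mul, MvPolynomial.aeval_X, MvPolynomial.aeval_C]
      exact h0
    have h2 := (algebraicIndependent_iff.1 hx.1) _ h1
    have h3 := congrArg (MvPolynomial.eval ![0, β i + 1]) h2
    simp at h3
  set Q : L := ∏ i, el (α i) (β i) (x 0) (x 1) with hQ
  have hQ0 : Q ≠ 0 := Finset.prod_ne_zero_iff.2 fun i _ => hl i
  have hQord : ∀ P : Place ℂ L, P.ord Q = ∑ i, P.ord (el (α i) (β i) (x 0) (x 1)) := by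
    intro P
    rw [hQ]
    exact ord_prod' P _ _ fun i _ => hl i
  let y : Fin 3 → L := Fin.cases 1 x
  have hy0 : ∀ l, y l ≠ 0 := by
    intro l
    refine Fin.cases ?_ (fun i => ?_) l
    · exact one_ne_zero
    · exact hx0 i
  let g : Fin 3 → L := fun l => MvPolynomial.aeval ![x 0, x 1] A * y l / Q
  have hgge : ∀ (P : Place ℂ L) (l : Fin 3), Ge P (P.ord (MvPolynomial.aeval ![x 0, x 1] A) +
      P.ord (y l) - ∑ i, P.ord (el (α i) (β i) (x 0) (x 1))) (g l) := by
    intro P l
    have h1 := ge_div hQ0 ((ge_ord P (MvPolynomial.aeval ![x 0, x 1] A)).mul (ge_ord P (y l)))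
    rw [hQord P] at h1
    exact h1
  -- orders of `A` and `y`
  have hord : ∀ (P : Place ℂ L) (s : ℤ), 0 ≤ s → Ge P (-s) (x 0) → Ge P (-s) (x 1) →
      -(s * A.totalDegree) ≤ P.ord (MvPolynomial.aeval ![x 0, x 1] A) ∧
        ∀ l, -s ≤ P.ord (y l) := by
    intro P s hs h0 h1
    refine ⟨(ge_poly hs (fun j => ?_) A).resolve_left hAx, fun l => ?_⟩
    · fin_cases j
      · exact h0
      · exact h1
    · have h2 : ∀ j, Ge P (-s) (x j) := fun j => by
        fin_cases j
        · exact h0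
        · exact h1
      refine Fin.cases ?_ (fun i => ?_) l
      · change -s ≤ P.ord 1
        rw [P.ord_one]
        omega
      · exact (h2 i).resolve_left (hx0 i)
  have key : ∀ (P : Place ℂ L) (l : Fin 3), LogAt P (form x 2 (g l)) ∧
      (Ctc α β A P (x 0) (x 1) → RegAt P (form x 2 (g l))) := by
    intro P l
    have gA := hgge P l
    by_cases hr : Ge P 0 (x 0) ∧ Ge P 0 (x 1)
    · have hA0 := (hord P 0 le_rfl (by rw [neg_zero]; exact hr.1) (by rw [neg_zero]; exact hr.2))
      rw [zero_mul, neg_zero] at hA0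
      have hy1 := hA0.2 l
      refine ⟨fun D hD => ?_, fun hs D hD => ?_⟩
      · change Ge P 0 _
        unfold form
        rw [det_eq]
        obtain ⟨hS, g3⟩ := high_fin hG (hc 0) (hc 1) hl hr.1 hr.2 (est_log hD)
        exact (gA.mul (g3.pow 2)).mono (by push_cast; omega)
      · change Ge P 0 _
        unfold form
        rw [det_eq]
        obtain ⟨hS, g3⟩ := high_fin hG (hc 0) (hc 1) hl hr.1 hr.2 (est_reg hD)
        by_cases hS0 : ∑ i, P.ord (el (α i) (β i) (x 0) (x 1)) = 0
        · have g4 := dd_reg hD hr.1 hr.2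
          exact (gA.mul (g4.pow 2)).mono (by push_cast; omega)
        · have h5 := hs hr.1 hr.2
          refine (gA.mul (g3.pow 2)).mono ?_
          push_cast
          by_cases hA1 : P.ord (MvPolynomial.aeval ![x 0, x 1] A) = 0
          · have := h5 hA1
            omega
          · have := hA0.1
            omega
    · have hp0 : 0 < p := by omega
      have hpd : (A.totalDegree : ℤ) + 8 ≤ p := by exact_mod_cast hp
      refine ⟨fun D hD => ?_, fun _ D hD => ?_⟩
      · change Ge P 0 _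
        unfold form
        rw [det_eq]
        obtain ⟨s, a, hs, ha, hX, hY, hS, g3⟩ := loc_inf hG hp0 (hc 0) (hc 1) hl hr (est_log hD)
        obtain ⟨h6, h7⟩ := hord P s hs.le hX hY
        have h7 := h7 l
        refine (gA.mul (g3.pow 2)).mono ?_
        rw [hS]
        push_cast
        nlinarith
      · change Ge P 0 _
        unfold form
        rw [det_eq]
        obtain ⟨s, a, hs, ha, hX, hY, hS, g3⟩ := loc_inf hG hp0 (hc 0) (hc 1) hl hr (est_reg hD)
        obtain ⟨h6, h7⟩ := hord P s hs.le hX hY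
        have h7 := h7 l
        refine (gA.mul (g3.pow 2)).mono ?_
        rw [hS]
        push_cast
        nlinarith
  refine ⟨?_, 2, by norm_num, fun l => form x 2 (g l), fun l => form_pluri _ _ _,
    fun P _ l => (key P l).1, fun P _ hP l => (key P l).2 (hst P hP), ?_⟩
  · rw [← hx.cardinalMk_eq_trdeg]
    simp
  · choose D hD using fun i : Fin 2 => exists_der x hx fun j => if i = j then (1 : L) else 0
    have hdet : (Matrix.of fun i j => D i (x j)).det = 1 := by
      have : (Matrix.of fun i j => D i (x j)) = (1 : Matrix (Fin 2) (Fin 2) L) := by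
        ext i j
        rw [Matrix.of_apply, hD, Matrix.one_apply]
      rw [this, Matrix.det_one]
    have hg0 : ∀ l, g l ≠ 0 := fun l => div_ne_zero (mul_ne_zero hAx (hy0 l)) hQ0
    refine ⟨D, ?_, ?_⟩
    · change g 0 * (Matrix.of fun i j => D i (x j)).det ^ 2 ≠ 0
      rw [hdet, one_pow, mul_one]
      exact hg0 0
    · have h1 : (fun i : Fin 2 => form x 2 (g i.succ) D / form x 2 (g 0) D) = x := by
        funext i
        unfold form
        rw [hdet, one_pow, mul_one, mul_one, div_eq_iff (hg0 0)]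
        change MvPolynomial.aeval ![x 0, x 1] A * x i / Q =
          x i * (MvPolynomial.aeval ![x 0, x 1] A * 1 / Q)
        ring
      rw [h1]
      exact hx.1

end Pool.Agent.K9h12.LN
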