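import Pool.Agent.K9h12.LN.Defs

set_option autoImplicit false

open FF Metric

namespace Pool.Agent.K9h12.LN

open Pool.Agent.W603.LV Pool.Agent.W602.GT Pool.Agent.Y190.AN Pool.Agent.W603.BP
  Pool.Agent.W601.PH Pool.Agent.W602.NC Pool.Agent.TH152.HY

variable {p : ℕ} {L : Type} [Field L] [Algebra ℂ L]

/-- the point of intersection of two lines -/
lemma node_eq {α β : Fin p → ℂ} (hG : Gp α β) {i j : Fin p} (hij : i ≠ j) {x y : ℂ}
    (h1 : y = α i * x + β i) (h2 : y = α j * x + β j) : node α β i j = (x, y) := by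
  have h3 : α i - α j ≠ 0 := sub_ne_zero.2 fun h => hij (hG.inj h)
  have h4 : (β j - β i) / (α i - α j) = x := by
    rw [div_eq_iff h3]
    linear_combination h1 - h2
  unfold node
  rw [h4, h1]

/-- a line which is not through two nodes: the parameters of the nodes on the line coincide -/
lemma same_param {α β : Fin p → ℂ} (hG : Gp α β) {a0 a1 b0 b1 : ℂ} (hab : a1 ≠ 0 ∨ b1 ≠ 0)
    {t x y : L} (hx : x = algebraMap ℂ L a0 + algebraMap ℂ L a1 * t)
    (hy : y = algebraMap ℂ L b0 + algebraMap ℂ L b1 * t)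
    (hJ : MvPolynomial.aeval ![x, y] (JJ α β) ≠ 0) {i j i' j' : Fin p} (hij : i ≠ j)
    (hij' : i' ≠ j') {τ τ' : ℂ} (h1 : b0 + b1 * τ = α i * (a0 + a1 * τ) + β i)
    (h2 : b0 + b1 * τ = α j * (a0 + a1 * τ) + β j)
    (h3 : b0 + b1 * τ' = α i' * (a0 + a1 * τ') + β i')
    (h4 : b0 + b1 * τ' = α j' * (a0 + a1 * τ') + β j') : τ = τ' := by
  classical
  by_contra hne
  have e1 := node_eq hG hij h1 h2
  have e2 := node_eq hG hij' h3 h4
  have hne' : node α β i j ≠ node α β i' j' := by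
    rw [e1, e2]
    intro h
    have h5 := congrArg Prod.fst h
    have h6 := congrArg Prod.snd h
    simp only at h5 h6
    have h7 : a1 * (τ - τ') = 0 := by linear_combination h5
    have h8 : b1 * (τ - τ') = 0 := by linear_combination h6
    rcases hab with h | h
    · exact (mul_ne_zero h (sub_ne_zero.2 hne)) h7
    · exact (mul_ne_zero h (sub_ne_zero.2 hne)) h8
  apply hJ
  unfold JJ
  rw [map_prod]
  refine Finset.prod_eq_zero (Finset.mem_univ ((i, j), (i', j'))) ?_
  simp only [if_neg hne']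
  rw [e1, e2]
  unfold jn
  simp only [map_sub, map_mul, MvPolynomial.aeval_X, MvPolynomial.algHom_C, Matrix.cons_val_zero,
    Matrix.cons_val_one, map_add]
  rw [hx, hy]
  ring

/-- **The general points of a line.** -/
theorem exists_B {α β : Fin p → ℂ} (hG : Gp α β) {A : MvPolynomial (Fin 2) ℂ}
    (hp : A.totalDegree + 10 ≤ p) {a0 a1 b0 b1 : ℂ} (hab : a1 ≠ 0 ∨ b1 ≠ 0)
    {t x y : L} (ht : ∀ c : ℂ, t ≠ algebraMap ℂ L c)
    (hx : x = algebraMap ℂ L a0 + algebraMap ℂ L a1 * t)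
    (hy : y = algebraMap ℂ L b0 + algebraMap ℂ L b1 * t)
    (hJ : MvPolynomial.aeval ![x, y] (JJ α β) ≠ 0) (hA : MvPolynomial.aeval ![x, y] A ≠ 0)
    (hl : ∀ i, el (α i) (β i) x y ≠ 0) : ∃ B : Polynomial ℂ, B.Separable ∧ 6 ≤ B.natDegree ∧
      ∀ P : Place ℂ L, Ctc α β A P x y → Ge P 0 t → P.ord (Polynomial.aeval t B) ≠ 1 := by
  classical
  -- the lines along the line
  let σ : Fin p → ℂ := fun i => b1 - α i * a1
  let κ : Fin p → ℂ := fun i => b0 - α i * a0 - β i
  let τ : Fin p → ℂ := fun i => -κ i / σ i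
  have hel : ∀ i, el (α i) (β i) x y = algebraMap ℂ L (κ i) + algebraMap ℂ L (σ i) * t := by
    intro i
    unfold el
    rw [hx, hy]
    simp only [σ, κ, map_sub, map_mul]
    ring
  have hτ : ∀ i, σ i ≠ 0 → κ i + σ i * τ i = 0 := by
    intro i hi
    simp only [τ]
    field_simp
    ring
  have hκ : ∀ (i : Fin p) (s : ℂ), κ i + σ i * s = 0 →
      b0 + b1 * s = α i * (a0 + a1 * s) + β i := by
    intro i s h
    simp only [κ, σ] at h
    linear_combination h
  -- the polynomial along the line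
  obtain ⟨Al, hAl⟩ : ∃ Al : Polynomial ℂ, Al = MvPolynomial.aeval
      ![Polynomial.C a0 + Polynomial.C a1 * Polynomial.X,
        Polynomial.C b0 + Polynomial.C b1 * Polynomial.X] A := ⟨_, rfl⟩
  have hAld : Al.natDegree ≤ A.totalDegree := by
    rw [hAl, ← mul_one A.totalDegree]
    refine MvPolynomial.aeval_natDegree_le A le_rfl _ fun i => ?_
    fin_cases i
    · exact (Polynomial.natDegree_add_le _ _).trans (max_le (by simp)
        ((Polynomial.natDegree_C_mul_le _ _).trans Polynomial.natDegree_X_le))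
    · exact (Polynomial.natDegree_add_le _ _).trans (max_le (by simp)
        ((Polynomial.natDegree_C_mul_le _ _).trans Polynomial.natDegree_X_le))
  have hAlt : Polynomial.aeval t Al = MvPolynomial.aeval ![x, y] A := by
    rw [hAl, MvPolynomial.comp_aeval_apply]
    congr 2
    funext i
    fin_cases i
    · simp [hx]
    · simp [hy]
  have hAl0 : Al ≠ 0 := by
    rintro rfl
    rw [← hAlt, map_zero] at hA
    exact hA rfl
  -- the good lines
  let S : Finset (Fin p) := Finset.univ.filter fun i => σ i ≠ 0 ∧ Al.eval (τ i) ≠ 0 ∧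
    ∀ j, j ≠ i → κ j + σ j * τ i ≠ 0
  let S1 : Finset (Fin p) := Finset.univ.filter fun i => σ i = 0
  let S2 : Finset (Fin p) := Finset.univ.filter fun i => σ i ≠ 0 ∧ Al.eval (τ i) = 0 ∧
    ∀ j, j ≠ i → κ j + σ j * τ i ≠ 0
  let S3 : Finset (Fin p) := Finset.univ.filter fun i => σ i ≠ 0 ∧
    ∃ j, j ≠ i ∧ κ j + σ j * τ i = 0
  have hcov : (Finset.univ : Finset (Fin p)) ⊆ S ∪ (S1 ∪ (S2 ∪ S3)) := by
    intro i _
    simp only [S, S1, S2, S3, Finset.mem_union, Finset.mem_filter, Finset.mem_univ, true_and]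
    by_cases h1 : σ i = 0
    · exact Or.inr (Or.inl h1)
    · by_cases h2 : ∃ j, j ≠ i ∧ κ j + σ j * τ i = 0
      · exact Or.inr (Or.inr (Or.inr ⟨h1, h2⟩))
      · push Not at h2
        by_cases h3 : Al.eval (τ i) = 0
        · exact Or.inr (Or.inr (Or.inl ⟨h1, h3, h2⟩))
        · exact Or.inl ⟨h1, h3, h2⟩
  have hS1 : S1.card ≤ 1 := by
    rw [Finset.card_le_one]
    intro i hi j hj
    simp only [S1, Finset.mem_filter, Finset.mem_univ, true_and, σ] at hi hj
    by_contra hij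
    have h1 : (α i - α j) * a1 = 0 := by linear_combination hj - hi
    have h2 : a1 = 0 := (mul_eq_zero.1 h1).resolve_left (sub_ne_zero.2 fun h => hij (hG.inj h))
    rw [h2, mul_zero, sub_zero] at hi
    rcases hab with h | h
    · exact h h2
    · exact h hi
  have hS2 : S2.card ≤ A.totalDegree := by
    have h1 : S2.card ≤ Al.roots.toFinset.card := by
      refine Finset.card_le_card_of_injOn τ (fun i hi => ?_) (fun i hi j hj hij => ?_)
      · simp only [S2, Finset.coe_filter, Finset.mem_univ, true_and, Set.mem_ofPred_eq] at hi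
        rw [Finset.mem_coe, Multiset.mem_toFinset, Polynomial.mem_roots hAl0]
        exact hi.2.1
      · simp only [S2, Finset.coe_filter, Finset.mem_univ, true_and, Set.mem_ofPred_eq] at hi hj
        by_contra hne
        exact hi.2.2 j (Ne.symm hne) (by rw [hij]; exact hτ j hj.1)
    exact h1.trans ((Multiset.toFinset_card_le _).trans ((Polynomial.card_roots' _).trans hAld))
  have hS3 : S3.card ≤ 2 := by
    by_contra hcon
    push Not at hcon
    obtain ⟨i, hi, j, hj, k, hk, hij, hik, hjk⟩ := Finset.two_lt_card.1 hcon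
    simp only [S3, Finset.mem_filter, Finset.mem_univ, true_and] at hi hj hk
    obtain ⟨hi1, i', hi2, hi3⟩ := hi
    obtain ⟨hj1, j', hj2, hj3⟩ := hj
    obtain ⟨hk1, k', hk2, hk3⟩ := hk
    have e1 : τ i = τ j := same_param hG hab hx hy hJ (Ne.symm hi2) (Ne.symm hj2)
      (hκ _ _ (hτ i hi1)) (hκ _ _ hi3) (hκ _ _ (hτ j hj1)) (hκ _ _ hj3)
    have e2 : τ i = τ k := same_param hG hab hx hy hJ (Ne.symm hi2) (Ne.symm hk2)
      (hκ _ _ (hτ i hi1)) (hκ _ _ hi3) (hκ _ _ (hτ k hk1)) (hκ _ _ hk3)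
    have f1 := hκ _ _ (hτ i hi1)
    have f2 := hκ _ _ (hτ j hj1)
    have f3 := hκ _ _ (hτ k hk1)
    rw [← e1] at f2
    rw [← e2] at f3
    refine hG.three i j k hij hik hjk ?_
    have g1 : β j - β i = -(α j - α i) * (a0 + a1 * τ i) := by linear_combination f1 - f2
    have g2 : β k - β i = -(α k - α i) * (a0 + a1 * τ i) := by linear_combination f1 - f3
    rw [g1, g2]
    ring
  have hS : 6 ≤ S.card := by
    have h1 := Finset.card_le_card hcov
    have h2 := Finset.card_union_le S (S1 ∪ (S2 ∪ S3))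
    have h3 := Finset.card_union_le S1 (S2 ∪ S3)
    have h4 := Finset.card_union_le S2 S3
    rw [Finset.card_univ, Fintype.card_fin] at h1
    omega
  -- the polynomial
  refine ⟨∏ i ∈ S, (Polynomial.X - Polynomial.C (τ i)), ?_, ?_, ?_⟩
  · rw [Polynomial.separable_prod_X_sub_C_iff']
    intro i hi j hj hij
    simp only [S, Finset.mem_filter, Finset.mem_univ, true_and] at hi hj
    by_contra hne
    exact hi.2.2 j (Ne.symm hne) (by rw [hij]; exact hτ j hj.1)
  · rw [Polynomial.natDegree_finsetProd_X_sub_C_eq_card]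
    exact hS
  · intro P hC hPt hord
    set B : Polynomial ℂ := ∏ i ∈ S, (Polynomial.X - Polynomial.C (τ i)) with hB
    have hB0 : B ≠ 0 := (Polynomial.monic_prod_of_monic _ _ fun i _ =>
      Polynomial.monic_X_sub_C _).ne_zero
    have hge : ∀ c : ℂ, 0 ≤ P.ord (t - algebraMap ℂ L c) := fun c =>
      (hPt.sub (Ge.const c)).resolve_left (sub_ne_zero.2 (ht c))
    -- a root
    obtain ⟨c, hc, hcpos⟩ : ∃ c ∈ B.roots, 0 < P.ord (t - algebraMap ℂ L c) := by
      by_contra hcon
      push Not at hcon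
      have h1 := (Pool.Agent.K9h12.SH.ord_poly P ht hB0).2
      rw [hord] at h1
      have h2 : (B.roots.map fun c => P.ord (t - algebraMap ℂ L c)) =
          B.roots.map fun _ => (0 : ℤ) :=
        Multiset.map_congr rfl fun c hc => le_antisymm (hcon c hc) (hge c)
      rw [h2] at h1
      simp at h1
    obtain ⟨ρ, hρ⟩ : ∃ ρ, P.ord (t - algebraMap ℂ L c) = ρ := ⟨_, rfl⟩
    have hρ0 : 0 < ρ := by rw [← hρ]; exact hcpos
    have h1 := Pool.Agent.K9h12.SH.ord_poly_fin P ht hB0 hρ hρ0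
    rw [hord] at h1
    have hρ1 : ρ = 1 := by
      have h2 : ρ ∣ 1 := ⟨(B.rootMultiplicity c : ℤ), by rw [h1]; ring⟩
      exact Int.eq_one_of_dvd_one hρ0.le h2
    obtain ⟨i, hiS, hic⟩ : ∃ i ∈ S, τ i = c := by
      rw [Polynomial.mem_roots hB0, Polynomial.IsRoot.def, hB, Polynomial.eval_prod,
        Finset.prod_eq_zero_iff] at hc
      obtain ⟨i, hi, h2⟩ := hc
      refine ⟨i, hi, ?_⟩
      simp only [Polynomial.eval_sub, Polynomial.eval_X, Polynomial.eval_C] at h2
      exact (sub_eq_zero.1 h2).symm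
    simp only [S, Finset.mem_filter, Finset.mem_univ, true_and] at hiS
    obtain ⟨hi1, hi2, hi3⟩ := hiS
    rw [hic] at hi2 hi3
    have hPx : Ge P 0 x := by
      rw [hx]
      exact (Ge.const _).add (by simpa using (Ge.const a1).mul hPt)
    have hPy : Ge P 0 y := by
      rw [hy]
      exact (Ge.const _).add (by simpa using (Ge.const b1).mul hPt)
    have hPA : P.ord (MvPolynomial.aeval ![x, y] A) = 0 := by
      rw [← hAlt, Pool.Agent.K9h12.SH.ord_poly_fin P ht hAl0 hρ hρ0,
        Polynomial.rootMultiplicity_eq_zero hi2]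
      simp
    refine hC hPx hPy hPA ?_
    rw [Finset.sum_eq_single i]
    · have h3 : el (α i) (β i) x y = algebraMap ℂ L (σ i) * (t - algebraMap ℂ L c) := by
        have h4 := hτ i hi1
        rw [hic] at h4
        have h5 : κ i = -(σ i * c) := by linear_combination h4
        rw [hel, h5, map_neg, map_mul]
        ring
      rw [h3, P.ord_mul ((_root_.map_ne_zero _).2 hi1) (sub_ne_zero.2 (ht c)),
        P.ord_const hi1, hρ, hρ1, zero_add]
    · intro j _ hji
      have h3 := hi3 j hji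
      have h4 : el (α j) (β j) x y = algebraMap ℂ L (κ j + σ j * c) +
          algebraMap ℂ L (σ j) * (t - algebraMap ℂ L c) := by
        rw [hel, map_add, map_mul]
        ring
      rw [h4]
      by_cases hσ : σ j = 0
      · have h3' : κ j ≠ 0 := by rwa [hσ, zero_mul, add_zero] at h3
        rw [hσ, map_zero, zero_mul, add_zero, zero_mul, add_zero, P.ord_const h3']
      · have h5 : algebraMap ℂ L (σ j) * (t - algebraMap ℂ L c) ≠ 0 :=
          mul_ne_zero ((_root_.map_ne_zero _).2 hσ) (sub_ne_zero.2 (ht c))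
        rw [(P.ord_add_eq ((_root_.map_ne_zero _).2 h3) h5 (by
          rw [P.ord_const h3, P.ord_mul ((_root_.map_ne_zero _).2 hσ) (sub_ne_zero.2 (ht c)),
            P.ord_const hσ, hρ]
          omega)).2, P.ord_const h3]
    · intro h
      exact absurd (Finset.mem_univ i) h

/-- vanishing Wronskian: the curve is a line -/
theorem is_line {D : Derivation ℂ L L} (hker : ∀ f, D f = 0 → ∃ c : ℂ, f = algebraMap ℂ L c)
    {x y : L} (hD : D x ≠ 0 ∨ D y ≠ 0) (hW : D x * D (D y) - D (D x) * D y = 0) :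
    ∃ (a0 a1 b0 b1 : ℂ) (t : L), (a1 ≠ 0 ∨ b1 ≠ 0) ∧ D t ≠ 0 ∧
      x = algebraMap ℂ L a0 + algebraMap ℂ L a1 * t ∧
      y = algebraMap ℂ L b0 + algebraMap ℂ L b1 * t := by
  by_cases hx : D x = 0
  · obtain ⟨c, hc⟩ := hker x hx
    refine ⟨c, 0, 0, 1, y, Or.inr one_ne_zero, hD.resolve_left (fun h => h hx), ?_, ?_⟩
    · rw [hc, map_zero, zero_mul, add_zero]
    · rw [map_zero, map_one, one_mul, zero_add]
  · have h1 : D (D y / D x) = 0 := by
      have h2 : D y = D y / D x * D x := (div_mul_cancel₀ _ hx).symm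
      have h3 := congrArg D h2
      rw [D.leibniz, smul_eq_mul, smul_eq_mul] at h3
      have h4 : D x * (D x * D (D y / D x)) = 0 := by
        have h5 : D x * (D y / D x * D (D x)) = D y * D (D x) := by
          field_simp
        linear_combination hW + (-D x) * h3 - h5 
      exact ((mul_eq_zero.1 ((mul_eq_zero.1 h4).resolve_left hx)).resolve_left hx)
    obtain ⟨l, hl⟩ := hker _ h1
    have h2 : D (y - algebraMap ℂ L l * x) = 0 := by
      rw [map_sub, D.leibniz, D.map_algebraMap, smul_zero, add_zero, smul_eq_mul, ← hl,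
        div_mul_cancel₀ _ hx, sub_self]
    obtain ⟨m, hm⟩ := hker _ h2
    refine ⟨0, 1, m, l, x, Or.inl one_ne_zero, hx, ?_, ?_⟩
    · rw [map_zero, map_one, one_mul, zero_add]
    · rw [← hm]; ring

theorem an_line {α β : Fin p → ℂ} (hG : Gp α β) {A : MvPolynomial (Fin 2) ℂ}
    (hp : A.totalDegree + 10 ≤ p) {x y : MK (exD 1 one_pos)}
    (hW : MDer (exD 1 one_pos) x * MDer (exD 1 one_pos) (MDer (exD 1 one_pos) y) -
      MDer (exD 1 one_pos) (MDer (exD 1 one_pos) x) * MDer (exD 1 one_pos) y = 0)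
    (hJ : MvPolynomial.aeval ![x, y] (JJ α β) ≠ 0) (hA : MvPolynomial.aeval ![x, y] A ≠ 0)
    (hl : ∀ i, el (α i) (β i) x y ≠ 0)
    (hst : ∀ (z : ℂ) (hz : z ∈ (exD 1 one_pos).U), Ctc α β A (PL hz) x y) :
    x ∈ Minf 1 one_pos ∧ y ∈ Minf 1 one_pos := by
  have hker : ∀ f, MDer (exD 1 one_pos) f = 0 →
      ∃ c : ℂ, f = algebraMap ℂ (MK (exD 1 one_pos)) c := fun f hf => MDer_eq_zero hf
  by_cases hD : MDer (exD 1 one_pos) x ≠ 0 ∨ MDer (exD 1 one_pos) y ≠ 0
  · obtain ⟨a0, a1, b0, b1, t, hab, htD, hx, hy⟩ := is_line hker hD hW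
    obtain ⟨B, hB1, hB2, hB3⟩ := exists_B hG hp hab
      (Pool.Agent.K9h12.SH.const_of_eq htD) hx hy hJ hA hl
    have ht := Pool.Agent.K9h12.SH.an_const hB1 (by omega) htD
      (fun z hz h => hB3 _ (hst z hz) h)
    constructor
    · rw [hx]
      exact add_mem (algebraMap_mem _ _) (mul_mem (algebraMap_mem _ _) ht)
    · rw [hy]
      exact add_mem (algebraMap_mem _ _) (mul_mem (algebraMap_mem _ _) ht)
  · push Not at hD
    obtain ⟨c, hc⟩ := hker x hD.1
    obtain ⟨c', hc'⟩ := hker y hD.2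
    rw [hc, hc']
    exact ⟨algebraMap_mem _ _, algebraMap_mem _ _⟩

theorem cur_line [IsFF ℂ L] {α β : Fin p → ℂ} (hG : Gp α β) {A : MvPolynomial (Fin 2) ℂ}
    (hp : A.totalDegree + 10 ≤ p) {x y : L} {D : Derivation ℂ L L}
    (hD : D x ≠ 0 ∨ D y ≠ 0) (hW : D x * D (D y) - D (D x) * D y = 0)
    (hJ : MvPolynomial.aeval ![x, y] (JJ α β) ≠ 0) (hA : MvPolynomial.aeval ![x, y] A ≠ 0)
    (hl : ∀ i, el (α i) (β i) x y ≠ 0) {Bd : Place ℂ L → Prop}
    (hst : ∀ P, ¬ Bd P → Ctc α β A P x y) : LogGeneralType ℂ L 1 Bd := by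
  have hD0 : D ≠ 0 := by
    rintro rfl
    rcases hD with h | h
    · exact h rfl
    · exact h rfl
  have hker : ∀ f, D f = 0 → ∃ c : ℂ, f = algebraMap ℂ L c := by
    intro f hf
    by_contra hcon
    refine der_ne_zero hD0 (t := f) (fun h => hcon (const_of_algebraic h)) hf
  obtain ⟨a0, a1, b0, b1, t, hab, htD, hx, hy⟩ := is_line hker hD hW
  obtain ⟨B, hB1, hB2, hB3⟩ := exists_B hG hp hab
    (Pool.Agent.K9h12.SH.const_of_eq htD) hx hy hJ hA hl
  exact Pool.Agent.K9h12.SH.cur_const hB1 hB2 htD fun P hP h => hB3 P (hst P hP) h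

end Pool.Agent.K9h12.LN
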