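import Pool.Agent.K9h12.LN.Nsc
import Pool.Agent.K9h12.LN.An
import Pool.Agent.K9h12.LN.Cur
import Pool.Agent.K9h12.LN.One
import Pool.Agent.K9h12.LN.High
import Pool.Agent.K9h12.LN.Gen

/-!
Maps without simple contacts with general lines: the main theorem.
-/

set_option autoImplicit false

open FF

namespace Pool.Agent.K9h12.LN

open Pool.Agent.W603.LV Pool.Agent.W602.GT Pool.Agent.W603.BP Pool.Agent.W601.PH
  Pool.Agent.Y190.AN Pool.Agent.K9h12.FR

variable {p : ℕ}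

theorem jn_ne {s t : ℂ × ℂ} (h : s ≠ t) : jn s t ≠ 0 := by
  intro h0
  have h1 := congrArg (MvPolynomial.eval ![s.1 + 1, s.2]) h0
  have h2 := congrArg (MvPolynomial.eval ![s.1, s.2 + 1]) h0
  simp only [jn, map_sub, map_mul, MvPolynomial.eval_X, MvPolynomial.eval_C,
    Matrix.cons_val_zero, Matrix.cons_val_one, map_zero] at h1 h2
  apply h
  refine Prod.ext ?_ ?_
  · linear_combination h2
  · linear_combination -h1

theorem JJ_ne (α β : Fin p → ℂ) : JJ α β ≠ 0 := by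
  unfold JJ
  refine Finset.prod_ne_zero_iff.2 fun q _ => ?_
  split_ifs with h
  · exact one_ne_zero
  · exact jn_ne h

theorem el_ne (a b : ℂ) : el a b (MvPolynomial.X 0 : MvPolynomial (Fin 2) ℂ)
    (MvPolynomial.X 1) ≠ 0 := by
  intro h0
  have h1 := congrArg (MvPolynomial.eval ![0, b + 1]) h0
  simp [el, MvPolynomial.algebraMap_eq] at h1

/-- the data of a good arrangement of lines -/
structure Gd (α β : Fin p → ℂ) (H : MvPolynomial (Fin 2) ℂ) (S : Finset (TT p)) : Prop where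
  gp : Gp α β
  fam : ∀ f ∈ S, Fam (289 * p / 50 + 3000) 750 f
  elim : ∀ (K : Type) [Field K] [Algebra ℂ K] (z : Fin 4 → K),
    MvPolynomial.aeval ![z 0, z 1] H ≠ 0 → z 3 ≠ 0 →
    ∃ f ∈ S, MvPolynomial.aeval (vals α β z) f ≠ 0

theorem Gd.jet {α β : Fin p → ℂ} {H : MvPolynomial (Fin 2) ℂ} {S : Finset (TT p)}
    (h : Gd α β H S) {L : Type} [Field L] [Algebra ℂ L] {x y : L} {D : Derivation ℂ L L}
    (hW : SH.W D x y ≠ 0) (hx : D x ≠ 0) (hH : MvPolynomial.aeval ![x, y] H ≠ 0) :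
    ∃ f ∈ S, F1 (289 * p / 50 + 3000) 750 α β f D x y ≠ 0 := by
  obtain ⟨f, hf, hne⟩ := h.elim L ![x, y, D y / D x, SH.W D x y / D x ^ 3] hH
    (div_ne_zero hW (pow_ne_zero _ hx))
  refine ⟨f, hf, ?_⟩
  unfold F1
  rw [Fx_eq (h.fam f hf).jt hx]
  exact mul_ne_zero (pow_ne_zero _ hx) hne

/-- the numbers -/
theorem num_ok {d : ℕ} (hp : 20600 + 82 * d ≤ p) : ∃ κ : ℕ, 0 < κ ∧
    6 * p = (289 * p / 50 + 3000) + 2 * 750 + 5 * 6 + 3 * 6 * d + κ := by
  refine ⟨6 * p - ((289 * p / 50 + 3000) + 2 * 750 + 5 * 6 + 3 * 6 * d), ?_, ?_⟩ <;> omega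

/-- **Maps from the punctured disc.** -/
theorem Gd.han {α β : Fin p → ℂ} {H : MvPolynomial (Fin 2) ℂ} {S : Finset (TT p)}
    (h : Gd α β H S) {A : MvPolynomial (Fin 2) ℂ} (hp : 20600 + 82 * A.totalDegree ≤ p)
    {x y : MK (exD 1 one_pos)} (hl : ∀ i, el (α i) (β i) x y ≠ 0)
    (hJ : MvPolynomial.aeval ![x, y] (JJ α β) ≠ 0) (hH : MvPolynomial.aeval ![x, y] H ≠ 0)
    (hA : MvPolynomial.aeval ![x, y] A ≠ 0)
    (hst : ∀ (z : ℂ) (hz : z ∈ (exD 1 one_pos).U), Ctc α β A (PL hz) x y) :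
    x ∈ Minf 1 one_pos ∧ y ∈ Minf 1 one_pos := by
  by_cases hW : SH.W (MDer (exD 1 one_pos)) x y = 0
  · exact an_line h.gp (by omega) hW hJ hA hl hst
  · by_cases hx : MDer (exD 1 one_pos) x = 0
    · exfalso
      apply hW
      unfold SH.W
      rw [hx, map_zero, zero_mul, zero_mul, sub_zero]
    · obtain ⟨f, hf, hne⟩ := h.jet hW hx hH
      obtain ⟨κ, hκ0, hκ⟩ := num_ok hp
      exact an_main (by omega) h.gp (by omega) (h.fam f hf) le_rfl hκ hκ0 hl hne hW hA hst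

/-- **Curves and surfaces.** -/
theorem Gd.halg {α β : Fin p → ℂ} {H : MvPolynomial (Fin 2) ℂ} {S : Finset (TT p)}
    (h : Gd α β H S) {A : MvPolynomial (Fin 2) ℂ} (hp : 20600 + 82 * A.totalDegree ≤ p)
    {L : Type} [Field L] [Algebra ℂ L] {d : ℕ} {x : Fin 2 → L} {Bd : FF.Place ℂ L → Prop}
    (hess : Algebra.EssFiniteType ℂ L) (hd : 0 < d) (htr : Algebra.trdeg ℂ L = d)
    (halg : Algebra.IsAlgebraic (IntermediateField.adjoin ℂ (Set.range x)) L)
    (hl : ∀ i, el (α i) (β i) (x 0) (x 1) ≠ 0)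
    (hJ : MvPolynomial.aeval ![x 0, x 1] (JJ α β) ≠ 0)
    (hH : MvPolynomial.aeval ![x 0, x 1] H ≠ 0)
    (hA : MvPolynomial.aeval ![x 0, x 1] A ≠ 0) (hst : ∀ P, ¬ Bd P → Ctc α β A P (x 0) (x 1)) :
    LogGeneralType ℂ L d Bd := by
  have halg' : Algebra.IsAlgebraic (Algebra.adjoin ℂ (Set.range x)) L := by
    rw [← IntermediateField.isAlgebraic_adjoin_iff_top]
    exact halg
  have hd2 : d ≤ 2 := by
    have h1 := Algebra.IsAlgebraic.trdeg_le_cardinalMk ℂ (A := L) (Set.range x)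
    rw [htr] at h1
    have h2 : Cardinal.mk (Set.range x) ≤ (2 : ℕ) := by
      refine Cardinal.mk_range_le.trans ?_
      simp
    exact_mod_cast h1.trans h2
  obtain rfl | rfl : d = 2 ∨ d = 1 := by omega
  · have hx : IsTranscendenceBasis ℂ x := by
      refine Algebra.IsAlgebraic.isTranscendenceBasis_of_lift_le_trdeg_of_finite ℂ x ?_
      rw [htr]
      simp
    exact high_lines h.gp (by omega) hx (fun h0 => hA (by rw [h0, map_zero])) hst
  · have htr' : Algebra.trdeg ℂ L = 1 := by simpa using htr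
    have : IsFF ℂ L := ⟨hess, htr'⟩
    obtain ⟨s, hs⟩ := exists_isTranscendenceBasis ℂ L
    obtain ⟨D0, hD0⟩ := exists_der (fun i : s => (i : L)) hs fun _ => (1 : L)
    have hD : D0 ≠ 0 := by
      rintro rfl
      have hne : s.Nonempty := by
        rw [Set.nonempty_iff_ne_empty]
        rintro rfl
        have h1 := hs.cardinalMk_eq_trdeg
        rw [htr'] at h1
        simp at h1
      obtain ⟨t, ht⟩ := hne
      exact zero_ne_one (hD0 ⟨t, ht⟩)
    have hDx : D0 (x 0) ≠ 0 ∨ D0 (x 1) ≠ 0 := by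
      by_contra hcon
      push Not at hcon
      refine hD (der_eq_zero D0 (Set.range x) halg ?_)
      rintro _ ⟨j, rfl⟩
      fin_cases j
      · exact hcon.1
      · exact hcon.2
    by_cases hW : SH.W D0 (x 0) (x 1) = 0
    · exact cur_line h.gp (by omega) hDx hW hJ hA hl hst
    · by_cases hx : D0 (x 0) = 0
      · exfalso
        apply hW
        unfold SH.W
        rw [hx, map_zero, zero_mul, zero_mul, sub_zero]
      · obtain ⟨f, hf, hne⟩ := h.jet hW hx hH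
        obtain ⟨κ, hκ0, hκ⟩ := num_ok hp
        exact cur_main h.gp (by omega) (h.fam f hf) le_rfl hκ hκ0 hx hl hne hW hA hst

/-- the equation of the exceptional curve -/
noncomputable def HH (α β : Fin p → ℂ) (H : MvPolynomial (Fin 2) ℂ) : MvPolynomial (Fin 2) ℂ :=
  H * JJ α β * ∏ i, el (α i) (β i) (MvPolynomial.X 0) (MvPolynomial.X 1)

theorem HH_ne (α β : Fin p → ℂ) {H : MvPolynomial (Fin 2) ℂ} (hH : H ≠ 0) : HH α β H ≠ 0 :=
  mul_ne_zero (mul_ne_zero hH (JJ_ne α β)) (Finset.prod_ne_zero_iff.2 fun i _ => el_ne _ _)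

theorem vec2 {M : Type} (z : Fin 2 → M) : ![z 0, z 1] = z := by
  funext j
  fin_cases j <;> rfl

theorem HH_val {α β : Fin p → ℂ} {H : MvPolynomial (Fin 2) ℂ} {L : Type} [Field L] [Algebra ℂ L]
    (z : Fin 2 → L) : MvPolynomial.aeval z (HH α β H) ≠ 0 ↔
      MvPolynomial.aeval ![z 0, z 1] H ≠ 0 ∧ MvPolynomial.aeval ![z 0, z 1] (JJ α β) ≠ 0 ∧
      ∀ i, el (α i) (β i) (z 0) (z 1) ≠ 0 := by
  have h1 : ∀ i, MvPolynomial.aeval z (el (α i) (β i) (MvPolynomial.X 0 : MvPolynomial (Fin 2) ℂ)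
      (MvPolynomial.X 1)) = el (α i) (β i) (z 0) (z 1) := fun i => by
    simp only [el, map_sub, map_mul, MvPolynomial.aeval_X, AlgHom.commutes]
  rw [vec2]
  simp only [HH, map_mul, map_prod, mul_ne_zero_iff, Finset.prod_ne_zero_iff, h1]
  simp [and_assoc]

/-- **The main theorem.** -/
theorem Gd.four {α β : Fin p → ℂ} {H : MvPolynomial (Fin 2) ℂ} {S : Finset (TT p)}
    (h : Gd α β H S) {A : MvPolynomial (Fin 2) ℂ} (hp : 20600 + 82 * A.totalDegree ≤ p)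
    {N : ℕ} {X D : PSet N} {K : Type} [Field K] [Algebra ℂ K] {a : Fin (N + 1) → K}
    (hK : X.FunctionField K a) (hD : ¬ D.Mem a) {d : ℕ} (hd : 0 < d)
    (htr : Algebra.trdeg ℂ K = d) {x : Fin 2 → K}
    (halg : Algebra.IsAlgebraic (IntermediateField.adjoin ℂ (Set.range x)) K)
    (hH : MvPolynomial.aeval x (HH α β H) ≠ 0) (hA : MvPolynomial.aeval x A ≠ 0)
    (hns : NoSimpleContact α β A X D a x) : Four X D K a d := by
  obtain ⟨δ, g, G0, hg, hG0, hG0a, hg0, hxg, hc⟩ := hns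
  have ex : (fun i : Fin 2 => MvPolynomial.aeval a (g i.succ) / MvPolynomial.aeval a (g 0)) = x :=
    funext fun i => (hxg i).symm
  have hval : ∀ {L : Type} [Field L] [Algebra ℂ L] (z : Fin 2 → L),
      MvPolynomial.aeval z (HH α β H * A) ≠ 0 ↔ (MvPolynomial.aeval ![z 0, z 1] H ≠ 0 ∧
      MvPolynomial.aeval ![z 0, z 1] (JJ α β) ≠ 0 ∧ ∀ i, el (α i) (β i) (z 0) (z 1) ≠ 0) ∧
      MvPolynomial.aeval ![z 0, z 1] A ≠ 0 := by
    intro L _ _ z
    rw [map_mul, mul_ne_zero_iff, HH_val, vec2]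
  refine NV.transfer hg (fun L _ _ v z => Ctc α β A v (z 0) (z 1)) hG0 (H := HH α β H * A)
    ?_ ?_ ?_ hK hD hG0a hg0 (by rw [ex]; exact halg)
    (by rw [ex, map_mul]; exact mul_ne_zero hH hA) hd htr
  · intro L _ _ a' ha' h1 h2 h3 v hv hx hy hA0
    obtain ⟨⟨_, _, h4⟩, h5⟩ := (hval _).1 h3
    have e2 := vec2 fun i : Fin 2 => MvPolynomial.aeval a' (g i.succ) / MvPolynomial.aeval a' (g 0)
    rw [e2] at h5 hA0
    refine hc L a' _ (fun _ => rfl) ha' h1 h2 v hv (fun j => ?_) h4 h5 hA0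
    fin_cases j
    · exact hx
    · exact hy
  · intro z hz hst
    obtain ⟨⟨z1, z2, z3⟩, z4⟩ := (hval _).1 hz
    have h1 := h.han hp z3 z2 z1 z4 hst
    intro j
    fin_cases j
    · exact h1.1
    · exact h1.2
  · intro L _ _ d' z Bd hess hd' htr' halg' hz hst
    obtain ⟨⟨z1, z2, z3⟩, z4⟩ := (hval _).1 hz
    exact h.halg hp hess hd' htr' halg' z3 z2 z1 z4 hst

/-- **General lines.** -/
theorem exists_good (hp : 0 < p) : ∃ Ψ : MvPolynomial (Fin p ⊕ Fin p) ℂ, Ψ ≠ 0 ∧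
    ∀ α β : Fin p → ℂ, MvPolynomial.eval (Sum.elim α β) Ψ ≠ 0 →
      ∃ H : MvPolynomial (Fin 2) ℂ, H ≠ 0 ∧ ∃ S : Finset (TT p), Gd α β H S := by
  obtain ⟨Ψ, hΨ, h1⟩ := exists_forms hp
  obtain ⟨Ψ', hΨ', h2⟩ := exists_gp p
  refine ⟨Ψ * Ψ', mul_ne_zero hΨ hΨ', fun α β hαβ => ?_⟩
  rw [map_mul] at hαβ
  obtain ⟨H, hH, S, hS, hel⟩ := h1 α β (left_ne_zero_of_mul hαβ)
  exact ⟨H, hH, S, h2 α β (right_ne_zero_of_mul hαβ), hS, hel⟩

end Pool.Agent.K9h12.LN
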