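import Pool.Agent.K9h12.LN.Spec
import Pool.Agent.K9h12.LN.Defs
import Pool.Agent.K9h12.SG.Psi2

/-!
The jet differentials attached to the forms.
-/

set_option autoImplicit false

open MvPolynomial

namespace Pool.Agent.K9h12.LN

variable {p : ℕ}

/-- the coefficients of a form at given lines -/
noncomputable def cs (α β : Fin p → ℂ) (f : TT p) (μ : VV p →₀ ℕ) : ℂ :=
  coeff μ f * ((∏ i, α i ^ μ (Sum.inr (Sum.inl i))) * ∏ i, β i ^ μ (Sum.inr (Sum.inr i)))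

theorem aeval_vals {K : Type} [Field K] [Algebra ℂ K] (α β : Fin p → ℂ) (z : Fin 4 → K) (f : TT p) :
    aeval (vals α β z) f = ∑ μ ∈ f.support, algebraMap ℂ K (cs α β f μ) *
      ((z 0 ^ μ (Sum.inl 0) * z 1 ^ μ (Sum.inl 1)) *
        (z 2 ^ μ (Sum.inl 2) * z 3 ^ μ (Sum.inl 3))) := by
  rw [aeval_def, eval₂_eq']
  refine Finset.sum_congr rfl fun μ _ => ?_
  rw [Fintype.prod_sum_type, Fintype.prod_sum_type, Fin.prod_univ_four]
  unfold cs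
  rw [map_mul, map_mul, map_prod, map_prod]
  simp only [map_pow]
  have e1 : ∀ k, vals α β z (Sum.inl k) = z k := fun k => rfl
  have e2 : ∀ i, vals α β z (Sum.inr (Sum.inl i)) = algebraMap ℂ K (α i) := fun i => rfl
  have e3 : ∀ i, vals α β z (Sum.inr (Sum.inr i)) = algebraMap ℂ K (β i) := fun i => rfl
  simp only [e1, e2, e3]
  ring

section

variable {R : Type} [CommRing R] [Algebra ℂ R]

/-- the jet differential of a form -/
noncomputable def Fx (N m : ℕ) (α β : Fin p → ℂ) (f : TT p) (u : Fin 3 → R) (w1 w2 W : R) : R :=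
  ∑ μ ∈ f.support, algebraMap ℂ R (cs α β f μ) *
    ((u 1 ^ μ (Sum.inl 0) * u 2 ^ μ (Sum.inl 1) * u 0 ^ (N - μ (Sum.inl 0) - μ (Sum.inl 1))) *
    (w1 ^ (m - μ (Sum.inl 2) - 3 * μ (Sum.inl 3)) * w2 ^ μ (Sum.inl 2) *
      (W * u 0 ^ 3) ^ μ (Sum.inl 3)))

/-- the homogeneous form of a polynomial in two variables -/
noncomputable def hA (d : ℕ) (A : MvPolynomial (Fin 2) ℂ) (u : Fin 3 → R) : R :=
  ∑ ν ∈ A.support, algebraMap ℂ R (coeff ν A) *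
    (u 1 ^ ν 0 * u 2 ^ ν 1 * u 0 ^ (d - ν 0 - ν 1))

/-- the auxiliary form -/
noncomputable def Ax (N m c d : ℕ) (α β : Fin p → ℂ) (f : TT p) (A : MvPolynomial (Fin 2) ℂ)
    (u : Fin 3 → R) (w1 w2 W : R) : R :=
  Fx N m α β f u w1 w2 W * W ^ c * u 0 ^ (2 * c) * hA d A u ^ (3 * c)

theorem hA_map {S : Type} [CommRing S] [Algebra ℂ S] (φ : R →ₐ[ℂ] S) (d : ℕ)
    (A : MvPolynomial (Fin 2) ℂ) (u : Fin 3 → R) :
    φ (hA d A u) = hA d A fun j => φ (u j) := by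
  unfold hA
  simp only [map_sum, map_mul, map_pow, φ.commutes]

theorem Ax_map {S : Type} [CommRing S] [Algebra ℂ S] (φ : R →ₐ[ℂ] S) (N m c d : ℕ)
    (α β : Fin p → ℂ) (f : TT p) (A : MvPolynomial (Fin 2) ℂ) (u : Fin 3 → R) (w1 w2 W : R) :
    φ (Ax N m c d α β f A u w1 w2 W) =
      Ax N m c d α β f A (fun j => φ (u j)) (φ w1) (φ w2) (φ W) := by
  unfold Ax Fx
  simp only [map_sum, map_mul, map_pow, φ.commutes, hA_map]

theorem Fx_scale {N m : ℕ} {α β : Fin p → ℂ} {f : TT p} (hD : Up wD N f) (hJ : Up wJ m f)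
    {u v : Fin 3 → R} {s w1 w2 W x1 x2 X : R} (hu : ∀ j, u j = s * v j) (h1 : w1 = s ^ 2 * x1)
    (h2 : w2 = s ^ 2 * x2) (h3 : W = s ^ 3 * X) :
    Fx N m α β f u w1 w2 W = s ^ (N + 2 * m) * Fx N m α β f v x1 x2 X := by
  unfold Fx
  rw [Finset.mul_sum]
  refine Finset.sum_congr rfl fun μ hμ => ?_
  have e1 := hD μ hμ
  have e2 := hJ μ hμ
  rw [← wJ_nonneg] at e2
  have e3 : Finsupp.weight wD μ = μ (Sum.inl 0) + μ (Sum.inl 1) := by
    rw [Finsupp.weight_eq_sum]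
    simp [Fintype.sum_sum_type, Fin.sum_univ_four, wD, dv]
  rw [e3] at e1
  obtain ⟨a, ha⟩ : ∃ a, a = μ (Sum.inl 0) := ⟨_, rfl⟩
  obtain ⟨b, hb⟩ : ∃ b, b = μ (Sum.inl 1) := ⟨_, rfl⟩
  obtain ⟨k, hk⟩ : ∃ k, k = μ (Sum.inl 2) := ⟨_, rfl⟩
  obtain ⟨l, hl⟩ : ∃ l, l = μ (Sum.inl 3) := ⟨_, rfl⟩
  rw [← ha, ← hb] at e1
  rw [← hk, ← hl] at e2
  rw [← ha, ← hb, ← hk, ← hl]
  obtain ⟨n, hn⟩ : ∃ n, N = a + b + n := ⟨N - (a + b), by omega⟩
  obtain ⟨j, hj⟩ : ∃ j, m = k + 3 * l + j := ⟨m - (k + 3 * l), by omega⟩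
  rw [show N - a - b = n by omega, show m - k - 3 * l = j by omega, hu, hu, hu, h1, h2, h3,
    show N + 2 * m = a + b + n + (2 * j + 2 * k + 6 * l) by omega]
  simp only [mul_pow, pow_add, ← pow_mul]
  ring

theorem hA_scale {d : ℕ} {A : MvPolynomial (Fin 2) ℂ} (hA' : A.totalDegree ≤ d)
    {u v : Fin 3 → R} {s : R} (hu : ∀ j, u j = s * v j) : hA d A u = s ^ d * hA d A v := by
  unfold hA
  rw [Finset.mul_sum]
  refine Finset.sum_congr rfl fun ν hν => ?_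
  have h1 := (MvPolynomial.le_totalDegree hν).trans hA'
  rw [Finsupp.sum_fintype _ _ (fun _ => rfl), Fin.sum_univ_two] at h1
  obtain ⟨n, hn⟩ : ∃ n, d = ν 0 + ν 1 + n := ⟨d - (ν 0 + ν 1), by omega⟩
  rw [show d - ν 0 - ν 1 = n by omega, hu, hu, hu, hn]
  simp only [mul_pow, pow_add]
  ring

theorem Ax_scale {N m c d : ℕ} {α β : Fin p → ℂ} {f : TT p} {A : MvPolynomial (Fin 2) ℂ}
    (hD : Up wD N f) (hJ : Up wJ m f) (hA' : A.totalDegree ≤ d)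
    {u v : Fin 3 → R} {s w1 w2 W x1 x2 X : R} (hu : ∀ j, u j = s * v j) (h1 : w1 = s ^ 2 * x1)
    (h2 : w2 = s ^ 2 * x2) (h3 : W = s ^ 3 * X) :
    Ax N m c d α β f A u w1 w2 W = s ^ (N + 2 * m + 5 * c + 3 * c * d) *
      Ax N m c d α β f A v x1 x2 X := by
  unfold Ax
  rw [Fx_scale hD hJ hu h1 h2 h3, hA_scale hA' hu, hu 0, h3,
    show N + 2 * m + 5 * c + 3 * c * d = (N + 2 * m) + 3 * c + 2 * c + d * (3 * c) by ring]
  simp only [mul_pow, pow_add, ← pow_mul]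
  ring

end

theorem hA_one {K : Type} [Field K] [Algebra ℂ K] (d : ℕ) (A : MvPolynomial (Fin 2) ℂ) (x y : K) :
    hA d A ![1, x, y] = aeval ![x, y] A := by
  unfold hA
  rw [aeval_def, eval₂_eq']
  refine Finset.sum_congr rfl fun ν _ => ?_
  rw [Fin.prod_univ_two]
  simp

/-- the jet differential in terms of the slope and the curvature -/
theorem Fx_eq {K : Type} [Field K] [Algebra ℂ K] {N m : ℕ} {α β : Fin p → ℂ} {f : TT p}
    (hJ : Up wJ m f) {x y X Y W : K} (hX : X ≠ 0) :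
    Fx N m α β f ![1, x, y] X Y W = X ^ m * aeval (vals α β ![x, y, Y / X, W / X ^ 3]) f := by
  rw [aeval_vals, Finset.mul_sum]
  unfold Fx
  refine Finset.sum_congr rfl fun μ hμ => ?_
  have e2 := hJ μ hμ
  rw [← wJ_nonneg] at e2
  obtain ⟨k, hk⟩ : ∃ k, k = μ (Sum.inl 2) := ⟨_, rfl⟩
  obtain ⟨l, hl⟩ : ∃ l, l = μ (Sum.inl 3) := ⟨_, rfl⟩
  rw [← hk, ← hl] at e2
  rw [← hk, ← hl]
  obtain ⟨j, hj⟩ : ∃ j, m = k + 3 * l + j := ⟨m - (k + 3 * l), by omega⟩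
  rw [show m - k - 3 * l = j by omega, hj]
  simp only [Matrix.cons_val_zero, Matrix.cons_val_one, Matrix.cons_val, one_pow, mul_one, div_pow,
    pow_add]
  field_simp
  rw [← pow_mul]

end Pool.Agent.K9h12.LN
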