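import Pool.Agent.K9h12.LN.Frm
import Pool.Agent.K9h12.GP.Mer

/-!
The auxiliary form along a meromorphic map to the plane.
-/

set_option autoImplicit false

open Filter Metric Set Topology

namespace Pool.Agent.K9h12.LN

open Pool.Agent.K9h12.SH Pool.Agent.K9h12.AX Pool.Agent.Y190.AN Pool.Agent.K9h12.GP

variable {p : ℕ}

/-- the first minor of a map -/
noncomputable def w1f (u : ℂ → Fin 3 → ℂ) (z : ℂ) : ℂ :=
  u z 0 * deriv (fun w => u w 1) z - u z 1 * deriv (fun w => u w 0) z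

/-- the second minor of a map -/
noncomputable def w2f (u : ℂ → Fin 3 → ℂ) (z : ℂ) : ℂ :=
  u z 0 * deriv (fun w => u w 2) z - u z 2 * deriv (fun w => u w 0) z

/-- the auxiliary form along a map -/
noncomputable def Axf (N m c d : ℕ) (α β : Fin p → ℂ) (f : TT p) (A : MvPolynomial (Fin 2) ℂ)
    (u : ℂ → Fin 3 → ℂ) (z : ℂ) : ℂ :=
  Ax N m c d α β f A (u z) (w1f u z) (w2f u z) (W3 u z)

/-- the auxiliary form of a vector -/
noncomputable def AxA {L : Type} [Field L] [Algebra ℂ L] (N m c d : ℕ) (α β : Fin p → ℂ) (f : TT p)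
    (A : MvPolynomial (Fin 2) ℂ) (δ : Derivation ℂ L L) (u : Fin 3 → L) : L :=
  Ax N m c d α β f A u (u 0 * δ (u 1) - u 1 * δ (u 0)) (u 0 * δ (u 2) - u 2 * δ (u 0))
    (w3 u (fun j => δ (u j)) fun j => δ (δ (u j)))

/-- the auxiliary form in the ring of functions -/
theorem Axf_pi (N m c d : ℕ) (α β : Fin p → ℂ) (f : TT p) (A : MvPolynomial (Fin 2) ℂ)
    (u : ℂ → Fin 3 → ℂ) : Axf N m c d α β f A u =
    Ax (R := ℂ → ℂ) N m c d α β f A (fun j z => u z j) (w1f u) (w2f u) (W3 u) := by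
  funext z
  have h := Ax_map (Pi.evalAlgHom ℂ (fun _ : ℂ => ℂ) z) N m c d α β f A (fun j z => u z j)
    (w1f u) (w2f u) (W3 u)
  exact h.symm

variable {u : ℂ → Fin 3 → ℂ}

theorem w1f_an {z : ℂ} (hu : ∀ j, AnalyticAt ℂ (fun w => u w j) z) : AnalyticAt ℂ (w1f u) z :=
  ((hu 0).fun_mul (hu 1).deriv).fun_sub ((hu 1).fun_mul (hu 0).deriv)

theorem w2f_an {z : ℂ} (hu : ∀ j, AnalyticAt ℂ (fun w => u w j) z) : AnalyticAt ℂ (w2f u) z :=
  ((hu 0).fun_mul (hu 2).deriv).fun_sub ((hu 2).fun_mul (hu 0).deriv)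

theorem W3_an {z : ℂ} (hu : ∀ j, AnalyticAt ℂ (fun w => u w j) z) : AnalyticAt ℂ (W3 u) z := by
  have h1 : ∀ j, AnalyticAt ℂ (deriv fun w => u w j) z := fun j => (hu j).deriv
  have h2 : ∀ j, AnalyticAt ℂ (deriv (deriv fun w => u w j)) z := fun j => (h1 j).deriv
  have t : ∀ i j k, AnalyticAt ℂ (fun z => u z i * (deriv (fun w => u w j) z *
      deriv (deriv fun w => u w k) z - deriv (fun w => u w k) z *
      deriv (deriv fun w => u w j) z)) z := fun i j k =>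
    (hu i).fun_mul (((h1 j).fun_mul (h2 k)).fun_sub ((h1 k).fun_mul (h2 j)))
  exact ((t 0 1 2).fun_sub (t 1 0 2)).fun_add (t 2 0 1)

theorem Axf_an (N m c d : ℕ) (α β : Fin p → ℂ) (f : TT p) (A : MvPolynomial (Fin 2) ℂ) {z : ℂ}
    (hu : ∀ j, AnalyticAt ℂ (fun w => u w j) z) : AnalyticAt ℂ (Axf N m c d α β f A u) z := by
  rw [Axf_pi]
  let U : Fin 3 → anS z := fun j => ⟨fun w => u w j, hu j⟩
  let w1 : anS z := ⟨w1f u, w1f_an hu⟩
  let w2 : anS z := ⟨w2f u, w2f_an hu⟩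
  let W : anS z := ⟨W3 u, W3_an hu⟩
  have h := Ax_map (anS z).val N m c d α β f A U w1 w2 W
  have h1 := (Ax N m c d α β f A U w1 w2 W).2
  have h2 : ((Ax N m c d α β f A U w1 w2 W : anS z) : ℂ → ℂ) =
    Ax (R := ℂ → ℂ) N m c d α β f A (fun j z => u z j) (w1f u) (w2f u) (W3 u) := h
  rw [← h2]
  exact h1

/-- the class of a vector -/
noncomputable def clw {D : Dm} (hu : ∀ j, MeromorphicOn (fun z => u z j) D.U) (j : Fin 3) : MK D :=
  cl _ (hu j)

variable {Dd : Dm}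

theorem w1f_mero (hu : ∀ j, MeromorphicOn (fun z => u z j) Dd.U) : MeromorphicOn (w1f u) Dd.U :=
  fun z hz => ((hu 0 z hz).fun_mul (hu 1 z hz).deriv).fun_sub ((hu 1 z hz).fun_mul (hu 0 z hz).deriv)

theorem w2f_mero (hu : ∀ j, MeromorphicOn (fun z => u z j) Dd.U) : MeromorphicOn (w2f u) Dd.U :=
  fun z hz => ((hu 0 z hz).fun_mul (hu 2 z hz).deriv).fun_sub ((hu 2 z hz).fun_mul (hu 0 z hz).deriv)

theorem W3_mero (hu : ∀ j, MeromorphicOn (fun z => u z j) Dd.U) : MeromorphicOn (W3 u) Dd.U :=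
  fun z hz => by
  have h1 : ∀ j, MeromorphicAt (deriv fun w => u w j) z := fun j => (hu j z hz).deriv
  have h2 : ∀ j, MeromorphicAt (deriv (deriv fun w => u w j)) z := fun j => (h1 j).deriv
  have t : ∀ i j k, MeromorphicAt (fun z => u z i * (deriv (fun w => u w j) z *
      deriv (deriv fun w => u w k) z - deriv (fun w => u w k) z *
      deriv (deriv fun w => u w j) z)) z := fun i j k =>
    (hu i z hz).fun_mul (((h1 j).fun_mul (h2 k)).fun_sub ((h1 k).fun_mul (h2 j)))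
  exact ((t 0 1 2).fun_sub (t 1 0 2)).fun_add (t 2 0 1)

theorem Axf_cl (N m c d : ℕ) (α β : Fin p → ℂ) (f : TT p) (A : MvPolynomial (Fin 2) ℂ)
    (hu : ∀ j, MeromorphicOn (fun z => u z j) Dd.U) :
    ∃ h : MeromorphicOn (Axf N m c d α β f A u) Dd.U,
      cl _ h = AxA N m c d α β f A (MDer Dd) (clw hu) := by
  rw [Axf_pi]
  let U : Fin 3 → merS Dd := fun j => ⟨fun w => u w j, hu j⟩
  let U1 : Fin 3 → merS Dd := fun j => ⟨deriv fun w => u w j, (hu j).deriv⟩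
  let U2 : Fin 3 → merS Dd := fun j => ⟨deriv (deriv fun w => u w j), (hu j).deriv.deriv⟩
  let w1 : merS Dd := U 0 * U1 1 - U 1 * U1 0
  let w2 : merS Dd := U 0 * U1 2 - U 2 * U1 0
  let W : merS Dd := w3 U U1 U2
  have h := Ax_map (merS Dd).val N m c d α β f A U w1 w2 W
  have h1 := (Ax N m c d α β f A U w1 w2 W).2
  have h2 : ((Ax N m c d α β f A U w1 w2 W : merS Dd) : ℂ → ℂ) =
    Ax (R := ℂ → ℂ) N m c d α β f A (fun j z => u z j) (w1f u) (w2f u) (W3 u) := h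
  have h3 := Ax_map (clH Dd) N m c d α β f A U w1 w2 W
  refine ⟨h2 ▸ h1, ?_⟩
  have h4 : cl _ (h2 ▸ h1 : MeromorphicOn (Ax (R := ℂ → ℂ) N m c d α β f A (fun j z => u z j)
      (w1f u) (w2f u) (W3 u)) Dd.U) = clH Dd (Ax N m c d α β f A U w1 w2 W) := by
    change _ = cl _ _
    congr 1
    exact h2.symm
  rw [h4, h3]
  have e0 : ∀ j, clH Dd (U j) = clw hu j := fun j => rfl
  have e1 : ∀ j, clH Dd (U1 j) = MDer Dd (clw hu j) := fun j => cl_deriv (hu j) _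
  have e2 : ∀ j, clH Dd (U2 j) = MDer Dd (MDer Dd (clw hu j)) := fun j => by
    rw [← e1]
    exact cl_deriv (hu j).deriv _
  have e3 : clH Dd W = w3 (clw hu) (fun j => MDer Dd (clw hu j))
      (fun j => MDer Dd (MDer Dd (clw hu j))) := by
    simp only [W, w3, map_add, map_sub, map_mul, e0, e1, e2]
  have e4 : clH Dd w1 = clw hu 0 * MDer Dd (clw hu 1) - clw hu 1 * MDer Dd (clw hu 0) := by
    simp only [w1, map_sub, map_mul, e0, e1]
  have e5 : clH Dd w2 = clw hu 0 * MDer Dd (clw hu 2) - clw hu 2 * MDer Dd (clw hu 0) := by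
    simp only [w2, map_sub, map_mul, e0, e1]
  rw [e3, e4, e5]
  rfl

/-- the weights -/
def cl1 (c : ℕ) (i : Fin (p + 1)) : ℕ := Fin.cases 0 (fun _ => c) i

theorem cl1_zero (c : ℕ) : cl1 (p := p) c 0 = 0 := rfl

theorem cl1_succ (c : ℕ) (i : Fin p) : cl1 c i.succ = c := rfl

end Pool.Agent.K9h12.LN
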