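import Pool.Agent.K9h12.LN.Loc
import Pool.Agent.K9h12.LN.Mer

/-!
The orders of the auxiliary form at germs of curves, also at infinity.
-/

set_option autoImplicit false

open FF

namespace Pool.Agent.K9h12.LN

open Pool.Agent.W603.LV Pool.Agent.W602.GT Pool.Agent.K9h12.SH

variable {p : ℕ} {L : Type} [Field L] [Algebra ℂ L] {P : Place ℂ L} {D : Derivation ℂ L L}

theorem eh_eq {u : Fin 3 → L} {x y : L} (hux : u 1 = u 0 * x) (huy : u 2 = u 0 * y) (a b : ℂ) :
    eh a b u = u 0 * el a b x y := by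
  unfold eh el
  rw [hux, huy]
  ring

/-- the auxiliary form in affine coordinates -/
theorem AxA_eq {N m c d : ℕ} {α β : Fin p → ℂ} {f : TT p} {A : MvPolynomial (Fin 2) ℂ}
    (hD : Up wD N f) (hJ : Up wJ m f) (hA' : A.totalDegree ≤ d) (D : Derivation ℂ L L)
    {u : Fin 3 → L} {x y : L} (hux : u 1 = u 0 * x) (huy : u 2 = u 0 * y) :
    AxA N m c d α β f A D u = u 0 ^ (N + 2 * m + 5 * c + 3 * c * d) *
      (F1 N m α β f D x y * SH.W D x y ^ c * MvPolynomial.aeval ![x, y] A ^ (3 * c)) := by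
  have hu : ∀ j, u j = u 0 * (![1, x, y] : Fin 3 → L) j := fun j => by
    fin_cases j
    · simp
    · exact hux
    · exact huy
  have e1 : D (u 1) = D (u 0) * x + u 0 * D x := by
    rw [hux, D.leibniz]
    simp only [smul_eq_mul]
    ring
  have e2 : D (u 2) = D (u 0) * y + u 0 * D y := by
    rw [huy, D.leibniz]
    simp only [smul_eq_mul]
    ring
  have f1 : D (D (u 1)) = D (D (u 0)) * x + 2 * D (u 0) * D x + u 0 * D (D x) := by
    rw [e1, map_add, D.leibniz, D.leibniz]
    simp only [smul_eq_mul]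
    ring
  have f2 : D (D (u 2)) = D (D (u 0)) * y + 2 * D (u 0) * D y + u 0 * D (D y) := by
    rw [e2, map_add, D.leibniz, D.leibniz]
    simp only [smul_eq_mul]
    ring
  unfold AxA
  rw [Ax_scale hD hJ hA' (s := u 0) (x1 := D x) (x2 := D y) (X := SH.W D x y) hu
    (by rw [e1, hux]; ring) (by rw [e2, huy]; ring) ?_]
  · unfold Ax
    rw [hA_one]
    unfold F1
    simp only [Matrix.cons_val_zero, one_pow, mul_one]
  · unfold w3 SH.W
    simp only [f1, f2]
    rw [e1, e2, hux, huy]
    ring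

theorem ge_Fx {N m : ℕ} {α β : Fin p → ℂ} {f : TT p} {u : Fin 3 → L} {w1 w2 W : L}
    (hu : ∀ j, Ge P 0 (u j)) (h1 : Ge P 0 w1) (h2 : Ge P 0 w2) (h3 : Ge P 0 W) :
    Ge P 0 (Fx N m α β f u w1 w2 W) := by
  unfold Fx
  refine Ge.sum _ _ fun μ hμ => ?_
  refine ((Ge.const _).mul (((((hu 1).pow _).mul ((hu 2).pow _)).mul ((hu 0).pow _)).mul
    (((h1.pow _).mul (h2.pow _)).mul ((h3.mul ((hu 0).pow 3)).pow _)))).mono ?_
  push_cast
  simp

theorem ge_hA (d : ℕ) (A : MvPolynomial (Fin 2) ℂ) {u : Fin 3 → L} (hu : ∀ j, Ge P 0 (u j)) :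
    Ge P 0 (hA d A u) := by
  unfold hA
  refine Ge.sum _ _ fun ν hν => ?_
  refine ((Ge.const _).mul ((((hu 1).pow _).mul ((hu 2).pow _)).mul ((hu 0).pow _))).mono ?_
  simp

/-- **The order of the auxiliary form.** -/
theorem loc_ax (h : Nice P D) {α β : Fin p → ℂ} (hG : Gp α β) {N m : ℕ} (hm : 54 ≤ m) {f : TT p}
    (hf : Fam N m f) {A : MvPolynomial (Fin 2) ℂ} {d : ℕ} (hd : A.totalDegree ≤ d) {x y : L}
    {u : Fin 3 → L} (hu0 : u 0 ≠ 0) (hux : u 1 = u 0 * x) (huy : u 2 = u 0 * y)
    (hu : ∀ j, Ge P 0 (u j)) (hprim : ∃ j, u j ≠ 0 ∧ P.ord (u j) = 0)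
    (hl : ∀ i, el (α i) (β i) x y ≠ 0) (hF : F1 N m α β f D x y ≠ 0) (hW : SH.W D x y ≠ 0)
    (hA : MvPolynomial.aeval ![x, y] A ≠ 0) :
    AxA N m 6 d α β f A D u ≠ 0 ∧
    6 * ∑ i, P.ord (eh (α i) (β i) u) - 6 ≤ P.ord (AxA N m 6 d α β f A D u) ∧
    (Ctc α β A P x y → 6 * ∑ i, P.ord (eh (α i) (β i) u) ≤
      P.ord (AxA N m 6 d α β f A D u)) := by
  classical
  have hAx := AxA_eq (c := 6) (α := α) (β := β) hf.dg hf.jt hd D hux huy
  set n := N + 2 * m + 5 * 6 + 3 * 6 * d with hn
  have h1 : SH.W D x y ^ 6 ≠ 0 := pow_ne_zero _ hW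
  have h2 : MvPolynomial.aeval ![x, y] A ^ (3 * 6) ≠ 0 := pow_ne_zero _ hA
  have h3 : u 0 ^ n ≠ 0 := pow_ne_zero _ hu0
  have hne : AxA N m 6 d α β f A D u ≠ 0 := by
    rw [hAx]
    exact mul_ne_zero h3 (mul_ne_zero (mul_ne_zero hF h1) h2)
  have heh : ∀ i, eh (α i) (β i) u ≠ 0 := fun i => by
    rw [eh_eq hux huy]
    exact mul_ne_zero hu0 (hl i)
  have hreg : ∀ i, 0 ≤ P.ord (eh (α i) (β i) u) := fun i => by
    have h1 : Ge P 0 (eh (α i) (β i) u) := by
      unfold eh
      exact ((hu 2).sub (((Ge.const _).mul (hu 1)).mono (by omega))).sub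
        (((Ge.const _).mul (hu 0)).mono (by omega))
    exact h1.resolve_left (heh i)
  refine ⟨hne, ?_⟩
  rcases ((hu 0).resolve_left hu0).eq_or_lt with hs | hs
  · -- finite points
    have hx : Ge P 0 x := by
      by_cases hx0 : x = 0
      · exact Or.inl hx0
      · have h4 := (hu 1).resolve_left (by rw [hux]; exact mul_ne_zero hu0 hx0)
        rw [hux, P.ord_mul hu0 hx0] at h4
        exact Or.inr (by omega)
    have hy : Ge P 0 y := by
      by_cases hy0 : y = 0
      · exact Or.inl hy0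
      · have h4 := (hu 2).resolve_left (by rw [huy]; exact mul_ne_zero hu0 hy0)
        rw [huy, P.ord_mul hu0 hy0] at h4
        exact Or.inr (by omega)
    have hA0 : 0 ≤ P.ord (MvPolynomial.aeval ![x, y] A) := by
      refine (ge_mvaeval P (fun j => ?_) A).resolve_left hA
      fin_cases j
      · exact hx
      · exact hy
    have hord : P.ord (AxA N m 6 d α β f A D u) = P.ord (F1 N m α β f D x y) +
        6 * P.ord (SH.W D x y) + 18 * P.ord (MvPolynomial.aeval ![x, y] A) := by
      rw [hAx, P.ord_mul h3 (mul_ne_zero (mul_ne_zero hF h1) h2), P.ord_mul (mul_ne_zero hF h1) h2,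
        P.ord_mul hF h1, P.ord_pow, P.ord_pow, P.ord_pow, ← hs]
      push_cast
      ring
    have hsum : ∑ i, P.ord (eh (α i) (β i) u) = ∑ i, P.ord (el (α i) (β i) x y) := by
      refine Finset.sum_congr rfl fun i _ => ?_
      rw [eh_eq hux huy, P.ord_mul hu0 (hl i), ← hs, zero_add]
    obtain ⟨k1, k2⟩ := loc_fin h hG hm hf hx hy hl hF hW
    rw [hord, hsum]
    refine ⟨by omega, fun hc => ?_⟩
    by_cases ha : P.ord (MvPolynomial.aeval ![x, y] A) = 0
    · have := k2 (hc hx hy ha)
      omega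
    · omega
  · -- points at infinity
    have hu1 : Ge P 1 (u 0) := Or.inr (by omega)
    have g1 : ∀ j, Ge P 0 (D (u j)) := fun j => h.reg _ (hu j)
    have g2 : ∀ j, Ge P 0 (D (D (u j))) := fun j => h.reg _ (g1 j)
    have hone : ∀ i j, i ≠ j → 1 ≤ P.ord (eh (α i) (β i) u) → 1 ≤ P.ord (eh (α j) (β j) u) →
        False := by
      intro i j hij hi hj
      have ei : Ge P 1 (eh (α i) (β i) u) := Or.inr hi
      have ej : Ge P 1 (eh (α j) (β j) u) := Or.inr hj
      have e1 : Ge P 1 (u 1) := by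
        have h4 : u 1 = algebraMap ℂ L (α j - α i)⁻¹ * (eh (α i) (β i) u - eh (α j) (β j) u +
            algebraMap ℂ L (β i - β j) * u 0) := by
          have h5 : eh (α i) (β i) u - eh (α j) (β j) u +
            algebraMap ℂ L (β i - β j) * u 0 = algebraMap ℂ L (α j - α i) * u 1 := by
            unfold eh
            rw [map_sub, map_sub]
            ring
          rw [h5, ← mul_assoc, ← map_mul, inv_mul_cancel₀, map_one, one_mul]
          exact sub_ne_zero.2 fun e => hij (hG.inj e).symm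
        rw [h4]
        exact ((Ge.const _).mul ((ei.sub ej).add (((Ge.const _).mul hu1).mono
          (by omega : (1 : ℤ) ≤ 0 + 1)))).mono (by omega)
      have e2 : Ge P 1 (u 2) := by
        have h4 : u 2 = eh (α i) (β i) u + algebraMap ℂ L (α i) * u 1 +
            algebraMap ℂ L (β i) * u 0 := by
          unfold eh; ring
        rw [h4]
        exact (ei.add (((Ge.const _).mul e1).mono (by omega))).add
          (((Ge.const _).mul hu1).mono (by omega))
      obtain ⟨j, hj0, hj1⟩ := hprim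
      have e3 : Ge P 1 (u j) := by
        fin_cases j
        · exact hu1
        · exact e1
        · exact e2
      have := e3.resolve_left hj0
      omega
    have hw : ∀ i, Ge P (P.ord (eh (α i) (β i) u) - 2)
        (w3 u (fun j => D (u j)) fun j => D (D (u j))) := by
      intro i
      obtain ⟨e, he⟩ : ∃ e, e = eh (α i) (β i) u := ⟨_, rfl⟩
      have he' := he
      unfold eh at he'
      have e1 : D e = D (u 2) - algebraMap ℂ L (α i) * D (u 1) - algebraMap ℂ L (β i) * D (u 0) := by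
        rw [he', map_sub, map_sub, D.leibniz, D.leibniz, D.map_algebraMap, D.map_algebraMap]
        simp
      have e2 : D (D e) = D (D (u 2)) - algebraMap ℂ L (α i) * D (D (u 1)) -
          algebraMap ℂ L (β i) * D (D (u 0)) := by
        rw [e1, map_sub, map_sub, D.leibniz, D.leibniz, D.map_algebraMap, D.map_algebraMap]
        simp
      have e3 : w3 u (fun j => D (u j)) (fun j => D (D (u j))) =
          u 0 * (D (u 1) * D (D e) - D e * D (D (u 1))) -
          u 1 * (D (u 0) * D (D e) - D e * D (D (u 0))) +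
          e * (D (u 0) * D (D (u 1)) - D (u 1) * D (D (u 0))) := by
        unfold w3
        rw [e2, e1, he']
        ring
      rw [e3, ← he]
      have g0 : Ge P (P.ord e) e := ge_ord P e
      have g3 := h.ge_der g0
      have g4 := h.ge_der g3
      have t1 : Ge P (P.ord e - 2) (D (u 1) * D (D e) - D e * D (D (u 1))) :=
        (((g1 1).mul g4).mono (by omega)).sub ((g3.mul (g2 1)).mono (by omega))
      have t2 : Ge P (P.ord e - 2) (D (u 0) * D (D e) - D e * D (D (u 0))) :=
        (((g1 0).mul g4).mono (by omega)).sub ((g3.mul (g2 0)).mono (by omega))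
      have t3 : Ge P 0 (D (u 0) * D (D (u 1)) - D (u 1) * D (D (u 0))) :=
        (((g1 0).mul (g2 1)).mono (by omega)).sub (((g1 1).mul (g2 0)).mono (by omega))
      exact ((((hu 0).mul t1).mono (by omega)).sub (((hu 1).mul t2).mono (by omega))).add
        ((g0.mul t3).mono (by omega))
    have hw0 : Ge P 0 (w3 u (fun j => D (u j)) fun j => D (D (u j))) := by
      unfold w3
      have t : ∀ i j k, Ge P 0 (u i * (D (u j) * D (D (u k)) - D (u k) * D (D (u j)))) :=
        fun i j k => ((hu i).mul ((((g1 j).mul (g2 k)).mono (by omega : (0 : ℤ) ≤ 0 + 0)).sub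
          (((g1 k).mul (g2 j)).mono (by omega)))).mono (by omega)
      exact ((t 0 1 2).sub (t 1 0 2)).add (t 2 0 1)
    have hgen : ∀ a : ℤ, Ge P a (w3 u (fun j => D (u j)) fun j => D (D (u j))) →
        6 * a + 12 ≤ P.ord (AxA N m 6 d α β f A D u) := by
      intro a ha
      have hw1 : Ge P 0 (u 0 * D (u 1) - u 1 * D (u 0)) :=
        (((hu 0).mul (g1 1)).mono (by omega)).sub (((hu 1).mul (g1 0)).mono (by omega))
      have hw2 : Ge P 0 (u 0 * D (u 2) - u 2 * D (u 0)) :=
        (((hu 0).mul (g1 2)).mono (by omega)).sub (((hu 2).mul (g1 0)).mono (by omega))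
      have h4 : Ge P (6 * a + 12) (AxA N m 6 d α β f A D u) := by
        unfold AxA Ax
        exact ((((ge_Fx hu hw1 hw2 hw0).mul (ha.pow 6)).mul (hu1.pow (2 * 6))).mul
          ((ge_hA d A hu).pow (3 * 6))).mono (by push_cast; omega)
      exact h4.resolve_left hne
    have key : 6 * ∑ i, P.ord (eh (α i) (β i) u) ≤ P.ord (AxA N m 6 d α β f A D u) := by
      by_cases h0 : ∃ i, 1 ≤ P.ord (eh (α i) (β i) u)
      · obtain ⟨i, hi⟩ := h0
        have hsum : ∑ k, P.ord (eh (α k) (β k) u) = P.ord (eh (α i) (β i) u) := by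
          refine Finset.sum_eq_single i (fun k _ hk => ?_) fun h => absurd (Finset.mem_univ i) h
          by_contra hne'
          exact hone i k (Ne.symm hk) hi (by have := hreg k; omega)
        rw [hsum]
        have := hgen _ (hw i)
        omega
      · push Not at h0
        have hsum : ∑ k, P.ord (eh (α k) (β k) u) = 0 :=
          Finset.sum_eq_zero fun k _ => by have h1 := h0 k; have h2 := hreg k; omega
        rw [hsum]
        have := hgen _ hw0
        omega
    exact ⟨by omega, fun _ => key⟩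

end Pool.Agent.K9h12.LN
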