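import Pool.Agent.K9h12.LN.Defs
import Pool.Agent.K9h12.NV.Tr

/-!
Pairs of rational functions without simple contacts with lines.
-/

set_option autoImplicit false

open Pool.Agent.K9h12.FR MvPolynomial

namespace Pool.Agent.K9h12.LN

/-- The rational map `(x 0, x 1)` from the quasi-projective variety `X - D`, with generic point `a`,
to the plane never meets the union of the lines `y = α i x + β i` with total contact order one
outside the curve `A = 0`: there are forms `g 0`, `g 1`, `g 2` of the same degree with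
`x j = g (j + 1) / g 0` and a form `G0` which does not vanish on `X` such that for all points `a'`
of `X` over a field `L`, outside `G0 = 0` and `g 0 = 0`, and all places `v` of `L` whose centre is
not in `D` and at which the values `x' 0`, `x' 1` of `x 0`, `x 1` at `a'` are regular, the sum of
the orders at `v` of the functions `x' 1 - α i x' 0 - β i` is not one (if these functions and
`A (x' 0, x' 1)` are not zero and the order of the last one at `v` is zero). -/
def NoSimpleContact {p : ℕ} (α β : Fin p → ℂ) (A : MvPolynomial (Fin 2) ℂ) {N : ℕ}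
    (X D : PSet N) {K : Type} [Field K] [Algebra ℂ K] (a : Fin (N + 1) → K) (x : Fin 2 → K) :
    Prop :=
  ∃ (δ : ℕ) (g : Fin 3 → MvPolynomial (Fin (N + 1)) ℂ) (G0 : MvPolynomial (Fin (N + 1)) ℂ),
    (∀ i, (g i).IsHomogeneous δ) ∧ (∃ E : ℕ, G0.IsHomogeneous E) ∧ aeval a G0 ≠ 0 ∧
    aeval a (g 0) ≠ 0 ∧ (∀ j : Fin 2, x j = aeval a (g j.succ) / aeval a (g 0)) ∧
    ∀ (L : Type) [Field L] [Algebra ℂ L] (a' : Fin (N + 1) → L) (x' : Fin 2 → L),
      (∀ j : Fin 2, x' j = aeval a' (g j.succ) / aeval a' (g 0)) →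
      X.Mem a' → aeval a' G0 ≠ 0 → aeval a' (g 0) ≠ 0 →
      ∀ v : FF.Place ℂ L, ¬ CentreIn D a' v → (∀ j, v.Reg (x' j)) →
        (∀ i, el (α i) (β i) (x' 0) (x' 1) ≠ 0) → aeval x' A ≠ 0 → v.ord (aeval x' A) = 0 →
        ∑ i, v.ord (el (α i) (β i) (x' 0) (x' 1)) ≠ 1

variable {p : ℕ}

/-- the order of a product -/
theorem ord_prod {L : Type} [Field L] [Algebra ℂ L] (v : FF.Place ℂ L) {ι : Type}
    (s : Finset ι) (f : ι → L) (hf : ∀ i ∈ s, f i ≠ 0) :
    v.ord (∏ i ∈ s, f i) = ∑ i ∈ s, v.ord (f i) := by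
  classical
  induction s using Finset.induction_on with
  | empty =>
    rw [Finset.prod_empty, Finset.sum_empty]
    exact v.ord_one
  | insert i s hi ih =>
    rw [Finset.prod_insert hi, Finset.sum_insert hi, v.ord_mul (hf i (Finset.mem_insert_self _ _))
      (Finset.prod_ne_zero_iff.2 fun j hj => hf j (Finset.mem_insert_of_mem hj)),
      ih fun j hj => hf j (Finset.mem_insert_of_mem hj)]

/-- nonnegative integers with sum one -/
theorem sum_one {ι : Type} [Fintype ι] {e : ι → ℤ} (h0 : ∀ i, 0 ≤ e i) (h1 : ∑ i, e i = 1) :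
    ∃ i, e i = 1 ∧ ∀ j, j ≠ i → e j = 0 := by
  classical
  obtain ⟨i, hi⟩ : ∃ i, e i ≠ 0 := by
    by_contra hcon
    push Not at hcon
    rw [Finset.sum_eq_zero fun i _ => hcon i] at h1
    exact zero_ne_one h1
  have h2 : e i + ∑ j ∈ Finset.univ.erase i, e j = 1 := by
    rw [Finset.add_sum_erase _ _ (Finset.mem_univ i)]
    exact h1
  have h3 : 0 ≤ ∑ j ∈ Finset.univ.erase i, e j := Finset.sum_nonneg fun j _ => h0 j
  have h4 := h0 i
  have h5 : ∑ j ∈ Finset.univ.erase i, e j = 0 := by omega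
  refine ⟨i, by omega, fun j hj => ?_⟩
  exact (Finset.sum_eq_zero_iff_of_nonneg fun j _ => h0 j).1 h5 j
    (Finset.mem_erase.2 ⟨hj, Finset.mem_univ j⟩)

/-- If `w ^ m = A(x) ^ s * ∏ (x 1 - α i x 0 - β i) ^ r i` and `m` divides none of the `r i`, then
there are no simple contacts. -/
theorem noSimple_of_root {α β : Fin p → ℂ} {A : MvPolynomial (Fin 2) ℂ} {N : ℕ} {X D : PSet N}
    {K : Type} [Field K] [Algebra ℂ K] {a : Fin (N + 1) → K} (hK : X.FunctionField K a)
    {x : Fin 2 → K} {w : K} {m s : ℕ} {r : Fin p → ℕ} (hr : ∀ i, ¬ m ∣ r i)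
    (hw : w ^ m = aeval x A ^ s * ∏ i, el (α i) (β i) (x 0) (x 1) ^ r i) :
    NoSimpleContact α β A X D a x := by
  obtain ⟨δ, g, hg, hg0, hgw⟩ := exists_common hK ![x 0, x 1, w]
  have ex : x 0 = aeval a (g 1) / aeval a (g 0) := hgw 0
  have ey : x 1 = aeval a (g 2) / aeval a (g 0) := hgw 1
  have ew : w = aeval a (g 3) / aeval a (g 0) := hgw 2
  refine ⟨δ, ![g 0, g 1, g 2], 1, ?_, ⟨0, isHomogeneous_one _ _⟩, by simp, hg0, ?_, ?_⟩
  · intro i
    fin_cases i
    · exact hg 0
    · exact hg 1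
    · exact hg 2
  · intro j
    fin_cases j
    · exact ex
    · exact ey
  · intro L _ _ a' x' hx' ha' _ hg0' v _ hrx hel hAx hA0 hone
    change aeval a' (g 0) ≠ 0 at hg0'
    have hx0 : x' 0 = aeval a' (g 1) / aeval a' (g 0) := hx' 0
    have hx1 : x' 1 = aeval a' (g 2) / aeval a' (g 0) := hx' 1
    set w' := aeval a' (g 3) / aeval a' (g 0) with hw'
    let F : MvPolynomial (Fin 3) ℂ := MvPolynomial.X 2 ^ m -
      aeval ![MvPolynomial.X 0, MvPolynomial.X 1] A ^ s *
        ∏ i, el (α i) (β i) (MvPolynomial.X 0 : MvPolynomial (Fin 3) ℂ) (MvPolynomial.X 1) ^ r i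
    have hval : ∀ {M : Type} [Field M] [Algebra ℂ M] (z : Fin 3 → M),
        aeval z F = z 2 ^ m - aeval ![z 0, z 1] A ^ s *
          ∏ i, el (α i) (β i) (z 0) (z 1) ^ r i := by
      intro M _ _ z
      have h1 : aeval z (aeval ![MvPolynomial.X 0, MvPolynomial.X 1] A :
          MvPolynomial (Fin 3) ℂ) = aeval ![z 0, z 1] A := by
        rw [← AlgHom.comp_apply, comp_aeval]
        congr 2
        funext j
        fin_cases j <;> simp
      simp only [F, map_sub, map_mul, map_pow, aeval_X, h1, map_prod, el, AlgHom.commutes]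
    have e1 : ∀ {M : Type} (z : Fin 2 → M), ![z 0, z 1] = z := by
      intro M z
      funext j
      fin_cases j <;> rfl
    have hF : aeval (fun i : Fin 3 => aeval a (g i.succ) / aeval a (g 0)) F = 0 := by
      rw [hval]
      have h1 : aeval a (g (0 : Fin 3).succ) / aeval a (g 0) = x 0 := ex.symm
      have h2 : aeval a (g (1 : Fin 3).succ) / aeval a (g 0) = x 1 := ey.symm
      have h3 : aeval a (g (2 : Fin 3).succ) / aeval a (g 0) = w := ew.symm
      rw [h1, h2, h3, hw, e1, sub_self]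
    have hF' := spec_rel hK hg hg0 hF ha' hg0'
    rw [hval] at hF'
    have hrel : w' ^ m = aeval x' A ^ s * ∏ i, el (α i) (β i) (x' 0) (x' 1) ^ r i := by
      rw [← e1 x', hx0, hx1, hw']
      exact sub_eq_zero.1 hF'
    have hreg : ∀ i, 0 ≤ v.ord (el (α i) (β i) (x' 0) (x' 1)) := by
      intro i
      refine (v.reg_iff (hel i)).1 ?_
      have h1 : el (α i) (β i) (x' 0) (x' 1) ∈ v.O := by
        unfold el
        exact sub_mem (sub_mem (hrx 1) (mul_mem (v.reg_const _) (hrx 0))) (v.reg_const _)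
      exact h1
    obtain ⟨i, hi, hj⟩ := sum_one hreg hone
    have hord := congrArg v.ord hrel
    rw [v.ord_mul (pow_ne_zero _ hAx) (Finset.prod_ne_zero_iff.2 fun j _ =>
      pow_ne_zero _ (hel j)), v.ord_pow, v.ord_pow, hA0, mul_zero, zero_add,
      ord_prod v _ _ fun j _ => pow_ne_zero _ (hel j), Finset.sum_eq_single i, v.ord_pow, hi,
      mul_one] at hord
    · exact hr i (Int.natCast_dvd_natCast.1 ⟨_, hord.symm⟩)
    · intro j _ hji
      rw [v.ord_pow, hj j hji, mul_zero]
    · exact fun h => absurd (Finset.mem_univ i) h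

end Pool.Agent.K9h12.LN
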