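import Pool.Agent.K9h12.LN.Up

/-!
Vector fields moving the lines, and the conditions on the forms.
-/

set_option autoImplicit false

open MvPolynomial

namespace Pool.Agent.K9h12.LN

variable {p : ℕ}

/-- the variables: two coordinates, two jet coordinates, the slopes and the heights of the lines -/
abbrev VV (p : ℕ) : Type := Fin 4 ⊕ (Fin p ⊕ Fin p)

/-- the polynomials -/
abbrev TT (p : ℕ) : Type := MvPolynomial (VV p) ℂ

/-- the coordinates -/
noncomputable def xv (k : Fin 4) : TT p := X (Sum.inl k)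

/-- the slopes -/
noncomputable def av (i : Fin p) : TT p := X (Sum.inr (Sum.inl i))

/-- the heights -/
noncomputable def bv (i : Fin p) : TT p := X (Sum.inr (Sum.inr i))

/-- values on the variables -/
def dv {A : Type} (f : Fin 4 → A) (g h : Fin p → A) : VV p → A := Sum.elim f (Sum.elim g h)

/-- derivation with given values -/
noncomputable def mk (f : Fin 4 → TT p) (g h : Fin p → TT p) : Derivation ℂ (TT p) (TT p) :=
  mkDerivation ℂ (dv f g h)

theorem mk_x (f : Fin 4 → TT p) (g h : Fin p → TT p) (k : Fin 4) : mk f g h (xv k) = f k := by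
  unfold mk xv
  rw [mkDerivation_X]
  rfl

theorem mk_a (f : Fin 4 → TT p) (g h : Fin p → TT p) (i : Fin p) : mk f g h (av i) = g i := by
  unfold mk av
  rw [mkDerivation_X]
  rfl

theorem mk_b (f : Fin 4 → TT p) (g h : Fin p → TT p) (i : Fin p) : mk f g h (bv i) = h i := by
  unfold mk bv
  rw [mkDerivation_X]
  rfl

/-- homomorphism with given values -/
noncomputable def hom (f : Fin 4 → TT p) (g h : Fin p → TT p) : TT p →ₐ[ℂ] TT p :=
  aeval (dv f g h)

theorem hom_x (f : Fin 4 → TT p) (g h : Fin p → TT p) (k : Fin 4) : hom f g h (xv k) = f k := by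
  unfold hom xv
  rw [aeval_X]
  rfl

theorem hom_a (f : Fin 4 → TT p) (g h : Fin p → TT p) (i : Fin p) : hom f g h (av i) = g i := by
  unfold hom av
  rw [aeval_X]
  rfl

theorem hom_b (f : Fin 4 → TT p) (g h : Fin p → TT p) (i : Fin p) : hom f g h (bv i) = h i := by
  unfold hom bv
  rw [aeval_X]
  rfl

/-- two derivations along a homomorphism -/
theorem cmp {σ : TT p →ₐ[ℂ] TT p} {D D' : Derivation ℂ (TT p) (TT p)}
    (h1 : ∀ k, σ (D (xv k)) = D' (σ (xv k))) (h2 : ∀ i, σ (D (av i)) = D' (σ (av i)))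
    (h3 : ∀ i, σ (D (bv i)) = D' (σ (bv i))) (f : TT p) : σ (D f) = D' (σ f) := by
  induction f using MvPolynomial.induction_on with
  | C a =>
    have h1 : D (MvPolynomial.C a) = 0 := D.map_algebraMap a
    have h2 : σ (MvPolynomial.C a) = algebraMap ℂ (TT p) a := σ.commutes a
    rw [h1, h2, map_zero, D'.map_algebraMap]
  | add p q hp hq => rw [map_add, map_add, map_add, map_add, hp, hq]
  | mul_X p v hp =>
    have hv : σ (D (X v)) = D' (σ (X v)) := by
      rcases v with k | i | i
      · exact h1 k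
      · exact h2 i
      · exact h3 i
    rw [D.leibniz, map_mul, D'.leibniz, ← hp, ← hv, map_add, smul_eq_mul, smul_eq_mul, smul_eq_mul,
      smul_eq_mul, map_mul, map_mul]

/-- the restriction to a germ at a common point of two lines -/
noncomputable def sg (c : ℕ) (i j : Fin p) : TT p →ₐ[ℂ] TT p :=
  hom ![bv j + xv 0, bv i + xv 0 * (xv 2 + (c : TT p) * av i) -
      C (1 / 2) * xv 0 ^ 2 * xv 3 + xv 1, xv 2 + (c : TT p) * av i, xv 3] av
    fun k => if k = i then bv i - av i * bv j else if k = j then bv i - av j * bv j else bv k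

/-- the restriction to a germ at a point of a line -/
noncomputable def lm (i : Fin p) : TT p →ₐ[ℂ] TT p :=
  hom ![xv 0, av i * xv 0 + bv i + xv 1, av i + xv 2, xv 3] av bv

/-- the weights at a common point -/
def wS (c : ℕ) : VV p → ℤ := dv ![-1, -3, -(c : ℤ), 0] 0 0

/-- the weights at a point of a line -/
def wL : VV p → ℤ := dv ![0, -2, -1, 0] 0 0

/-- the degree -/
def wD : VV p → ℤ := dv ![1, 1, 0, 0] 0 0

/-- the order of the jets -/
def wJ : VV p → ℤ := dv ![0, 0, 1, 3] 0 0

/-- the product of the differences of the slopes -/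
noncomputable def dl (k : Fin p) : TT p := ∏ l ∈ Finset.univ.erase k, (av k - av l)

/-- the product without one factor -/
noncomputable def dl2 (k l : Fin p) : TT p :=
  ∏ m ∈ (Finset.univ.erase k).erase l, (av k - av m)

theorem dl_eq {k l : Fin p} (h : k ≠ l) : dl k = (av k - av l) * dl2 k l := by
  unfold dl dl2
  exact (Finset.mul_prod_erase _ _ (Finset.mem_erase.2 ⟨h.symm, Finset.mem_univ l⟩)).symm

/-- the moving lines -/
noncomputable def tY : Derivation ℂ (TT p) (TT p) := mk ![0, 1, 0, 0] 0 1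

/-- the moving lines -/
noncomputable def tH : Derivation ℂ (TT p) (TT p) := mk ![0, xv 0, 1, 0] 1 0

/-- the moving lines -/
noncomputable def tS : Derivation ℂ (TT p) (TT p) := mk ![0, xv 1, xv 2, xv 3] av bv

/-- one moving line -/
noncomputable def tA (k : Fin p) : Derivation ℂ (TT p) (TT p) := mk 0 (Pi.single k (dl k)) 0

/-- one moving line -/
noncomputable def tB (k : Fin p) : Derivation ℂ (TT p) (TT p) := mk 0 0 (Pi.single k (dl k))

/-- the equation of a line -/
noncomputable def ell (k : Fin p) : TT p := xv 1 - av k * xv 0 - bv k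

/-- the families of forms -/
structure Fam (C m : ℕ) (f : TT p) : Prop where
  dg : Up wD C f
  jt : Up wJ m f
  nd : ∀ i j, i ≠ j → Up (wS 0) (-12) (sg 0 i j f)
  tg : ∀ i j, i ≠ j → Up (wS 1) (-18) (sg 1 i j f)
  ln : ∀ i, Up wL (-12) (lm i f)

theorem hom_dl {f : Fin 4 → TT p} {h : Fin p → TT p} (k : Fin p) : hom f av h (dl k) = dl k := by
  unfold dl
  rw [map_prod]
  refine Finset.prod_congr rfl fun l _ => ?_
  rw [map_sub, hom_a, hom_a]

theorem mk_C (f : Fin 4 → TT p) (g h : Fin p → TT p) (a : ℂ) : mk f g h (C a) = 0 :=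
  (mk f g h).map_algebraMap a

theorem mk_nat (f : Fin 4 → TT p) (g h : Fin p → TT p) (a : ℕ) : mk f g h ((a : TT p)) = 0 :=
  (mk f g h).map_natCast a

theorem half : (C 2⁻¹ : TT p) * 2 = 1 := by
  have h : (C (2⁻¹ * 2) : TT p) = 1 := by norm_num
  rwa [map_mul, map_ofNat] at h

/-- the simultaneous translations -/
theorem sg_tY (c : ℕ) {i j : Fin p} (hij : i ≠ j) (f : TT p) : sg c i j (tY f) =
    mk ![0, 0, 0, 0] 0 (fun k => if k = j then 0 else 1) (sg c i j f) := by
  unfold sg tY
  refine cmp (fun k => ?_) (fun k => ?_) (fun k => ?_) f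
  · fin_cases k <;> simp [mk_x, mk_a, mk_b, mk_C, mk_nat, hom_x, hij, Derivation.leibniz_pow]
  · simp [mk_a, hom_a]
  · by_cases h1 : k = i
    · subst h1
      simp [mk_b, hom_b, mk_a, hij]
    · by_cases h2 : k = j
      · subst h2
        simp [mk_b, hom_b, mk_a, h1, hij]
      · simp [mk_b, hom_b, h1, h2]

/-- the shears -/
theorem sg_tH (c : ℕ) {i j : Fin p} (hij : i ≠ j) (f : TT p) : sg c i j (tH f) =
    mk ![0, 0, 1 - (c : TT p), 0] 1 (fun k => if k = i then bv j else 0) (sg c i j f) := by
  unfold sg tH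
  refine cmp (fun k => ?_) (fun k => ?_) (fun k => ?_) f
  · fin_cases k <;>
      simp [mk_x, mk_a, mk_b, mk_C, mk_nat, hom_x, hij, hij.symm, Derivation.leibniz_pow]
  · simp [mk_a, hom_a]
  · by_cases h1 : k = i
    · subst h1
      simp [mk_b, hom_b, mk_a, hij.symm]
    · by_cases h2 : k = j
      · subst h2
        simp [mk_b, hom_b, mk_a, h1]
      · simp [mk_b, hom_b, h1, h2]

/-- the homotheties -/
theorem sg_tS (c : ℕ) {i j : Fin p} (hij : i ≠ j) (f : TT p) : sg c i j (tS f) =
    mk ![0, xv 1, xv 2, xv 3] av (fun k => if k = j then 0 else bv k) (sg c i j f) := by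
  unfold sg tS
  refine cmp (fun k => ?_) (fun k => ?_) (fun k => ?_) f
  · fin_cases k <;>
      simp [mk_x, mk_a, mk_b, mk_C, mk_nat, hom_x, hij, hij.symm, Derivation.leibniz_pow]
  · simp [mk_a, hom_a]
  · by_cases h1 : k = i
    · subst h1
      simp [mk_b, hom_b, mk_a, hij]
      ring
    · by_cases h2 : k = j
      · subst h2
        simp [mk_b, hom_b, mk_a, h1, hij]
        ring
      · simp [mk_b, hom_b, h1, h2]

/-- moving another line -/
theorem sg_A0 (c : ℕ) {i j k : Fin p} (hi : k ≠ i) (hj : k ≠ j) (f : TT p) :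
    sg c i j (tA k f) = tA k (sg c i j f) := by
  unfold sg tA
  refine cmp (fun l => ?_) (fun l => ?_) (fun l => ?_) f
  · fin_cases l <;>
      simp [mk_x, mk_a, mk_b, mk_C, mk_nat, hom_x, hi, hj, hi.symm, hj.symm,
        Derivation.leibniz_pow]
  · rw [mk_a, hom_a, mk_a]
    by_cases h : l = k
    · subst h
      rw [Pi.single_eq_same, hom_dl]
    · rw [Pi.single_eq_of_ne h, map_zero]
  · by_cases h1 : l = i
    · subst h1
      simp [mk_b, hom_b, mk_a, hi.symm]
    · by_cases h2 : l = j
      · subst h2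
        simp [mk_b, hom_b, mk_a, h1, hj.symm]
      · simp [mk_b, hom_b, h1, h2]

/-- moving another line -/
theorem sg_B0 (c : ℕ) {i j k : Fin p} (hi : k ≠ i) (hj : k ≠ j) (f : TT p) :
    sg c i j (tB k f) = tB k (sg c i j f) := by
  unfold sg tB
  refine cmp (fun l => ?_) (fun l => ?_) (fun l => ?_) f
  · fin_cases l <;>
      simp [mk_x, mk_a, mk_b, mk_C, mk_nat, hom_x, hi, hj, hi.symm, hj.symm,
        Derivation.leibniz_pow]
  · simp [mk_a, hom_a]
  · by_cases h1 : l = i
    · subst h1
      simp [mk_b, hom_b, mk_a, hi.symm, hj.symm]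
    · by_cases h2 : l = j
      · subst h2
        simp [mk_b, hom_b, mk_a, h1, hi.symm, hj.symm]
      · by_cases h3 : l = k
        · subst h3
          simp [mk_b, hom_b, h1, h2, hom_dl]
        · simp [mk_b, hom_b, h1, h2, h3]

/-- the derivation along a moving common point -/
noncomputable def mv (c : ℕ) (i j : Fin p) (s e h : TT p) (g : Fin p → TT p) :
    Derivation ℂ (TT p) (TT p) :=
  mk ![-s, -(e * s) + s * (xv 2 + (c : TT p) * av i) - s * xv 0 * xv 3, h, 0] g
    fun k => if k = j then s else if k = i then e * s else 0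

/-- a derivation along a moving common point -/
theorem sg_mv (c : ℕ) {i j : Fin p} (hij : i ≠ j) {s e h : TT p} {g b : Fin p → TT p}
    (hh : h + (c : TT p) * g i = 0) (hg : ∀ k, sg c i j (g k) = g k)
    (hb : ∀ k, k ≠ i → k ≠ j → b k = 0) (hi : sg c i j (b i) = e * s - g i * bv j - av i * s)
    (hj : sg c i j (b j) = e * s - g j * bv j - av j * s) (f : TT p) :
    sg c i j (mk 0 g b f) = mv c i j s e h g (sg c i j f) := by
  have hhalf := half (p := p)
  refine cmp (fun l => ?_) (fun l => ?_) (fun l => ?_) f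
  · unfold sg mv
    have e1 : mk (p := p) 0 g b (xv l) = 0 := by rw [mk_x]; rfl
    rw [e1, map_zero]
    fin_cases l
    · simp [mk_x, mk_b, hom_x]
    · simp [mk_x, mk_a, mk_b, mk_C, mk_nat, hom_x, hij, Derivation.leibniz_pow]
      linear_combination (-(xv 0 : TT p)) * hh - s * xv 0 * xv 3 * hhalf
    · simp [mk_x, mk_a, mk_nat, hom_x]
      linear_combination -hh
    · simp [mk_x, hom_x]
  · rw [mk_a, hg]
    unfold sg mv
    rw [hom_a, mk_a]
  · rw [mk_b]
    by_cases h1 : l = i
    · subst h1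
      rw [hi]
      unfold sg mv
      simp [mk_b, hom_b, mk_a, hij]
      ring
    · by_cases h2 : l = j
      · subst h2
        rw [hj]
        unfold sg mv
        simp [mk_b, hom_b, mk_a, h1, hij]
        ring
      · rw [hb l h1 h2, map_zero]
        unfold sg mv
        simp [mk_b, hom_b, h1, h2]

end Pool.Agent.K9h12.LN
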