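import Pool.Agent.K9h12.LN.Frm
import Pool.Agent.K9h12.GP.Op

/-!
The orders of the jet differentials at germs of curves: the conditions.
-/

set_option autoImplicit false

open FF MvPolynomial

namespace Pool.Agent.K9h12.LN

open Pool.Agent.W603.LV Pool.Agent.W602.GT Pool.Agent.K9h12.SH

variable {p : ℕ} {L : Type} [Field L] [Algebra ℂ L] {P : Place ℂ L} {D : Derivation ℂ L L}

/-- the order of the values of polynomials of given weight -/
theorem ge_up {w : VV p → ℤ} (hw : Wt w) {g : TT p} {R : ℤ} (hg : Up w (-R) g)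
    {φ : VV p → L} (hx : ∀ k, Ge P (-w (Sum.inl k)) (φ (Sum.inl k)))
    (hp : ∀ i, Ge P 0 (φ (Sum.inr i))) : Ge P R (aeval φ g) := by
  rw [aeval_def, eval₂_eq']
  refine Ge.sum _ _ fun μ hμ => ?_
  have h1 := Ge.prod (P := P) Finset.univ (fun v => φ v ^ μ v) (fun v => μ v * -w v) fun v _ => by
    refine Ge.pow ?_ (μ v)
    rcases v with k | i | i
    · exact hx k
    · rw [hw.a]; exact hp _
    · rw [hw.b]; exact hp _
  refine ((Ge.const (coeff μ g)).mul h1).mono ?_
  have h2 := hg μ hμ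
  have h3 : ∑ v, (μ v : ℤ) * -w v = -Finsupp.weight w μ := by
    rw [Finsupp.weight_eq_sum, ← Finset.sum_neg_distrib]
    refine Finset.sum_congr rfl fun v _ => ?_
    rw [nsmul_eq_mul]
    ring
  rw [h3]
  omega

/-- the values at a common point -/
noncomputable def vS (β : Fin p → ℂ) (α : Fin p → ℂ) (i j : Fin p) (x0 y0 : ℂ) (z : Fin 4 → L) :
    VV p → L := dv z (fun k => algebraMap ℂ L (α k))
  fun k => if k = j then algebraMap ℂ L x0 else if k = i then algebraMap ℂ L y0
    else algebraMap ℂ L (β k)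

theorem vS_sg (c : ℕ) {α β : Fin p → ℂ} {i j : Fin p} (hij : i ≠ j) {x0 y0 : ℂ}
    (hi : y0 - α i * x0 = β i) (hj : y0 - α j * x0 = β j) {x y Z κ B : L}
    (hB : B = (y - algebraMap ℂ L y0) - (x - algebraMap ℂ L x0) * Z +
      algebraMap ℂ L (1 / 2) * (x - algebraMap ℂ L x0) ^ 2 * κ) (f : TT p) :
    aeval (vS β α i j x0 y0 ![x - algebraMap ℂ L x0, B,
      Z - (c : L) * algebraMap ℂ L (α i), κ]) (sg c i j f) = aeval (vals α β ![x, y, Z, κ]) f := by
  rw [← AlgHom.comp_apply]
  congr 1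
  have hx : ∀ (z : Fin 4 → L) (k : Fin 4), aeval (vS β α i j x0 y0 z) (xv k : TT p) = z k :=
    fun z k => by
    unfold xv
    rw [aeval_X]
    rfl
  have ha : ∀ (z : Fin 4 → L) (k : Fin p), aeval (vS β α i j x0 y0 z) (av k : TT p) =
      algebraMap ℂ L (α k) := fun z k => by
    unfold av
    rw [aeval_X]
    rfl
  have hb : ∀ (z : Fin 4 → L) (k : Fin p), aeval (vS β α i j x0 y0 z) (bv k : TT p) =
      if k = j then algebraMap ℂ L x0 else if k = i then algebraMap ℂ L y0
    else algebraMap ℂ L (β k) := fun z k => by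
    unfold bv
    rw [aeval_X]
    rfl
  have hC : ∀ (z : Fin 4 → L) (a : ℂ), aeval (vS β α i j x0 y0 z) (C a : TT p) =
      algebraMap ℂ L a := fun z a => by rw [aeval_C]
  refine MvPolynomial.algHom_ext fun v => ?_
  rw [AlgHom.comp_apply, aeval_X]
  unfold sg
  rcases v with k | k | k
  · change aeval _ (hom _ _ _ (xv k)) = _
    rw [hom_x]
    fin_cases k
    · simp [vals, dv, hx, hb]
    · simp [vals, dv, hx, hb, ha, hij, hC, hB]
    · simp [vals, dv, hx, ha]
    · simp [vals, dv, hx]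
  · change aeval _ (hom _ _ _ (av k)) = _
    rw [hom_a, ha]
    rfl
  · change aeval _ (hom _ _ _ (bv k)) = _
    rw [hom_b]
    by_cases h1 : k = i
    · subst h1
      simp [vals, dv, hb, ha, hij, ← hi]
    · by_cases h2 : k = j
      · subst h2
        simp [vals, dv, hb, ha, h1, hij, ← hj]
      · simp [vals, dv, hb, h1, h2]

/-- the values at a point of a line -/
theorem v_lm {α β : Fin p → ℂ} (i : Fin p) {x y Z κ : L} (f : TT p) :
    aeval (vals α β ![x, el (α i) (β i) x y, Z - algebraMap ℂ L (α i), κ]) (lm i f) =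
      aeval (vals α β ![x, y, Z, κ]) f := by
  rw [← AlgHom.comp_apply]
  congr 1
  have hx : ∀ (z : Fin 4 → L) (k : Fin 4), aeval (vals α β z) (xv k : TT p) = z k :=
    fun z k => by
    unfold xv
    rw [aeval_X]
    rfl
  have ha : ∀ (z : Fin 4 → L) (k : Fin p), aeval (vals α β z) (av k : TT p) =
      algebraMap ℂ L (α k) := fun z k => by
    unfold av
    rw [aeval_X]
    rfl
  have hb : ∀ (z : Fin 4 → L) (k : Fin p), aeval (vals α β z) (bv k : TT p) =
      algebraMap ℂ L (β k) := fun z k => by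
    unfold bv
    rw [aeval_X]
    rfl
  refine MvPolynomial.algHom_ext fun v => ?_
  rw [AlgHom.comp_apply, aeval_X]
  unfold lm
  rcases v with k | k | k
  · change aeval _ (hom _ _ _ (xv k)) = _
    rw [hom_x]
    fin_cases k
    · change aeval (vals α β _) (xv 0) = x
      rw [hx]
      rfl
    · change aeval (vals α β _) (av i * xv 0 + bv i + xv 1) = y
      rw [map_add, map_add, map_mul, ha, hb, hx, hx]
      simp only [Matrix.cons_val_zero, Matrix.cons_val_one, el]
      ring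
    · change aeval (vals α β _) (av i + xv 2) = Z
      rw [map_add, ha, hx]
      simp
    · change aeval (vals α β _) (xv 3) = κ
      rw [hx]
      rfl
  · change aeval _ (hom _ _ _ (av k)) = _
    rw [hom_a, ha]
    rfl
  · change aeval _ (hom _ _ _ (bv k)) = _
    rw [hom_b, hb]
    rfl

/-- the jet differential of a pair of functions -/
noncomputable def F1 (N m : ℕ) (α β : Fin p → ℂ) (f : TT p) (D : Derivation ℂ L L) (x y : L) : L :=
  Fx N m α β f ![1, x, y] (D x) (D y) (W D x y)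

theorem unit_of {f : L} (h0 : Ge P 0 f) (h1 : ¬ Ge P 1 f) : f ≠ 0 ∧ P.ord f = 0 := by
  have hf : f ≠ 0 := fun h => h1 (Or.inl h)
  refine ⟨hf, ?_⟩
  have h2 := h0.resolve_left hf
  by_contra h3
  exact h1 (Or.inr (by omega))

theorem const_not {c : ℂ} (hc : c ≠ 0) : ¬ Ge P 1 (algebraMap ℂ L c) := by
  intro h
  rcases h with h | h
  · exact hc ((map_eq_zero _).1 h)
  · rw [P.ord_const hc] at h
    omega

/-- the slope and the curvature of an immersed curve -/
theorem jet_ge (h : Nice P D) {x y : L} (hx : Ge P 0 x) (hy : Ge P 0 y) (hD : D x ≠ 0)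
    (ho : P.ord (D x) = 0) : Ge P 0 (D y / D x) ∧ Ge P 0 (W D x y / D x ^ 3) ∧
      D (D y / D x) = W D x y / D x ^ 3 * D x := by
  have h1 := h.reg x hx
  have h2 := h.reg y hy
  have h3 := h.reg _ h1
  have h4 := h.reg _ h2
  have h5 : Ge P 0 (W D x y) := by
    unfold SH.W
    exact ((h1.mul h4).mono (by omega)).sub ((h3.mul h2).mono (by omega))
  refine ⟨?_, ?_, ?_⟩
  · have := ge_div hD h2
    rwa [ho, sub_zero] at this
  · have := ge_div (pow_ne_zero 3 hD) h5
    rw [P.ord_pow, ho, mul_zero, sub_zero] at this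
    exact this
  · rw [GP.der_div D _ hD]
    unfold SH.W
    field_simp

/-- the contact with the osculating parabola -/
theorem parab (h : Nice P D) {x y : L} {x0 y0 : ℂ} (hx : Ge P 1 (x - algebraMap ℂ L x0))
    (hy : Ge P 1 (y - algebraMap ℂ L y0)) (hD : D x ≠ 0) (ho : P.ord (D x) = 0) :
    Ge P 3 ((y - algebraMap ℂ L y0) - (x - algebraMap ℂ L x0) * (D y / D x) +
      algebraMap ℂ L (1 / 2) * (x - algebraMap ℂ L x0) ^ 2 * (W D x y / D x ^ 3)) := by
  have hx0 : Ge P 0 x := by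
    have := (hx.mono (by omega : (0 : ℤ) ≤ 1)).add (Ge.const (P := P) x0)
    rwa [sub_add_cancel] at this
  have hy0 : Ge P 0 y := by
    have := (hy.mono (by omega : (0 : ℤ) ≤ 1)).add (Ge.const (P := P) y0)
    rwa [sub_add_cancel] at this
  obtain ⟨j1, j2, j3⟩ := jet_ge h hx0 hy0 hD ho
  obtain ⟨u, hu⟩ : ∃ u, u = x - algebraMap ℂ L x0 := ⟨_, rfl⟩
  obtain ⟨v, hv⟩ : ∃ v, v = y - algebraMap ℂ L y0 := ⟨_, rfl⟩
  obtain ⟨Z, hZ⟩ : ∃ Z, Z = D y / D x := ⟨_, rfl⟩
  obtain ⟨κ, hκ⟩ : ∃ κ, κ = W D x y / D x ^ 3 := ⟨_, rfl⟩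
  have du : D u = D x := by rw [hu, map_sub, D.map_algebraMap, sub_zero]
  have dv' : D v = D y := by rw [hv, map_sub, D.map_algebraMap, sub_zero]
  rw [← hu] at hx ⊢
  rw [← hv] at hy ⊢
  rw [← hZ] at j1 j3 ⊢
  rw [← hκ] at j2 j3 ⊢
  obtain ⟨B, hB⟩ : ∃ B, B = v - u * Z + algebraMap ℂ L (1 / 2) * u ^ 2 * κ := ⟨_, rfl⟩
  rw [← hB]
  have hB1 : Ge P 1 B := by
    rw [hB]
    exact (hy.sub ((hx.mul j1).mono (by omega))).add
      (((Ge.const _).mul (hx.pow 2)).mul j2 |>.mono (by norm_num))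
  have hyZ : D y = Z * D x := by rw [hZ]; field_simp
  have hhalf : algebraMap ℂ L (1 / 2) * 2 = 1 := by
    have : (2 : L) = algebraMap ℂ L 2 := (map_ofNat _ 2).symm
    rw [this, ← map_mul]
    norm_num
  have hDB : D B = algebraMap ℂ L (1 / 2) * u ^ 2 * D κ := by
    rw [hB, map_add, map_sub, D.leibniz, D.leibniz, D.leibniz, D.leibniz_pow, D.map_algebraMap, du,
      dv', j3, hyZ]
    simp only [smul_eq_mul, nsmul_eq_mul, mul_zero, add_zero, Nat.cast_ofNat, pow_one,
      Nat.add_one_sub_one]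
    linear_combination (κ * u * D x) * hhalf
  have hDB2 : Ge P 2 (D B) := by
    rw [hDB]
    exact (((Ge.const _).mul (hx.pow 2)).mul (h.reg _ j2)).mono (by norm_num)
  rcases hB1 with h0 | h1
  · exact Or.inl h0
  by_cases hB0 : B = 0
  · exact Or.inl hB0
  have h3 := h.ord_der hB0 (by omega)
  have h4 := hDB2.resolve_left h3.1
  exact Or.inr (by omega)

/-- immersed curves through a common point -/
theorem node_imm (h : Nice P D) {α β : Fin p → ℂ} {i j : Fin p} (hij : i ≠ j) {x0 y0 : ℂ}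
    (hi : y0 - α i * x0 = β i) (hj : y0 - α j * x0 = β j) {N m : ℕ} {f : TT p}
    (hf : Fam N m f) {x y : L} (hx : Ge P 1 (x - algebraMap ℂ L x0))
    (hy : Ge P 1 (y - algebraMap ℂ L y0)) (hD : D x ≠ 0) (ho : P.ord (D x) = 0) :
    Ge P 12 (F1 N m α β f D x y) ∧
      (Ge P 1 (D y / D x - algebraMap ℂ L (α i)) → Ge P 18 (F1 N m α β f D x y)) := by
  have hx0 : Ge P 0 x := by
    have := (hx.mono (by omega : (0 : ℤ) ≤ 1)).add (Ge.const (P := P) x0)
    rwa [sub_add_cancel] at this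
  have hy0 : Ge P 0 y := by
    have := (hy.mono (by omega : (0 : ℤ) ≤ 1)).add (Ge.const (P := P) y0)
    rwa [sub_add_cancel] at this
  obtain ⟨j1, j2, -⟩ := jet_ge h hx0 hy0 hD ho
  have hB := parab h hx hy hD ho
  have hpar : ∀ l : Fin p ⊕ Fin p, ∀ z : Fin 4 → L, Ge P 0 (vS β α i j x0 y0 z (Sum.inr l)) := by
    intro l z
    rcases l with l | l
    · exact Ge.const _
    · change Ge P 0 (if l = j then algebraMap ℂ L x0 else if l = i then algebraMap ℂ L y0
        else algebraMap ℂ L (β l))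
      split_ifs <;> exact Ge.const _
  have hXm : Ge P 0 (D x ^ m) := by
    have := (h.reg x hx0).pow m
    simpa using this
  unfold F1
  rw [Fx_eq hf.jt hD]
  refine ⟨?_, fun hs => ?_⟩
  · have h1 := ge_up (P := P) (wt_S 0) (hf.nd i j hij) (φ := vS β α i j x0 y0
      ![x - algebraMap ℂ L x0, (y - algebraMap ℂ L y0) - (x - algebraMap ℂ L x0) * (D y / D x) +
      algebraMap ℂ L (1 / 2) * (x - algebraMap ℂ L x0) ^ 2 * (W D x y / D x ^ 3),
      D y / D x - ((0 : ℕ) : L) * algebraMap ℂ L (α i), W D x y / D x ^ 3]) (fun k => by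
        fin_cases k
        · exact hx
        · exact hB
        · change Ge P (-(-((0 : ℕ) : ℤ))) (D y / D x - ((0 : ℕ) : L) * algebraMap ℂ L (α i))
          simpa using j1
        · exact j2) fun l => hpar l _
    rw [vS_sg 0 hij hi hj rfl] at h1
    exact (hXm.mul h1).mono (by omega)
  · have h1 := ge_up (P := P) (wt_S 1) (hf.tg i j hij) (φ := vS β α i j x0 y0
      ![x - algebraMap ℂ L x0, (y - algebraMap ℂ L y0) - (x - algebraMap ℂ L x0) * (D y / D x) +
      algebraMap ℂ L (1 / 2) * (x - algebraMap ℂ L x0) ^ 2 * (W D x y / D x ^ 3),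
      D y / D x - ((1 : ℕ) : L) * algebraMap ℂ L (α i), W D x y / D x ^ 3]) (fun k => by
        fin_cases k
        · exact hx
        · exact hB
        · change Ge P (-(-((1 : ℕ) : ℤ))) (D y / D x - ((1 : ℕ) : L) * algebraMap ℂ L (α i))
          simpa using hs
        · exact j2) fun l => hpar l _
    rw [vS_sg 1 hij hi hj rfl] at h1
    exact (hXm.mul h1).mono (by omega)

/-- immersed curves tangent to a line -/
theorem line_imm (h : Nice P D) {α β : Fin p → ℂ} (i : Fin p) {N m : ℕ} {f : TT p}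
    (hf : Fam N m f) {x y : L} (hx : Ge P 0 x) (hy : Ge P 0 y)
    (hl : Ge P 2 (el (α i) (β i) x y)) (hD : D x ≠ 0) (ho : P.ord (D x) = 0)
    (hs : Ge P 1 (D y / D x - algebraMap ℂ L (α i))) : Ge P 12 (F1 N m α β f D x y) := by
  obtain ⟨j1, j2, -⟩ := jet_ge h hx hy hD ho
  have hXm : Ge P 0 (D x ^ m) := by
    have := (h.reg x hx).pow m
    simpa using this
  unfold F1
  rw [Fx_eq hf.jt hD]
  have h1 := ge_up (P := P) wt_L (hf.ln i) (φ := vals α β ![x, el (α i) (β i) x y,
      D y / D x - algebraMap ℂ L (α i), W D x y / D x ^ 3]) (fun k => by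
        fin_cases k
        · exact hx
        · exact hl
        · exact hs
        · exact j2) fun l => by
          rcases l with l | l
          · exact Ge.const _
          · exact Ge.const _
  rw [v_lm] at h1
  exact (hXm.mul h1).mono (by omega)

/-- curves which are not immersed -/
theorem nonimm (h : Nice P D) {α β : Fin p → ℂ} {N m : ℕ} {f : TT p} (hf : Fam N m f) {n : ℕ}
    (hn : 3 * n ≤ m) {x y : L} (hx : Ge P 0 x) (hy : Ge P 0 y)
    (h1 : Ge P 1 (D x)) (h2 : Ge P 1 (D y)) : Ge P n (F1 N m α β f D x y) := by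
  have hW : Ge P 1 (W D x y) := (h.W_ge h1 h2).mono (by omega)
  unfold F1 Fx
  refine Ge.sum _ _ fun μ hμ => ?_
  have e2 := hf.jt μ hμ
  rw [← wJ_nonneg] at e2
  have c0 : ∀ j : Fin 3, Ge P 0 ((![1, x, y] : Fin 3 → L) j) := fun j => by
    fin_cases j
    · exact Ge.one
    · exact hx
    · exact hy
  have g1 : Ge P 1 (W D x y * (![1, x, y] : Fin 3 → L) 0 ^ 3) := by
    have := hW.mul ((c0 0).pow 3)
    simpa using this
  refine ((Ge.const _).mul (((((c0 1).pow _).mul ((c0 2).pow _)).mul ((c0 0).pow _)).mul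
    (((h1.pow _).mul (h2.pow _)).mul (g1.pow _)))).mono ?_
  have e3 : ((m - μ (Sum.inl 2) - 3 * μ (Sum.inl 3) : ℕ) : ℤ) =
    m - μ (Sum.inl 2) - 3 * μ (Sum.inl 3) := by omega
  rw [e3]
  omega

/-- the values are regular -/
theorem F1_reg (h : Nice P D) {α β : Fin p → ℂ} (N m : ℕ) (f : TT p)
    {x y : L} (hx : Ge P 0 x) (hy : Ge P 0 y) : Ge P 0 (F1 N m α β f D x y) := by
  have h1 := h.reg x hx
  have h2 := h.reg y hy
  have h3 := h.reg _ h1
  have h4 := h.reg _ h2
  have h5 : Ge P 0 (W D x y) := by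
    unfold SH.W
    exact ((h1.mul h4).mono (by omega)).sub ((h3.mul h2).mono (by omega))
  have c0 : ∀ j : Fin 3, Ge P 0 ((![1, x, y] : Fin 3 → L) j) := fun j => by
    fin_cases j
    · exact Ge.one
    · exact hx
    · exact hy
  unfold F1 Fx
  refine Ge.sum _ _ fun μ hμ => ?_
  have g1 : Ge P 0 (W D x y * (![1, x, y] : Fin 3 → L) 0 ^ 3) := by
    have := h5.mul ((c0 0).pow 3)
    simpa using this
  refine ((Ge.const _).mul (((((c0 1).pow _).mul ((c0 2).pow _)).mul ((c0 0).pow _)).mul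
    (((h1.pow _).mul (h2.pow _)).mul (g1.pow _)))).mono ?_
  omega

theorem Fx_map {R S : Type} [CommRing R] [Algebra ℂ R] [CommRing S] [Algebra ℂ S]
    (φ : R →ₐ[ℂ] S) (N m : ℕ) (α β : Fin p → ℂ) (f : TT p) (u : Fin 3 → R) (w1 w2 W : R) :
    φ (Fx N m α β f u w1 w2 W) = Fx N m α β f (fun j => φ (u j)) (φ w1) (φ w2) (φ W) := by
  unfold Fx
  simp only [map_sum, map_mul, map_pow, φ.commutes]

/-- interpolation -/
theorem interp (Q : Polynomial L) {n : ℤ}
    (h : ∀ ε : ℂ, ε ≠ 0 → Ge P n (Q.eval (algebraMap ℂ L ε))) : Ge P n (Q.eval 0) := by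
  classical
  let s : Finset ℕ := Finset.range (Q.natDegree + 1)
  let v : ℕ → L := fun i => algebraMap ℂ L ((i : ℂ) + 1)
  have hinj : Set.InjOn v s := by
    intro i _ j _ hij
    have h1 := (algebraMap ℂ L).injective hij
    have h2 : (i : ℂ) = j := by linear_combination h1
    exact_mod_cast h2
  have h1 : Q = Lagrange.interpolate s v fun i => Q.eval (v i) := by
    refine Lagrange.eq_interpolate hinj ?_
    refine lt_of_le_of_lt Polynomial.degree_le_natDegree ?_
    simp only [s, Finset.card_range]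
    exact_mod_cast Nat.lt_succ_self _
  rw [h1, Lagrange.interpolate_apply, Polynomial.eval_finset_sum]
  refine Ge.sum _ _ fun i hi => ?_
  rw [Polynomial.eval_mul, Polynomial.eval_C]
  have h2 : Ge P 0 (Polynomial.eval 0 (Lagrange.basis s v i)) := by
    unfold Lagrange.basis
    rw [Polynomial.eval_prod]
    have h3 := Ge.prod (P := P) (s.erase i)
      (fun j => Polynomial.eval 0 (Lagrange.basisDivisor (v i) (v j))) (fun _ => 0) fun j _ => by
      unfold Lagrange.basisDivisor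
      rw [Polynomial.eval_mul, Polynomial.eval_C, Polynomial.eval_sub, Polynomial.eval_X,
        Polynomial.eval_C]
      have h4 : (v i - v j)⁻¹ * (0 - v j) =
          algebraMap ℂ L ((((i : ℂ) + 1) - ((j : ℂ) + 1))⁻¹ * (0 - ((j : ℂ) + 1))) := by
        simp only [v, map_mul, map_inv₀, map_sub, map_zero]
      rw [h4]
      exact Ge.const _
    simpa using h3
  have h3 := (h ((i : ℂ) + 1) (Nat.cast_add_one_ne_zero i)).mul h2
  rwa [add_zero] at h3

end Pool.Agent.K9h12.LN
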