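import Pool.Agent.K9h12.LN.Ops

/-!
The vector fields preserve the conditions on the forms.
-/

set_option autoImplicit false

open MvPolynomial

namespace Pool.Agent.K9h12.LN

variable {p : ℕ}

theorem lm_tY (i : Fin p) (f : TT p) : lm i (tY f) = mk ![0, 0, 0, 0] 0 1 (lm i f) := by
  unfold lm tY
  refine cmp (fun k => ?_) (fun k => ?_) (fun k => ?_) f
  · fin_cases k <;> simp [mk_x, mk_a, mk_b, hom_x]
  · simp [mk_a, hom_a]
  · simp [mk_b, hom_b]

theorem lm_tH (i : Fin p) (f : TT p) : lm i (tH f) = mk ![0, 0, 0, 0] 1 0 (lm i f) := by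
  unfold lm tH
  refine cmp (fun k => ?_) (fun k => ?_) (fun k => ?_) f
  · fin_cases k <;> simp [mk_x, mk_a, mk_b, hom_x]
  · simp [mk_a, hom_a]
  · simp [mk_b, hom_b]

theorem lm_tS (i : Fin p) (f : TT p) : lm i (tS f) =
    mk ![0, xv 1, xv 2, xv 3] av bv (lm i f) := by
  unfold lm tS
  refine cmp (fun k => ?_) (fun k => ?_) (fun k => ?_) f
  · fin_cases k <;> simp [mk_x, mk_a, mk_b, hom_x]
    ring
  · simp [mk_a, hom_a]
  · simp [mk_b, hom_b]

theorem lm_A0 {i k : Fin p} (hi : k ≠ i) (f : TT p) : lm i (tA k f) = tA k (lm i f) := by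
  unfold lm tA
  refine cmp (fun l => ?_) (fun l => ?_) (fun l => ?_) f
  · fin_cases l <;> simp [mk_x, mk_a, mk_b, hom_x, hi.symm]
  · rw [mk_a, hom_a, mk_a]
    by_cases h : l = k
    · subst h
      rw [Pi.single_eq_same, hom_dl]
    · rw [Pi.single_eq_of_ne h, map_zero]
  · simp [mk_b, hom_b]

theorem lm_B0 {i k : Fin p} (hi : k ≠ i) (f : TT p) : lm i (tB k f) = tB k (lm i f) := by
  unfold lm tB
  refine cmp (fun l => ?_) (fun l => ?_) (fun l => ?_) f
  · fin_cases l <;> simp [mk_x, mk_a, mk_b, hom_x, hi.symm]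
  · simp [mk_a, hom_a]
  · rw [mk_b, hom_b, mk_b]
    by_cases h : l = k
    · subst h
      rw [Pi.single_eq_same, hom_dl]
    · rw [Pi.single_eq_of_ne h, map_zero]

theorem lm_A1 (i : Fin p) (f : TT p) : lm i (tA i f) =
    mk ![0, -(dl i * xv 0), -dl i, 0] (Pi.single i (dl i)) 0 (lm i f) := by
  unfold lm tA
  refine cmp (fun l => ?_) (fun l => ?_) (fun l => ?_) f
  · fin_cases l <;> simp [mk_x, mk_a, mk_b, hom_x]
    ring
  · rw [mk_a, hom_a, mk_a]
    by_cases h : l = i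
    · subst h
      rw [Pi.single_eq_same, hom_dl]
    · rw [Pi.single_eq_of_ne h, map_zero]
  · simp [mk_b, hom_b]

theorem lm_B1 (i : Fin p) (f : TT p) : lm i (tB i f) =
    mk ![0, -dl i, 0, 0] 0 (Pi.single i (dl i)) (lm i f) := by
  unfold lm tB
  refine cmp (fun l => ?_) (fun l => ?_) (fun l => ?_) f
  · fin_cases l <;> simp [mk_x, mk_a, mk_b, hom_x]
  · simp [mk_a, hom_a]
  · rw [mk_b, hom_b, mk_b]
    by_cases h : l = i
    · subst h
      rw [Pi.single_eq_same, hom_dl]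
    · rw [Pi.single_eq_of_ne h, map_zero]

/-- weights which vanish on the parameters -/
structure Wt (w : VV p → ℤ) : Prop where
  a : ∀ i, w (Sum.inr (Sum.inl i)) = 0
  b : ∀ i, w (Sum.inr (Sum.inr i)) = 0

theorem wt_S (c : ℕ) : Wt (wS c : VV p → ℤ) := ⟨fun _ => rfl, fun _ => rfl⟩
theorem wt_L : Wt (wL : VV p → ℤ) := ⟨fun _ => rfl, fun _ => rfl⟩
theorem wt_D : Wt (wD : VV p → ℤ) := ⟨fun _ => rfl, fun _ => rfl⟩
theorem wt_J : Wt (wJ : VV p → ℤ) := ⟨fun _ => rfl, fun _ => rfl⟩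

theorem up_x (w : VV p → ℤ) (k : Fin 4) : Up w (w (Sum.inl k)) (xv k : TT p) := Up.X _

theorem Wt.av {w : VV p → ℤ} (hw : Wt w) (i : Fin p) : Up w 0 (av i : TT p) := by
  have h := Up.X (w := w) (R := ℂ) (Sum.inr (Sum.inl i))
  rwa [hw.a] at h

theorem Wt.bv {w : VV p → ℤ} (hw : Wt w) (i : Fin p) : Up w 0 (bv i : TT p) := by
  have h := Up.X (w := w) (R := ℂ) (Sum.inr (Sum.inr i))
  rwa [hw.b] at h

theorem Wt.dl {w : VV p → ℤ} (hw : Wt w) (i : Fin p) : Up w 0 (dl i : TT p) := by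
  unfold LN.dl
  have h := Up.prod (w := w) (Finset.univ.erase i) (f := fun l => LN.av i - LN.av l)
    (c := fun _ => 0) fun l _ => (hw.av i).sub (hw.av l)
  simpa using h

theorem Wt.dl2 {w : VV p → ℤ} (hw : Wt w) (i j : Fin p) : Up w 0 (dl2 i j : TT p) := by
  unfold LN.dl2
  have h := Up.prod (w := w) ((Finset.univ.erase i).erase j) (f := fun l => LN.av i - LN.av l)
    (c := fun _ => 0) fun l _ => (hw.av i).sub (hw.av l)
  simpa using h

theorem Up.nat {w : VV p → ℤ} (n : ℕ) : Up w 0 ((n : TT p)) := by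
  have := Up.const (w := w) (n : ℂ)
  rwa [map_natCast] at this

theorem up_mk {w : VV p → ℤ} (hw : Wt w) {e C : ℤ} {F : Fin 4 → TT p} {g h : Fin p → TT p}
    (h0 : Up w (w (Sum.inl 0) + e) (F 0)) (h1 : Up w (w (Sum.inl 1) + e) (F 1))
    (h2 : Up w (w (Sum.inl 2) + e) (F 2)) (h3 : Up w (w (Sum.inl 3) + e) (F 3))
    (hg : ∀ i, Up w e (g i)) (hh : ∀ i, Up w e (h i)) {f : TT p}
    (hf : Up w C f) : Up w (C + e) (mk F g h f) := by
  refine Up.der (fun v => ?_) hf
  rcases v with k | i | i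
  · fin_cases k
    · exact h0
    · exact h1
    · exact h2
    · exact h3
  · exact (hg i).mono (by rw [hw.a, zero_add])
  · exact (hh i).mono (by rw [hw.b, zero_add])

theorem up_single {w : VV p → ℤ} (hw : Wt w) (k : Fin p) (i : Fin p) :
    Up w 0 ((Pi.single k (dl k) : Fin p → TT p) i) := by
  by_cases h : i = k
  · subst h
    rw [Pi.single_eq_same]
    exact hw.dl i
  · rw [Pi.single_eq_of_ne h]
    exact Up.zero _ _

theorem up_A {w : VV p → ℤ} (hw : Wt w) {C : ℤ} (k : Fin p) {f : TT p} (hf : Up w C f) :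
    Up w C (tA k f) := by
  have h := up_mk hw (e := 0) (F := 0) (g := Pi.single k (dl k)) (h := 0) (Up.zero _ _)
    (Up.zero _ _) (Up.zero _ _) (Up.zero _ _) (up_single hw k) (fun _ => Up.zero _ _) hf
  rwa [add_zero] at h

theorem up_B {w : VV p → ℤ} (hw : Wt w) {C : ℤ} (k : Fin p) {f : TT p} (hf : Up w C f) :
    Up w C (tB k f) := by
  have h := up_mk hw (e := 0) (F := 0) (g := 0) (h := Pi.single k (dl k)) (Up.zero _ _)
    (Up.zero _ _) (Up.zero _ _) (Up.zero _ _) (fun _ => Up.zero _ _) (up_single hw k) hf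
  rwa [add_zero] at h

theorem up_Y {w : VV p → ℤ} (hw : Wt w) (h1 : 0 ≤ w (Sum.inl 1)) {C : ℤ} {f : TT p}
    (hf : Up w C f) : Up w C (tY f) := by
  have h := up_mk hw (e := 0) (F := ![0, 1, 0, 0]) (g := 0) (h := 1) (Up.zero _ _)
    (Up.one.mono (by omega)) (Up.zero _ _) (Up.zero _ _) (fun _ => Up.zero _ _)
    (fun _ => Up.one) hf
  rwa [add_zero] at h

theorem up_H {w : VV p → ℤ} (hw : Wt w) (h1 : w (Sum.inl 0) ≤ w (Sum.inl 1))
    (h2 : 0 ≤ w (Sum.inl 2)) {C : ℤ} {f : TT p}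
    (hf : Up w C f) : Up w C (tH f) := by
  have h := up_mk hw (e := 0) (F := ![0, xv 0, 1, 0]) (g := 1) (h := 0) (Up.zero _ _)
    ((up_x w 0).mono (by omega)) (Up.one.mono (by omega)) (Up.zero _ _) (fun _ => Up.one)
    (fun _ => Up.zero _ _) hf
  rwa [add_zero] at h

theorem up_S {w : VV p → ℤ} (hw : Wt w) {C : ℤ} {f : TT p}
    (hf : Up w C f) : Up w C (tS f) := by
  have h := up_mk hw (e := 0) (F := ![0, xv 1, xv 2, xv 3]) (g := av) (h := bv) (Up.zero _ _)
    ((up_x w 1).mono (by omega)) ((up_x w 2).mono (by omega)) ((up_x w 3).mono (by omega))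
    hw.av hw.bv hf
  rwa [add_zero] at h

theorem wS_le (c : ℕ) (v : VV p) : wS c v ≤ 0 := by
  rcases v with k | i | i
  · fin_cases k <;> simp [wS, dv]
  · rfl
  · rfl

theorem wL_le (v : VV p) : wL v ≤ 0 := by
  rcases v with k | i | i
  · fin_cases k <;> simp [wL, dv]
  · rfl
  · rfl

/-- derivations lower the order by at most three -/
theorem up_drop {w : VV p → ℤ} (hw : Wt w) (hle : ∀ v, w v ≤ 0) (h3 : ∀ v, -3 ≤ w v)
    {F : Fin 4 → TT p} {g h : Fin p → TT p} {C : ℤ} {f : TT p} (hf : Up w C f) :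
    Up w (C + 3) (mk F g h f) := by
  have hn : ∀ (k : VV p) (a : TT p), Up w (w k + 3) a := fun k a =>
    (Up.nonpos hle a).mono (by have := h3 k; omega)
  exact up_mk hw (hn _ _) (hn _ _) (hn _ _) (hn _ _) (fun i => (Up.nonpos hle _).mono (by omega))
    (fun i => (Up.nonpos hle _).mono (by omega)) hf

theorem wS_ge {c : ℕ} (hc : c ≤ 1) (v : VV p) : -3 ≤ wS c v := by
  rcases v with k | i | i
  · fin_cases k <;> simp [wS, dv]
    omega
  · simp [wS, dv]
  · simp [wS, dv]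

theorem wL_ge (v : VV p) : -3 ≤ wL v := by
  rcases v with k | i | i
  · fin_cases k <;> simp [wL, dv]
  · simp [wL, dv]
  · simp [wL, dv]

/-- the equation of a line at a common point -/
theorem sg_ell (c : ℕ) {i j k : Fin p} (hij : i ≠ j) (hk : k = i ∨ k = j) :
    Up (wS c) (-1) (sg c i j (ell k)) := by
  have hw := wt_S (p := p) c
  have h1 : sg c i j (ell k) = xv 0 * (xv 2 + (c : TT p) * av i) -
      C (1 / 2) * xv 0 ^ 2 * xv 3 + xv 1 - av k * xv 0 := by
    unfold sg ell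
    rw [map_sub, map_sub, map_mul, hom_x, hom_x, hom_a, hom_b]
    rcases hk with rfl | rfl
    · simp
      ring
    · simp [hij.symm]
      ring
  rw [h1]
  have n : ∀ a : TT p, Up (wS c) 0 a := Up.nonpos (wS_le c)
  have x0 : Up (wS c) (-1) (xv 0 : TT p) := up_x _ 0
  have x1 : Up (wS c) (-3) (xv 1 : TT p) := up_x _ 1
  refine Up.sub (Up.add (Up.sub ?_ ?_) ?_) ?_
  · exact (x0.mul (n _)).mono (by omega)
  · exact (((n _).mul (x0.pow 2)).mul (n _)).mono (by norm_num)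
  · exact x1.mono (by omega)
  · exact ((n _).mul x0).mono (by omega)

theorem sg_A1 {c : ℕ} (hc : c ≤ 1) {i j k : Fin p} (hij : i ≠ j) (hk : k = i ∨ k = j) {C : ℤ}
    {f : TT p} (hf : Up (wS c) C (sg c i j f)) : Up (wS c) (C + 3) (sg c i j (tA k f)) := by
  have hdrop : ∀ {s e h : TT p} {g : Fin p → TT p}, Up (wS c) (C + 3)
      (mv c i j s e h g (sg c i j f)) := fun {s e h g} =>
    up_drop (wt_S c) (wS_le c) (wS_ge hc) hf
  have hs : ∀ l, sg c i j ((Pi.single k (dl k) : Fin p → TT p) l) =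
      (Pi.single k (dl k) : Fin p → TT p) l := by
    intro l
    by_cases h : l = k
    · subst h
      rw [Pi.single_eq_same]
      exact hom_dl _
    · rw [Pi.single_eq_of_ne h, map_zero]
  unfold tA
  rcases hk with rfl | rfl
  · rw [sg_mv c hij (s := -(bv j * dl2 k j)) (e := av j) (h := -((c : TT p) * dl k)) (b := 0)
      (by rw [Pi.single_eq_same]; ring) hs (fun _ _ _ => rfl) ?_ ?_ f]
    · exact hdrop
    · simp only [Pi.zero_apply, map_zero, Pi.single_eq_same]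
      rw [dl_eq hij]
      ring
    · simp only [Pi.zero_apply, map_zero, Pi.single_eq_of_ne hij.symm]
      ring
  · rw [sg_mv c hij (s := -(bv k * dl2 k i)) (e := av i) (h := 0) (b := 0)
      (by rw [Pi.single_eq_of_ne hij]; ring) hs (fun _ _ _ => rfl) ?_ ?_ f]
    · exact hdrop
    · simp only [Pi.zero_apply, map_zero, Pi.single_eq_of_ne hij]
      ring
    · simp only [Pi.zero_apply, map_zero, Pi.single_eq_same]
      rw [dl_eq hij.symm]
      ring

theorem sg_B1 {c : ℕ} (hc : c ≤ 1) {i j k : Fin p} (hij : i ≠ j) (hk : k = i ∨ k = j) {C : ℤ}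
    {f : TT p} (hf : Up (wS c) C (sg c i j f)) : Up (wS c) (C + 3) (sg c i j (tB k f)) := by
  have hdrop : ∀ {s e h : TT p} {g : Fin p → TT p}, Up (wS c) (C + 3)
      (mv c i j s e h g (sg c i j f)) := fun {s e h g} =>
    up_drop (wt_S c) (wS_le c) (wS_ge hc) hf
  have hs : ∀ l : Fin p, sg c i j ((0 : Fin p → TT p) l) = (0 : Fin p → TT p) l := fun l =>
    map_zero _
  unfold tB
  rcases hk with rfl | rfl
  · rw [sg_mv c hij (s := -dl2 k j) (e := av j) (h := 0) (by simp) hs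
      (fun l h1 _ => Pi.single_eq_of_ne h1 _) ?_ ?_ f]
    · exact hdrop
    · rw [Pi.single_eq_same, show sg c k j (dl k) = dl k from hom_dl _, dl_eq hij]
      simp only [Pi.zero_apply]
      ring
    · rw [Pi.single_eq_of_ne hij.symm, map_zero]
      simp only [Pi.zero_apply]
      ring
  · rw [sg_mv c hij (s := -dl2 k i) (e := av i) (h := 0) (by simp) hs
      (fun l _ h2 => Pi.single_eq_of_ne h2 _) ?_ ?_ f]
    · exact hdrop
    · rw [Pi.single_eq_of_ne hij, map_zero]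
      simp only [Pi.zero_apply]
      ring
    · rw [Pi.single_eq_same, show sg c i k (dl k) = dl k from hom_dl _, dl_eq hij.symm]
      simp only [Pi.zero_apply]
      ring

/-- moving a line, at a common point -/
theorem sg_cub {c : ℕ} (hc : c ≤ 1) {i j : Fin p} (hij : i ≠ j) (k : Fin p) {C : ℤ} {f : TT p}
    (hf : Up (wS c) C (sg c i j f)) : Up (wS c) C (sg c i j (ell k ^ 3 * tA k f)) ∧
      Up (wS c) C (sg c i j (ell k ^ 3 * tB k f)) := by
  rw [map_mul, map_mul, map_pow]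
  by_cases hk : k = i ∨ k = j
  · have h1 := (sg_ell c hij hk).pow 3
    exact ⟨(h1.mul (sg_A1 hc hij hk hf)).mono (by push_cast; omega),
      (h1.mul (sg_B1 hc hij hk hf)).mono (by push_cast; omega)⟩
  · push Not at hk
    rw [sg_A0 c hk.1 hk.2, sg_B0 c hk.1 hk.2]
    have n : ∀ a : TT p, Up (wS c) 0 a := Up.nonpos (wS_le c)
    exact ⟨((n _).mul (up_A (wt_S c) k hf)).mono (by omega),
      ((n _).mul (up_B (wt_S c) k hf)).mono (by omega)⟩

/-- moving a line, at a point of a line -/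
theorem lm_cub (i k : Fin p) {C : ℤ} {f : TT p}
    (hf : Up wL C (lm i f)) : Up wL C (lm i (ell k ^ 3 * tA k f)) ∧
      Up wL C (lm i (ell k ^ 3 * tB k f)) := by
  rw [map_mul, map_mul, map_pow]
  have n : ∀ a : TT p, Up wL 0 a := Up.nonpos wL_le
  by_cases hk : k = i
  · subst hk
    have h0 : lm k (ell k) = xv 1 := by
      unfold lm ell
      rw [map_sub, map_sub, map_mul, hom_x, hom_x, hom_a, hom_b]
      simp
      ring
    have x1 : Up wL (-2) (xv 1 : TT p) := up_x _ 1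
    rw [h0, lm_A1, lm_B1]
    exact ⟨((x1.pow 3).mul (up_drop wt_L wL_le wL_ge hf)).mono (by push_cast; omega),
      ((x1.pow 3).mul (up_drop wt_L wL_le wL_ge hf)).mono (by push_cast; omega)⟩
  · rw [lm_A0 hk, lm_B0 hk]
    exact ⟨((n _).mul (up_A wt_L k hf)).mono (by omega),
      ((n _).mul (up_B wt_L k hf)).mono (by omega)⟩

theorem up_ell_D (k : Fin p) : Up wD 1 (ell k : TT p) := by
  unfold ell
  have x0 : Up wD 1 (xv 0 : TT p) := up_x _ 0
  have x1 : Up wD 1 (xv 1 : TT p) := up_x _ 1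
  exact (x1.sub (((wt_D.av k).mul x0).mono (by omega))).sub ((wt_D.bv k).mono (by omega))

theorem up_ell_J (k : Fin p) : Up wJ 0 (ell k : TT p) := by
  unfold ell
  have x0 : Up wJ 0 (xv 0 : TT p) := up_x _ 0
  have x1 : Up wJ 0 (xv 1 : TT p) := up_x _ 1
  exact (x1.sub (((wt_J.av k).mul x0).mono (by omega))).sub ((wt_J.bv k).mono (by omega))

variable {C m : ℕ} {f : TT p}

theorem Fam.tA (h : Fam C m f) (k : Fin p) : Fam (C + 3) m (ell k ^ 3 * LN.tA k f) where
  dg := (((up_ell_D k).pow 3).mul (up_A wt_D k h.dg)).mono (by push_cast; omega)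
  jt := (((up_ell_J k).pow 3).mul (up_A wt_J k h.jt)).mono (by omega)
  nd := fun i j hij => (sg_cub (by omega) hij k (h.nd i j hij)).1
  tg := fun i j hij => (sg_cub le_rfl hij k (h.tg i j hij)).1
  ln := fun i => (lm_cub i k (h.ln i)).1

theorem Fam.tB (h : Fam C m f) (k : Fin p) : Fam (C + 3) m (ell k ^ 3 * LN.tB k f) where
  dg := (((up_ell_D k).pow 3).mul (up_B wt_D k h.dg)).mono (by push_cast; omega)
  jt := (((up_ell_J k).pow 3).mul (up_B wt_J k h.jt)).mono (by omega)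
  nd := fun i j hij => (sg_cub (by omega) hij k (h.nd i j hij)).2
  tg := fun i j hij => (sg_cub le_rfl hij k (h.tg i j hij)).2
  ln := fun i => (lm_cub i k (h.ln i)).2

theorem up_tY_S {c : ℕ} {i j : Fin p} (hij : i ≠ j) {C : ℤ} (hf : Up (wS c) C (sg c i j f)) :
    Up (wS c) C (sg c i j (LN.tY f)) := by
  rw [sg_tY c hij]
  have h := up_mk (wt_S c) (e := 0) (F := ![0, 0, 0, 0]) (g := 0)
    (h := fun k => if k = j then 0 else 1) (Up.zero _ _) (Up.zero _ _) (Up.zero _ _) (Up.zero _ _)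
    (fun _ => Up.zero _ _) (fun _ => Up.nonpos (wS_le c) _) hf
  rwa [add_zero] at h

theorem up_tH_S {c : ℕ} (hc : c ≤ 1) {i j : Fin p} (hij : i ≠ j) {C : ℤ}
    (hf : Up (wS c) C (sg c i j f)) : Up (wS c) C (sg c i j (LN.tH f)) := by
  rw [sg_tH c hij]
  have h := up_mk (wt_S c) (e := 0) (F := ![0, 0, 1 - (c : TT p), 0]) (g := 1)
    (h := fun k => if k = i then bv j else 0) (Up.zero _ _) (Up.zero _ _) ?_ (Up.zero _ _)
    (fun _ => Up.nonpos (wS_le c) _) (fun _ => Up.nonpos (wS_le c) _) hf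
  · rwa [add_zero] at h
  · rcases (by omega : c = 0 ∨ c = 1) with rfl | rfl
    · exact (Up.nonpos (wS_le 0) _).mono (by simp [wS, dv])
    · have : (![0, 0, 1 - ((1 : ℕ) : TT p), 0] : Fin 4 → TT p) 2 = 0 := by simp
      rw [this]
      exact Up.zero _ _

theorem up_tS_S {c : ℕ} {i j : Fin p} (hij : i ≠ j) {C : ℤ} (hf : Up (wS c) C (sg c i j f)) :
    Up (wS c) C (sg c i j (LN.tS f)) := by
  rw [sg_tS c hij]
  have h := up_mk (wt_S c) (e := 0) (F := ![0, xv 1, xv 2, xv 3]) (g := av)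
    (h := fun k => if k = j then 0 else bv k) (Up.zero _ _) ((up_x _ 1).mono (by omega))
    ((up_x _ 2).mono (by omega)) ((up_x _ 3).mono (by omega))
    (fun _ => Up.nonpos (wS_le c) _) (fun _ => Up.nonpos (wS_le c) _) hf
  rwa [add_zero] at h

theorem up_tY_L {i : Fin p} {C : ℤ} (hf : Up wL C (lm i f)) : Up wL C (lm i (LN.tY f)) := by
  rw [lm_tY]
  have h := up_mk wt_L (e := 0) (F := ![0, 0, 0, 0]) (g := 0)
    (h := 1) (Up.zero _ _) (Up.zero _ _) (Up.zero _ _) (Up.zero _ _)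
    (fun _ => Up.zero _ _) (fun _ => Up.nonpos wL_le _) hf
  rwa [add_zero] at h

theorem up_tH_L {i : Fin p} {C : ℤ} (hf : Up wL C (lm i f)) : Up wL C (lm i (LN.tH f)) := by
  rw [lm_tH]
  have h := up_mk wt_L (e := 0) (F := ![0, 0, 0, 0]) (g := 1)
    (h := 0) (Up.zero _ _) (Up.zero _ _) (Up.zero _ _) (Up.zero _ _)
    (fun _ => Up.nonpos wL_le _) (fun _ => Up.zero _ _) hf
  rwa [add_zero] at h

theorem up_tS_L {i : Fin p} {C : ℤ} (hf : Up wL C (lm i f)) : Up wL C (lm i (LN.tS f)) := by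
  rw [lm_tS]
  have h := up_mk wt_L (e := 0) (F := ![0, xv 1, xv 2, xv 3]) (g := av)
    (h := bv) (Up.zero _ _) ((up_x _ 1).mono (by omega))
    ((up_x _ 2).mono (by omega)) ((up_x _ 3).mono (by omega))
    (fun _ => Up.nonpos wL_le _) (fun _ => Up.nonpos wL_le _) hf
  rwa [add_zero] at h

theorem Fam.tY (h : Fam C m f) : Fam C m (LN.tY f) where
  dg := up_Y wt_D (by simp [wD, dv]) h.dg
  jt := up_Y wt_J (by simp [wJ, dv]) h.jt
  nd := fun i j hij => up_tY_S hij (h.nd i j hij)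
  tg := fun i j hij => up_tY_S hij (h.tg i j hij)
  ln := fun i => up_tY_L (h.ln i)

theorem Fam.tH (h : Fam C m f) : Fam C m (LN.tH f) where
  dg := up_H wt_D (by simp [wD, dv]) (by simp [wD, dv]) h.dg
  jt := up_H wt_J (by simp [wJ, dv]) (by simp [wJ, dv]) h.jt
  nd := fun i j hij => up_tH_S (by omega) hij (h.nd i j hij)
  tg := fun i j hij => up_tH_S le_rfl hij (h.tg i j hij)
  ln := fun i => up_tH_L (h.ln i)

theorem Fam.tS (h : Fam C m f) : Fam C m (LN.tS f) where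
  dg := up_S wt_D h.dg
  jt := up_S wt_J h.jt
  nd := fun i j hij => up_tS_S hij (h.nd i j hij)
  tg := fun i j hij => up_tS_S hij (h.tg i j hij)
  ln := fun i => up_tS_L (h.ln i)

theorem Fam.mono {C' : ℕ} (h : Fam C m f) (hC : C ≤ C') : Fam C' m f :=
  ⟨h.dg.mono (by exact_mod_cast hC), h.jt, h.nd, h.tg, h.ln⟩

end Pool.Agent.K9h12.LN
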