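import Pool.Agent.K9h12.LN.Stab

/-!
Existence of forms with the conditions on the lines.
-/

set_option autoImplicit false

open MvPolynomial

namespace Pool.Agent.K9h12.LN

/-- linear systems with more unknowns than equations -/
theorem lin_exists {R ι E : Type} [CommRing R] [Nontrivial R] [Fintype ι] [Fintype E]
    (A : E → ι → R) (h : Fintype.card E < Fintype.card ι) :
    ∃ c : ι → R, c ≠ 0 ∧ ∀ e, ∑ q, c q * A e q = 0 := by
  classical
  let S : (ι → R) →ₗ[R] (E → R) := LinearMap.pi fun e => ∑ q, (LinearMap.proj q).smulRight (A e q)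
  have hS : ∀ c e, S c e = ∑ q, c q * A e q := fun c e => by
    simp [S]
  have h1 : ¬ Function.Injective S := by
    intro hinj
    have h2 := card_le_of_injective _ S hinj
    omega
  rw [← LinearMap.ker_eq_bot, Submodule.eq_bot_iff] at h1
  push Not at h1
  obtain ⟨c, hc, hc0⟩ := h1
  refine ⟨c, hc0, fun e => ?_⟩
  rw [← hS]
  exact congrFun (LinearMap.mem_ker.1 hc) e

/-- the exponents of the coordinates -/
def tri (C : ℕ) : Finset (Σ _ : ℕ, ℕ) := (Finset.range (C + 1)).sigma fun a => Finset.range (C - a + 1)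

/-- the exponents of the jets -/
def jt (M : ℕ) : Finset (Σ _ : ℕ, ℕ) :=
  (Finset.range (M + 1)).sigma fun l => Finset.range (3 * (M - l) + 1)

theorem mem_tri {C : ℕ} {q : Σ _ : ℕ, ℕ} : q ∈ tri C ↔ q.1 + q.2 ≤ C := by
  unfold tri
  rw [Finset.mem_sigma, Finset.mem_range, Finset.mem_range]
  omega

theorem mem_jt {M : ℕ} {q : Σ _ : ℕ, ℕ} : q ∈ jt M ↔ q.2 + 3 * q.1 ≤ 3 * M := by
  unfold jt
  rw [Finset.mem_sigma, Finset.mem_range, Finset.mem_range]
  omega

theorem card_tri (C : ℕ) : 2 * (tri C).card = (C + 1) * (C + 2) := by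
  unfold tri
  rw [Finset.card_sigma]
  simp only [Finset.card_range]
  have h := Finset.sum_range_reflect (fun x => x + 1) (C + 1)
  simp only [Nat.add_sub_cancel] at h
  rw [h]
  clear h
  induction C with
  | zero => rfl
  | succ C ih =>
    rw [Finset.sum_range_succ, mul_add, ih]
    ring

theorem card_jt (M : ℕ) : 2 * (jt M).card = (M + 1) * (3 * M + 2) := by
  unfold jt
  rw [Finset.card_sigma]
  simp only [Finset.card_range]
  have h := Finset.sum_range_reflect (fun x => 3 * x + 1) (M + 1)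
  simp only [Nat.add_sub_cancel] at h
  rw [h]
  clear h
  induction M with
  | zero => rfl
  | succ C ih =>
    rw [Finset.sum_range_succ, mul_add, ih]
    ring

/-- the small orders at a common point -/
def E12 : Finset (ℕ × ℕ) :=
  (Finset.range 12 ×ˢ Finset.range 4).filter fun r => r.1 + 3 * r.2 < 12

/-- the small orders at a common point, along a tangent curve -/
def E18 : Finset (ℕ × ℕ × ℕ) := (Finset.range 18 ×ˢ (Finset.range 6 ×ˢ Finset.range 6)).filter
  fun r => 12 ≤ r.1 + 3 * r.2.1 ∧ r.1 + 3 * r.2.1 + r.2.2 < 18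

/-- the small orders at a point of a line -/
def E42 : Finset (ℕ × ℕ) :=
  (Finset.range 6 ×ˢ Finset.range 12).filter fun r => 2 * r.1 + r.2 < 12

theorem card_E12 : E12.card = 30 := by decide

theorem card_E42 : E42.card = 42 := by decide

set_option maxRecDepth 20000 in
theorem card_E18 : E18.card = 111 := by decide

/-- the exponent -/
noncomputable def ex (a b c d : ℕ) : Fin 4 →₀ ℕ := Finsupp.equivFunOnFinite.symm ![a, b, c, d]

theorem ex_eq (μ : Fin 4 →₀ ℕ) : ex (μ 0) (μ 1) (μ 2) (μ 3) = μ := by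
  ext k
  fin_cases k <;> rfl

variable {p : ℕ}

/-- the polynomials in the parameters -/
abbrev Rp (p : ℕ) : Type := MvPolynomial (Fin p ⊕ Fin p) ℂ

/-- polynomials in four variables over the polynomials in the parameters -/
abbrev R4 (p : ℕ) : Type := MvPolynomial (Fin 4) (Rp p)

/-- the slopes -/
noncomputable def ar (i : Fin p) : Rp p := X (Sum.inl i)

/-- the heights -/
noncomputable def br (i : Fin p) : Rp p := X (Sum.inr i)

/-- the slope of a curve -/
noncomputable def Zr (c : ℕ) (i : Fin p) : R4 p := X 2 + C ((c : Rp p) * ar i)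

/-- the first coordinate at a common point, without denominator -/
noncomputable def Ur (i j : Fin p) : R4 p := C (br j - br i) + C (ar i - ar j) * X 0

/-- the second coordinate at a common point, without denominator -/
noncomputable def Vr (c : ℕ) (i j : Fin p) : R4 p := C (ar i * br j - ar j * br i) +
  C (ar i - ar j) * (X 0 * Zr c i - C (C (1 / 2)) * X 0 ^ 2 * X 3 + X 1)

/-- a monomial at a common point -/
noncomputable def Ws (N c : ℕ) (i j : Fin p) (a b k l : ℕ) : R4 p :=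
  C (ar i - ar j) ^ (N - a - b) * Ur i j ^ a * Vr c i j ^ b * (Zr c i ^ k * X 3 ^ l)

/-- a monomial at a point of a line -/
noncomputable def Wl (i : Fin p) (a b k l : ℕ) : R4 p :=
  X 0 ^ a * (C (ar i) * X 0 + C (br i) + X 1) ^ b * ((C (ar i) + X 2) ^ k * X 3 ^ l)

/-- the values of the parameters -/
noncomputable def ren (f : Fin p → TT p) : Rp p →ₐ[ℂ] TT p := aeval (Sum.elim av f)

theorem ren_a (f : Fin p → TT p) (i : Fin p) : ren f (ar i) = av i := by
  unfold ren ar
  rw [aeval_X]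
  rfl

theorem ren_b (f : Fin p → TT p) (i : Fin p) : ren f (br i) = f i := by
  unfold ren br
  rw [aeval_X]
  rfl

/-- the values of the parameters and the variables -/
noncomputable def slot (f : Fin p → TT p) : R4 p →+* TT p :=
  eval₂Hom (ren f : Rp p →ₐ[ℂ] TT p).toRingHom xv

theorem slot_C (f : Fin p → TT p) (r : Rp p) : slot f (C r) = ren f r := by
  unfold slot
  rw [coe_eval₂Hom, eval₂_C]
  rfl

theorem slot_X (f : Fin p → TT p) (k : Fin 4) : slot f (X k) = xv k := by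
  unfold slot
  rw [coe_eval₂Hom, eval₂_X]

theorem hom_ren (F : Fin 4 → TT p) (f : Fin p → TT p) (r : Rp p) :
    hom F av f (ren bv r) = ren f r := by
  unfold ren
  rw [← AlgHom.comp_apply]
  congr 1
  ext v : 1
  rw [AlgHom.comp_apply, aeval_X, aeval_X]
  rcases v with i | i
  · exact hom_a _ _ _ i
  · exact hom_b _ _ _ i

/-- the heights at a common point -/
noncomputable def fs (i j k : Fin p) : TT p :=
  if k = i then bv i - av i * bv j else if k = j then bv i - av j * bv j else bv k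

theorem sg_def (c : ℕ) (i j : Fin p) : sg c i j = hom ![bv j + xv 0, bv i +
    xv 0 * (xv 2 + (c : TT p) * av i) - C (1 / 2) * xv 0 ^ 2 * xv 3 + xv 1,
    xv 2 + (c : TT p) * av i, xv 3] av (fs i j) := rfl

theorem slot_Ws {N c : ℕ} {i j : Fin p} (hij : i ≠ j) {a b : ℕ} (k l : ℕ) (hab : a + b ≤ N) :
    slot (fs i j) (Ws N c i j a b k l) = (av i - av j) ^ N *
      sg c i j (xv 0 ^ a * xv 1 ^ b * (xv 2 ^ k * xv 3 ^ l)) := by
  have e0 : fs i j i = bv i - av i * bv j := by unfold fs; rw [if_pos rfl]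
  have e1 : fs i j j = bv i - av j * bv j := by
    unfold fs; rw [if_neg hij.symm, if_pos rfl]
  have hZ : slot (fs i j) (Zr c i) = xv 2 + (c : TT p) * av i := by
    unfold Zr
    rw [map_add, slot_X, slot_C, map_mul, ren_a, map_natCast]
  have hd : ren (fs i j) (ar i - ar j) = av i - av j := by rw [map_sub, ren_a, ren_a]
  have hU : slot (fs i j) (Ur i j) = (av i - av j) * (bv j + xv 0) := by
    unfold Ur
    rw [map_add, map_mul, slot_C, slot_C, slot_X, hd, map_sub, ren_b, ren_b, e0, e1]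
    ring
  have hV : slot (fs i j) (Vr c i j) = (av i - av j) * (bv i +
      xv 0 * (xv 2 + (c : TT p) * av i) - C (1 / 2) * xv 0 ^ 2 * xv 3 + xv 1) := by
    have hC : ren (fs i j) (C (1 / 2)) = C (1 / 2) := (ren (fs i j)).commutes (1 / 2)
    have hr : ren (fs i j) (ar i * br j - ar j * br i) = av i * (bv i - av j * bv j) -
        av j * (bv i - av i * bv j) := by
      rw [map_sub, map_mul, map_mul, ren_a, ren_a, ren_b, ren_b, e0, e1]
    unfold Vr
    rw [map_add, slot_C, hr, map_mul, slot_C, hd, map_add, map_sub, map_mul, slot_X, hZ, map_mul,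
      map_mul, map_pow, slot_C, hC, slot_X, slot_X, slot_X]
    ring
  unfold Ws
  rw [map_mul, map_mul, map_mul, map_pow, map_pow, map_pow, map_mul, map_pow, map_pow, slot_C, hd,
    hU, hV, hZ, slot_X, sg_def]
  simp only [map_mul, map_pow, hom_x]
  obtain ⟨n, hn⟩ : ∃ n, N = n + a + b := ⟨N - a - b, by omega⟩
  rw [show N - a - b = n by omega, hn]
  simp only [Matrix.cons_val_zero, Matrix.cons_val_one, Matrix.cons_val, mul_pow, pow_add]
  ring

theorem slot_Wl (i : Fin p) (a b k l : ℕ) :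
    slot bv (Wl i a b k l) = lm i (xv 0 ^ a * xv 1 ^ b * (xv 2 ^ k * xv 3 ^ l)) := by
  unfold Wl lm
  simp only [map_mul, map_pow, map_add, slot_C, slot_X, ren_a, ren_b, hom_x]
  rfl

/-- the unknown coefficients -/
abbrev Ix (N M : ℕ) : Type := ↥(tri N) × ↥(jt M)

/-- the form of a system of coefficients -/
noncomputable def Ph {N M : ℕ} (c : Ix N M → Rp p) : TT p :=
  ∑ q : Ix N M, ren bv (c q) * (xv 0 ^ q.1.1.1 * xv 1 ^ q.1.1.2 *
    (xv 2 ^ q.2.1.2 * xv 3 ^ q.2.1.1))

/-- the polynomial of a system of coefficients at a common point -/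
noncomputable def Gs {N M : ℕ} (c : ℕ) (i j : Fin p) (f : Ix N M → Rp p) : R4 p :=
  ∑ q : Ix N M, C (f q) * Ws N c i j q.1.1.1 q.1.1.2 q.2.1.2 q.2.1.1

/-- the polynomial of a system of coefficients at a point of a line -/
noncomputable def Gl {N M : ℕ} (i : Fin p) (f : Ix N M → Rp p) : R4 p :=
  ∑ q : Ix N M, C (f q) * Wl i q.1.1.1 q.1.1.2 q.2.1.2 q.2.1.1

theorem slot_Gs {N M c : ℕ} {i j : Fin p} (hij : i ≠ j) (f : Ix N M → Rp p) :
    slot (fs i j) (Gs c i j f) = (av i - av j) ^ N * sg c i j (Ph f) := by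
  unfold Gs Ph
  rw [map_sum, map_sum, Finset.mul_sum]
  refine Finset.sum_congr rfl fun q _ => ?_
  rw [map_mul, slot_C, slot_Ws hij _ _ (mem_tri.1 q.1.2), map_mul (sg c i j) (ren bv (f q))]
  have h : sg c i j (ren bv (f q)) = ren (fs i j) (f q) := hom_ren _ _ _
  rw [h]
  ring

theorem slot_Gl {N M : ℕ} (i : Fin p) (f : Ix N M → Rp p) :
    slot bv (Gl i f) = lm i (Ph f) := by
  unfold Gl Ph
  rw [map_sum, map_sum]
  refine Finset.sum_congr rfl fun q _ => ?_
  rw [map_mul, slot_C, slot_Wl, map_mul (lm i) (ren bv (f q))]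
  have h : lm i (ren bv (f q)) = ren bv (f q) := hom_ren _ _ _
  rw [h]

theorem coeff_Gs {N M c : ℕ} (i j : Fin p) (f : Ix N M → Rp p) (μ : Fin 4 →₀ ℕ) :
    coeff μ (Gs c i j f) =
      ∑ q : Ix N M, f q * coeff μ (Ws N c i j q.1.1.1 q.1.1.2 q.2.1.2 q.2.1.1) := by
  unfold Gs
  rw [coeff_sum]
  exact Finset.sum_congr rfl fun q _ => coeff_C_mul _ _ _

theorem coeff_Gl {N M : ℕ} (i : Fin p) (f : Ix N M → Rp p) (μ : Fin 4 →₀ ℕ) :
    coeff μ (Gl i f) =
      ∑ q : Ix N M, f q * coeff μ (Wl i q.1.1.1 q.1.1.2 q.2.1.2 q.2.1.1) := by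
  unfold Gl
  rw [coeff_sum]
  exact Finset.sum_congr rfl fun q _ => coeff_C_mul _ _ _

theorem weight4 (w : Fin 4 → ℤ) (μ : Fin 4 →₀ ℕ) : Finsupp.weight w μ =
    μ 0 * w 0 + μ 1 * w 1 + μ 2 * w 2 + μ 3 * w 3 := by
  rw [Finsupp.weight_eq_sum, Fin.sum_univ_four]
  simp

/-- the bound for the jets -/
theorem up_Gs {N M c : ℕ} (i j : Fin p) (f : Ix N M → Rp p) :
    Up ![-3, 0, 2, 6] (6 * M) (Gs c i j f) := by
  have x0 : Up ![-3, 0, 2, 6] (-3) (X 0 : R4 p) := Up.X 0
  have x1 : Up ![-3, 0, 2, 6] 0 (X 1 : R4 p) := Up.X 1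
  have x2 : Up ![-3, 0, 2, 6] 2 (X 2 : R4 p) := Up.X 2
  have x3 : Up ![-3, 0, 2, 6] 6 (X 3 : R4 p) := Up.X 3
  have cst : ∀ r : Rp p, Up ![-3, 0, 2, 6] 0 (C r : R4 p) := fun r => Up.const r
  have hZ : Up ![-3, 0, 2, 6] 2 (Zr c i) := x2.add ((cst _).mono (by omega))
  have hU : Up ![-3, 0, 2, 6] 0 (Ur i j) :=
    (cst _).add (((cst _).mul x0).mono (by omega))
  have hV : Up ![-3, 0, 2, 6] 0 (Vr c i j) := by
    refine (cst _).add (((cst _).mul (C' := 0) ?_).mono (by omega))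
    refine Up.add (Up.sub ((x0.mul hZ).mono (by omega)) ?_) x1
    exact (((cst _).mul (x0.pow 2)).mul x3).mono (by norm_num)
  refine Up.sum _ fun q _ => ?_
  have hq := mem_jt.1 q.2.2
  unfold Ws
  refine ((cst _).mul ((((((cst _).pow _).mul (hU.pow _)).mul (hV.pow _)).mul
    ((hZ.pow _).mul (x3.pow _))))).mono ?_
  push_cast
  omega

theorem up_Gl_a {N M : ℕ} (i : Fin p) (f : Ix N M → Rp p) : Up ![1, 0, 0, 0] N (Gl i f) := by
  have x0 : Up ![1, 0, 0, 0] 1 (X 0 : R4 p) := Up.X 0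
  have x1 : Up ![1, 0, 0, 0] 0 (X 1 : R4 p) := Up.X 1
  have x2 : Up ![1, 0, 0, 0] 0 (X 2 : R4 p) := Up.X 2
  have x3 : Up ![1, 0, 0, 0] 0 (X 3 : R4 p) := Up.X 3
  have cst : ∀ r : Rp p, Up ![1, 0, 0, 0] 0 (C r : R4 p) := fun r => Up.const r
  refine Up.sum _ fun q _ => ?_
  have hq := mem_tri.1 q.1.2
  unfold Wl
  have hV : Up ![1, 0, 0, 0] 1 (C (ar i) * X 0 + C (br i) + X 1 : R4 p) :=
    ((((cst _).mul x0).mono (by omega)).add ((cst _).mono (by omega))).add (x1.mono (by omega))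
  refine ((cst _).mul (((x0.pow _).mul (hV.pow _)).mul
    ((((cst _).add x2).pow _).mul (x3.pow _)))).mono ?_
  push_cast
  omega

theorem up_Gl_b {N M : ℕ} (i : Fin p) (f : Ix N M → Rp p) : Up ![0, 0, 0, 1] M (Gl i f) := by
  have x0 : Up ![0, 0, 0, 1] 0 (X 0 : R4 p) := Up.X 0
  have x1 : Up ![0, 0, 0, 1] 0 (X 1 : R4 p) := Up.X 1
  have x2 : Up ![0, 0, 0, 1] 0 (X 2 : R4 p) := Up.X 2
  have x3 : Up ![0, 0, 0, 1] 1 (X 3 : R4 p) := Up.X 3
  have cst : ∀ r : Rp p, Up ![0, 0, 0, 1] 0 (C r : R4 p) := fun r => Up.const r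
  refine Up.sum _ fun q _ => ?_
  have hq := mem_jt.1 q.2.2
  unfold Wl
  have hV : Up ![0, 0, 0, 1] 0 (C (ar i) * X 0 + C (br i) + X 1 : R4 p) :=
    ((((cst _).mul x0).mono (by omega)).add ((cst _).mono (by omega))).add (x1.mono (by omega))
  refine ((cst _).mul (((x0.pow _).mul (hV.pow _)).mul
    ((((cst _).add x2).pow _).mul (x3.pow _)))).mono ?_
  push_cast
  omega

/-- exchanging the lines -/
theorem Gs_swap {N M : ℕ} (i j : Fin p) (f : Ix N M → Rp p) :
    Gs 0 j i f = (-1) ^ N * Gs 0 i j f := by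
  unfold Gs
  rw [Finset.mul_sum]
  refine Finset.sum_congr rfl fun q _ => ?_
  have hq := mem_tri.1 q.1.2
  have e1 : (C (ar j - ar i) : R4 p) = -C (ar i - ar j) := by rw [← map_neg]; congr 1; ring
  have e2 : Ur j i = -Ur i j := by
    unfold Ur
    rw [e1, show (br i - br j : Rp p) = -(br j - br i) by ring, map_neg]
    ring
  have e3 : Vr 0 j i = -Vr 0 i j := by
    unfold Vr Zr
    rw [e1, show (ar j * br i - ar i * br j : Rp p) = -(ar i * br j - ar j * br i) by ring, map_neg]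
    simp
    ring
  have e4 : Zr 0 j = Zr 0 i := by unfold Zr; simp
  have np : ∀ (a : R4 p) (n : ℕ), (-a) ^ n = (-1) ^ n * a ^ n := fun a n => neg_pow a n
  unfold Ws
  rw [e1, e2, e3, e4, np, np (Ur i j), np (Vr 0 i j)]
  obtain ⟨n, hn⟩ : ∃ n, N = n + q.1.1.1 + q.1.1.2 := ⟨N - q.1.1.1 - q.1.1.2, by omega⟩
  rw [show N - q.1.1.1 - q.1.1.2 = n by omega]
  have e5 : ((-1 : R4 p)) ^ N = (-1) ^ n * (-1) ^ q.1.1.1 * (-1) ^ q.1.1.2 := by
    rw [← pow_add, ← pow_add, ← hn]
  rw [e5]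
  ring

/-- the change of the slope -/
noncomputable def shf (i : Fin p) : R4 p →ₐ[Rp p] R4 p := aeval ![X 0, X 1, X 2 + C (ar i), X 3]

theorem shf_Gs {N M : ℕ} (i j : Fin p) (f : Ix N M → Rp p) : shf i (Gs 0 i j f) = Gs 1 i j f := by
  have hC : ∀ r : Rp p, shf i (C r) = C r := fun r => (shf i).commutes r
  have h0 : shf i (X 0) = X 0 := by unfold shf; rw [aeval_X]; rfl
  have h1 : shf i (X 1) = X 1 := by unfold shf; rw [aeval_X]; rfl
  have h2 : shf i (X 2) = X 2 + C (ar i) := by unfold shf; rw [aeval_X]; rfl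
  have h3 : shf i (X 3) = X 3 := by unfold shf; rw [aeval_X]; rfl
  have hZ : shf i (Zr 0 i) = Zr 1 i := by
    unfold Zr
    rw [map_add, hC, h2]
    simp
  have hU : shf i (Ur i j) = Ur i j := by
    unfold Ur
    rw [map_add, map_mul, hC, hC, h0]
  have hV : shf i (Vr 0 i j) = Vr 1 i j := by
    unfold Vr
    simp only [map_add, map_sub, map_mul, map_pow, hC, h0, h1, h3, hZ]
  unfold Gs Ws
  simp only [map_sum, map_mul, map_pow, hC, hZ, hU, hV, h3]

end Pool.Agent.K9h12.LN
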