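import Pool.Agent.K9h12.LN.Fam

/-!
Specialisation of the forms at general lines.
-/

set_option autoImplicit false

open MvPolynomial

namespace Pool.Agent.K9h12.LN

variable {p : ℕ}

/-- the values of the variables -/
noncomputable def vals {K : Type} [Field K] [Algebra ℂ K] (α β : Fin p → ℂ) (z : Fin 4 → K) :
    VV p → K := dv z (fun i => algebraMap ℂ K (α i)) fun i => algebraMap ℂ K (β i)

theorem vars_A2 {B : TT p} (hB : B ∈ A2 p) : Sum.inl 2 ∉ B.vars ∧ Sum.inl 3 ∉ B.vars := by
  have key : ∀ v : VV p, pderiv v B = 0 → v ∉ B.vars := by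
    intro v h0 hv
    obtain ⟨μ, hμ, hv'⟩ := (MvPolynomial.mem_vars v).1 hv
    rw [Finsupp.mem_support_iff] at hv'
    have h1 := congrArg (coeff (μ - Finsupp.single v 1)) h0
    rw [coeff_pderiv, coeff_zero, Finsupp.sub_add_single_one_cancel hv'] at h1
    rcases mul_eq_zero.1 h1 with h2 | h2
    · exact (MvPolynomial.mem_support_iff.1 hμ) h2
    · exact absurd h2 (by
        have : ((μ - Finsupp.single v 1 : VV p →₀ ℕ) v : ℂ) + 1 ≠ 0 := Nat.cast_add_one_ne_zero _
        simpa using this)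
  exact ⟨key _ hB.1, key _ hB.2⟩

theorem aeval_A2 {K : Type} [CommRing K] [Algebra ℂ K] {B : TT p} (hB : B ∈ A2 p) {f g : VV p → K}
    (h : ∀ v, v ≠ Sum.inl 2 → v ≠ Sum.inl 3 → f v = g v) : aeval f B = aeval g B := by
  obtain ⟨h2, h3⟩ := vars_A2 hB
  refine MvPolynomial.eval₂Hom_congr' rfl (fun v hv _ => ?_) rfl
  exact h v (fun e => h2 (e ▸ hv)) fun e => h3 (e ▸ hv)

/-- **Forms for general lines without common zeros.** -/
theorem exists_forms {p : ℕ} (hp : 0 < p) :
    ∃ Ψ : MvPolynomial (Fin p ⊕ Fin p) ℂ, Ψ ≠ 0 ∧ ∀ α β : Fin p → ℂ,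
      MvPolynomial.eval (Sum.elim α β) Ψ ≠ 0 → ∃ H : MvPolynomial (Fin 2) ℂ, H ≠ 0 ∧
      ∃ S : Finset (TT p), (∀ f ∈ S, Fam (289 * p / 50 + 3000) 750 f) ∧
        ∀ (K : Type) [Field K] [Algebra ℂ K] (z : Fin 4 → K), aeval ![z 0, z 1] H ≠ 0 → z 3 ≠ 0 →
          ∃ f ∈ S, aeval (vals α β z) f ≠ 0 := by
  classical
  obtain ⟨f, hf0, hf⟩ := exists_fam' hp
  obtain ⟨l0, -, B, hBA, hB0, hmem⟩ := exists_mono (M := 250) hf hf0
  unfold SS at hmem
  rw [Submodule.mem_span_set] at hmem
  obtain ⟨c, hc, hsum⟩ := hmem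
  -- a point where the polynomial does not vanish
  obtain ⟨w, hw⟩ : ∃ w : VV p → ℂ, MvPolynomial.eval w B ≠ 0 := by
    by_contra hcon
    push Not at hcon
    exact hB0 (MvPolynomial.funext fun w => by rw [hcon w, map_zero])
  let Ψ : Rp p := aeval (dv (fun k => MvPolynomial.C (w (Sum.inl k))) (fun i => X (Sum.inl i))
    fun i => X (Sum.inr i)) B
  have hΨ : ∀ α β : Fin p → ℂ, MvPolynomial.eval (Sum.elim α β) Ψ =
      aeval (dv (fun k => w (Sum.inl k)) α β) B := by
    intro α β
    have h1 : (aeval (Sum.elim α β) : Rp p →ₐ[ℂ] ℂ) Ψ = aeval (dv (fun k => w (Sum.inl k)) α β) B := by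
      simp only [Ψ]
      rw [← AlgHom.comp_apply, comp_aeval]
      congr 2
      funext v
      rcases v with l | j | j
      · simp [dv]
      · simp [dv]
      · simp [dv]
    rwa [MvPolynomial.aeval_eq_eval] at h1
  refine ⟨Ψ, ?_, ?_⟩
  · intro h1
    have h2 := hΨ (fun i => w (Sum.inr (Sum.inl i))) fun i => w (Sum.inr (Sum.inr i))
    rw [h1, map_zero] at h2
    apply hw
    rw [h2, MvPolynomial.aeval_eq_eval]
    congr 2
    funext v
    rcases v with l | j | j <;> rfl
  intro α β hαβ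
  let H : MvPolynomial (Fin 2) ℂ := aeval (dv ![X 0, X 1, 0, 0] (fun i => MvPolynomial.C (α i))
    fun i => MvPolynomial.C (β i)) B
  have hH : ∀ (K : Type) [Field K] [Algebra ℂ K] (z : Fin 4 → K),
      aeval ![z 0, z 1] H = aeval (vals α β z) B := by
    intro K _ _ z
    have h1 : aeval ![z 0, z 1] H = aeval (vals α β ![z 0, z 1, 0, 0]) B := by
      simp only [H]
      rw [← AlgHom.comp_apply, comp_aeval]
      congr 2
      funext v
      rcases v with l | j | j
      · fin_cases l <;> simp [dv, vals]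
      · simp [dv, vals]
      · simp [dv, vals]
    rw [h1]
    refine aeval_A2 hBA fun v h2 h3 => ?_
    rcases v with l | j | j
    · fin_cases l
      · rfl
      · rfl
      · exact absurd rfl h2
      · exact absurd rfl h3
    · rfl
    · rfl
  refine ⟨H, ?_, c.support, fun g hg => ?_, ?_⟩
  · intro h0
    have h1 := hH ℂ fun k => w (Sum.inl k)
    rw [h0, map_zero] at h1
    apply hαβ
    rw [hΨ, h1]
    rfl
  · have := hc (Finset.mem_coe.2 hg)
    exact this
  · intro K _ _ z hz h3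
    by_contra hcon
    push Not at hcon
    have h1 := congrArg (aeval (vals α β z)) hsum
    rw [Finsupp.sum, map_sum, map_mul, map_pow] at h1
    have h2 : aeval (vals α β z) (xv 3 : TT p) = z 3 := by
      unfold xv
      rw [aeval_X]
      rfl
    rw [h2, ← hH] at h1
    have h4 : ∑ g ∈ c.support, aeval (vals α β z) (c g • g) = 0 := by
      refine Finset.sum_eq_zero fun g hg => ?_
      have h5 : c g • g = (c g : TT p) * g := rfl
      rw [h5, map_mul, hcon g hg, mul_zero]
    rw [h4] at h1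
    exact mul_ne_zero hz (pow_ne_zero _ h3) h1.symm

end Pool.Agent.K9h12.LN
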