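import Pool.Agent.K9h12.LN.Pres

/-!
Stabilisation: the vector fields moving the lines produce a monomial.
-/

set_option autoImplicit false

open MvPolynomial

namespace Pool.Agent.K9h12.LN

variable {p : ℕ}

/-- the derivative by the slope -/
noncomputable def dz : Derivation ℂ (TT p) (TT p) := pderiv (Sum.inl 2)

/-- the derivative by the second jet coordinate -/
noncomputable def dk : Derivation ℂ (TT p) (TT p) := pderiv (Sum.inl 3)

/-- the degree operator -/
noncomputable def de : Derivation ℂ (TT p) (TT p) :=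
  (X (Sum.inl 2) : TT p) • pderiv (Sum.inl 2) + (X (Sum.inl 3) : TT p) • pderiv (Sum.inl 3)

/-- the polynomials without jet coordinates -/
noncomputable def A2 (p : ℕ) : Subalgebra ℂ (TT p) where
  carrier := {c | dz c = 0 ∧ dk c = 0}
  mul_mem' {a b} ha hb := by
    constructor
    · rw [Derivation.leibniz, ha.1, hb.1, smul_zero, smul_zero, add_zero]
    · rw [Derivation.leibniz, ha.2, hb.2, smul_zero, smul_zero, add_zero]
  add_mem' {a b} ha hb := by
    constructor
    · rw [map_add, ha.1, hb.1, add_zero]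
    · rw [map_add, ha.2, hb.2, add_zero]
  algebraMap_mem' c := ⟨dz.map_algebraMap c, dk.map_algebraMap c⟩

theorem mem_A2 {c : TT p} : c ∈ A2 p ↔ dz c = 0 ∧ dk c = 0 := Iff.rfl

theorem X_A2 {v : VV p} (h2 : v ≠ Sum.inl 2) (h3 : v ≠ Sum.inl 3) : (X v : TT p) ∈ A2 p := by
  constructor
  · exact pderiv_X_of_ne h2
  · exact pderiv_X_of_ne h3

theorem x0_A2 : (xv 0 : TT p) ∈ A2 p := X_A2 (by simp) (by simp)
theorem x1_A2 : (xv 1 : TT p) ∈ A2 p := X_A2 (by simp) (by simp)
theorem av_A2 (i : Fin p) : (av i : TT p) ∈ A2 p := X_A2 (by simp) (by simp)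
theorem bv_A2 (i : Fin p) : (bv i : TT p) ∈ A2 p := X_A2 (by simp) (by simp)

theorem dl_A2 (i : Fin p) : (dl i : TT p) ∈ A2 p :=
  (A2 p).prod_mem fun l _ => (A2 p).sub_mem (av_A2 i) (av_A2 l)

theorem ell_A2 (i : Fin p) : (ell i : TT p) ∈ A2 p :=
  (A2 p).sub_mem ((A2 p).sub_mem x1_A2 ((A2 p).mul_mem (av_A2 i) x0_A2)) (bv_A2 i)

theorem de_A2 {c : TT p} (h : c ∈ A2 p) : de c = 0 := by
  unfold de
  have h1 : pderiv (Sum.inl 2) c = 0 := h.1
  have h2 : pderiv (Sum.inl 3) c = 0 := h.2
  rw [Derivation.add_apply, Derivation.smul_apply, Derivation.smul_apply, h1, h2]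
  simp

/-- the product of the lines and the differences -/
noncomputable def bb (p : ℕ) : TT p := ∏ k : Fin p, (ell k ^ 3 * dl k)

/-- the product without one factor -/
noncomputable def cb (k : Fin p) : TT p := ∏ l ∈ Finset.univ.erase k, (ell l ^ 3 * dl l)

theorem bb_eq (k : Fin p) : bb p = cb k * (ell k ^ 3 * dl k) := by
  unfold bb cb
  exact (Finset.prod_erase_mul _ _ (Finset.mem_univ k)).symm

theorem bb_A2 : bb p ∈ A2 p :=
  (A2 p).prod_mem fun l _ => (A2 p).mul_mem ((A2 p).pow_mem (ell_A2 l) 3) (dl_A2 l)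

theorem cb_A2 (k : Fin p) : cb k ∈ A2 p :=
  (A2 p).prod_mem fun l _ => (A2 p).mul_mem ((A2 p).pow_mem (ell_A2 l) 3) (dl_A2 l)

theorem bb_ne : bb p ≠ 0 := by
  refine Finset.prod_ne_zero_iff.2 fun k _ => mul_ne_zero (pow_ne_zero 3 fun h => ?_) ?_
  · have h1 := congrArg (MvPolynomial.eval (dv (![0, 1, 0, 0] : Fin 4 → ℂ) 0 0)) h
    unfold ell xv av bv at h1
    simp [dv] at h1
  · unfold dl
    refine Finset.prod_ne_zero_iff.2 fun l hl => ?_
    rw [sub_ne_zero]
    intro h
    exact (Finset.ne_of_mem_erase hl) (Sum.inl.inj (Sum.inr.inj (MvPolynomial.X_injective h))).symm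

/-- the derivative by the slope in terms of the vector fields -/
theorem dz_eq : (bb p) • (dz : Derivation ℂ (TT p) (TT p)) = bb p • tH -
    (xv 0 : TT p) • (bb p • tY - ∑ k, (cb k * ell k ^ 3) • tB k) -
    ∑ k, (cb k * ell k ^ 3) • tA k := by
  refine MvPolynomial.derivation_ext fun v => ?_
  have hs : ∀ (D : Fin p → Derivation ℂ (TT p) (TT p)) (f : TT p),
      (∑ k, D k) f = ∑ k, D k f := fun D f => by
    rw [← Derivation.coeFnAddMonoidHom_apply, map_sum, Finset.sum_apply]
    rfl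
  simp only [Derivation.sub_apply, Derivation.smul_apply, hs, smul_eq_mul]
  rcases v with k | i | i
  · have e1 : ∀ l : Fin p, tB l (xv k) = 0 := fun l => by unfold tB; rw [mk_x]; rfl
    have e2 : ∀ l : Fin p, tA l (xv k) = 0 := fun l => by unfold tA; rw [mk_x]; rfl
    change bb p * dz (xv k) = bb p * tH (xv k) - xv 0 * (bb p * tY (xv k) -
      ∑ l, cb l * ell l ^ 3 * tB l (xv k)) - ∑ l, cb l * ell l ^ 3 * tA l (xv k)
    simp only [e1, e2, mul_zero, Finset.sum_const_zero, sub_zero]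
    unfold tH tY dz xv
    fin_cases k
    · simp [mk_x, pderiv_X, mkDerivation_X, mk, dv]
    · simp [mk_x, pderiv_X, mkDerivation_X, mk, dv]
      ring
    · simp [mk_x, pderiv_X, mkDerivation_X, mk, dv]
    · simp [mk_x, pderiv_X, mkDerivation_X, mk, dv]
  · have e1 : ∀ l : Fin p, tB l (av i) = 0 := fun l => by unfold tB; rw [mk_a]; rfl
    have e2 : ∀ l : Fin p, tA l (av i) = if l = i then dl i else 0 := fun l => by
      unfold tA
      rw [mk_a]
      by_cases h : l = i
      · subst h; simp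
      · rw [Pi.single_eq_of_ne (Ne.symm h), if_neg h]
    change bb p * dz (av i) = bb p * tH (av i) - xv 0 * (bb p * tY (av i) -
      ∑ l, cb l * ell l ^ 3 * tB l (av i)) - ∑ l, cb l * ell l ^ 3 * tA l (av i)
    simp only [e1, e2, mul_zero, Finset.sum_const_zero, sub_zero, mul_ite]
    rw [Finset.sum_ite_eq' Finset.univ i, if_pos (Finset.mem_univ i)]
    have e3 : dz (av i : TT p) = 0 := (av_A2 i).1
    unfold tH tY
    rw [mk_a, mk_a, e3, bb_eq i]
    simp
    ring
  · have e1 : ∀ l : Fin p, tA l (bv i) = 0 := fun l => by unfold tA; rw [mk_b]; rfl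
    have e2 : ∀ l : Fin p, tB l (bv i) = if l = i then dl i else 0 := fun l => by
      unfold tB
      rw [mk_b]
      by_cases h : l = i
      · subst h; simp
      · rw [Pi.single_eq_of_ne (Ne.symm h), if_neg h]
    change bb p * dz (bv i) = bb p * tH (bv i) - xv 0 * (bb p * tY (bv i) -
      ∑ l, cb l * ell l ^ 3 * tB l (bv i)) - ∑ l, cb l * ell l ^ 3 * tA l (bv i)
    simp only [e1, e2, mul_zero, Finset.sum_const_zero, sub_zero, mul_ite]
    rw [Finset.sum_ite_eq' Finset.univ i, if_pos (Finset.mem_univ i)]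
    have e3 : dz (bv i : TT p) = 0 := (bv_A2 i).1
    unfold tH tY
    rw [mk_b, mk_b, e3, bb_eq i]
    simp
    right
    ring

/-- the degree operator in terms of the vector fields -/
theorem de_eq : (bb p) • (de : Derivation ℂ (TT p) (TT p)) = bb p • tS -
    (xv 1 : TT p) • (bb p • tY - ∑ k, (cb k * ell k ^ 3) • tB k) -
    ∑ k, (av k * (cb k * ell k ^ 3)) • tA k - ∑ k, (bv k * (cb k * ell k ^ 3)) • tB k := by
  refine MvPolynomial.derivation_ext fun v => ?_
  have hs : ∀ (D : Fin p → Derivation ℂ (TT p) (TT p)) (f : TT p),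
      (∑ k, D k) f = ∑ k, D k f := fun D f => by
    rw [← Derivation.coeFnAddMonoidHom_apply, map_sum, Finset.sum_apply]
    rfl
  simp only [Derivation.sub_apply, Derivation.smul_apply, hs, smul_eq_mul]
  rcases v with k | i | i
  · have e1 : ∀ l : Fin p, tB l (xv k) = 0 := fun l => by unfold tB; rw [mk_x]; rfl
    have e2 : ∀ l : Fin p, tA l (xv k) = 0 := fun l => by unfold tA; rw [mk_x]; rfl
    change bb p * de (xv k) = bb p * tS (xv k) - xv 1 * (bb p * tY (xv k) -
      ∑ l, cb l * ell l ^ 3 * tB l (xv k)) - ∑ l, av l * (cb l * ell l ^ 3) * tA l (xv k) -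
      ∑ l, bv l * (cb l * ell l ^ 3) * tB l (xv k)
    simp only [e1, e2, mul_zero, Finset.sum_const_zero, sub_zero]
    unfold tS tY de xv
    fin_cases k
    · simp [mk_x, pderiv_X, mkDerivation_X, mk, dv]
    · simp [mk_x, pderiv_X, mkDerivation_X, mk, dv]
      ring
    · simp [mk_x, pderiv_X, mkDerivation_X, mk, dv]
    · simp [mk_x, pderiv_X, mkDerivation_X, mk, dv]
  · have e1 : ∀ l : Fin p, tB l (av i) = 0 := fun l => by unfold tB; rw [mk_a]; rfl
    have e2 : ∀ l : Fin p, tA l (av i) = if l = i then dl i else 0 := fun l => by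
      unfold tA
      rw [mk_a]
      by_cases h : l = i
      · subst h; simp
      · rw [Pi.single_eq_of_ne (Ne.symm h), if_neg h]
    change bb p * de (av i) = bb p * tS (av i) - xv 1 * (bb p * tY (av i) -
      ∑ l, cb l * ell l ^ 3 * tB l (av i)) - ∑ l, av l * (cb l * ell l ^ 3) * tA l (av i) -
      ∑ l, bv l * (cb l * ell l ^ 3) * tB l (av i)
    simp only [e1, e2, mul_zero, Finset.sum_const_zero, sub_zero, mul_ite]
    rw [Finset.sum_ite_eq' Finset.univ i, if_pos (Finset.mem_univ i), de_A2 (av_A2 i)]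
    unfold tS tY
    rw [mk_a, mk_a, bb_eq i]
    simp
    ring
  · have e1 : ∀ l : Fin p, tA l (bv i) = 0 := fun l => by unfold tA; rw [mk_b]; rfl
    have e2 : ∀ l : Fin p, tB l (bv i) = if l = i then dl i else 0 := fun l => by
      unfold tB
      rw [mk_b]
      by_cases h : l = i
      · subst h; simp
      · rw [Pi.single_eq_of_ne (Ne.symm h), if_neg h]
    change bb p * de (bv i) = bb p * tS (bv i) - xv 1 * (bb p * tY (bv i) -
      ∑ l, cb l * ell l ^ 3 * tB l (bv i)) - ∑ l, av l * (cb l * ell l ^ 3) * tA l (bv i) -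
      ∑ l, bv l * (cb l * ell l ^ 3) * tB l (bv i)
    simp only [e1, e2, mul_zero, Finset.sum_const_zero, sub_zero, mul_ite]
    rw [Finset.sum_ite_eq' Finset.univ i, if_pos (Finset.mem_univ i),
      Finset.sum_ite_eq' Finset.univ i, if_pos (Finset.mem_univ i), de_A2 (bv_A2 i)]
    unfold tS tY
    rw [mk_b, mk_b, bb_eq i]
    simp
    ring

/-- the combinations of the forms -/
noncomputable def SS (C m : ℕ) : Submodule (A2 p) (TT p) := Submodule.span (A2 p) {f | Fam C m f}

variable {C m : ℕ}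

theorem SS.mul {f c : TT p} (hf : f ∈ SS C m) (hc : c ∈ A2 p) : c * f ∈ SS (p := p) C m :=
  (SS C m).smul_mem ⟨c, hc⟩ hf

theorem SS.of {f : TT p} (hf : Fam C m f) : f ∈ SS (p := p) C m := Submodule.subset_span hf

theorem step_fam {f : TT p} (hf : Fam C m f) : bb p * dz f ∈ SS (p := p) (C + 3) m ∧
    bb p * de f ∈ SS (p := p) (C + 3) m := by
  have hs : ∀ (D : Fin p → Derivation ℂ (TT p) (TT p)) (f : TT p),
      (∑ k, D k) f = ∑ k, D k f := fun D f => by
    rw [← Derivation.coeFnAddMonoidHom_apply, map_sum, Finset.sum_apply]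
    rfl
  have gY : tY f ∈ SS (p := p) (C + 3) m := SS.of (hf.tY.mono (by omega))
  have gH : tH f ∈ SS (p := p) (C + 3) m := SS.of (hf.tH.mono (by omega))
  have gS : tS f ∈ SS (p := p) (C + 3) m := SS.of (hf.tS.mono (by omega))
  have gA : ∀ (k : Fin p) (c : TT p), c ∈ A2 p →
      c * (cb k * ell k ^ 3) * tA k f ∈ SS (p := p) (C + 3) m := fun k c hc => by
    have h := SS.mul (SS.of (hf.tA k)) ((A2 p).mul_mem hc (cb_A2 k))
    convert h using 1
    ring
  have gB : ∀ (k : Fin p) (c : TT p), c ∈ A2 p →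
      c * (cb k * ell k ^ 3) * tB k f ∈ SS (p := p) (C + 3) m := fun k c hc => by
    have h := SS.mul (SS.of (hf.tB k)) ((A2 p).mul_mem hc (cb_A2 k))
    convert h using 1
    ring
  have gA1 : ∀ k : Fin p, (cb k * ell k ^ 3) * tA k f ∈ SS (p := p) (C + 3) m := fun k => by
    have h := gA k 1 (A2 p).one_mem
    rwa [one_mul] at h
  have gB1 : ∀ k : Fin p, (cb k * ell k ^ 3) * tB k f ∈ SS (p := p) (C + 3) m := fun k => by
    have h := gB k 1 (A2 p).one_mem
    rwa [one_mul] at h
  have gy : bb p * tY f - ∑ k, cb k * ell k ^ 3 * tB k f ∈ SS (p := p) (C + 3) m :=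
    (SS _ _).sub_mem (SS.mul gY bb_A2) ((SS _ _).sum_mem fun k _ => gB1 k)
  constructor
  · have h := congrArg (fun D : Derivation ℂ (TT p) (TT p) => D f) (dz_eq (p := p))
    simp only [Derivation.sub_apply, Derivation.smul_apply, hs, smul_eq_mul] at h
    rw [h]
    exact (SS _ _).sub_mem ((SS _ _).sub_mem (SS.mul gH bb_A2) (SS.mul gy x0_A2))
      ((SS _ _).sum_mem fun k _ => gA1 k)
  · have h := congrArg (fun D : Derivation ℂ (TT p) (TT p) => D f) (de_eq (p := p))
    simp only [Derivation.sub_apply, Derivation.smul_apply, hs, smul_eq_mul] at h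
    rw [h]
    exact (SS _ _).sub_mem ((SS _ _).sub_mem ((SS _ _).sub_mem (SS.mul gS bb_A2)
      (SS.mul gy x1_A2)) ((SS _ _).sum_mem fun k _ => gA k _ (av_A2 k)))
      ((SS _ _).sum_mem fun k _ => gB k _ (bv_A2 k))

theorem step {f : TT p} (hf : f ∈ SS C m) : bb p * dz f ∈ SS (p := p) (C + 3) m ∧
    bb p * de f ∈ SS (p := p) (C + 3) m := by
  unfold SS at hf
  induction hf using Submodule.span_induction with
  | mem x hx => exact step_fam hx
  | zero => simp
  | add x y _ _ hx hy =>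
    rw [map_add, map_add, mul_add, mul_add]
    exact ⟨(SS _ _).add_mem hx.1 hy.1, (SS _ _).add_mem hx.2 hy.2⟩
  | smul a x _ hx =>
    have h1 : a • x = (a : TT p) * x := rfl
    have h2 : dz (a : TT p) = 0 := a.2.1
    have h3 : de (a : TT p) = 0 := de_A2 a.2
    rw [h1, Derivation.leibniz, Derivation.leibniz, h2, h3, smul_zero, add_zero, add_zero,
      smul_eq_mul, smul_eq_mul]
    constructor
    · have := SS.mul hx.1 a.2
      convert this using 1
      ring
    · have := SS.mul hx.2 a.2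
      convert this using 1
      ring

theorem SS.mono {C' : ℕ} (h : C ≤ C') {f : TT p} (hf : f ∈ SS C m) : f ∈ SS (p := p) C' m :=
  Submodule.span_mono (fun _ hf => Fam.mono hf h) hf

/-- iterated derivatives -/
theorem iter_dz {f : TT p} (hf : f ∈ SS C m) (n : ℕ) :
    bb p ^ n * dz^[n] f ∈ SS (p := p) (C + 3 * n) m := by
  induction n with
  | zero => simpa using hf
  | succ n ih =>
    have h1 := (step ih).1
    have h2 : dz (bb p ^ n) = 0 := ((A2 p).pow_mem bb_A2 n).1
    rw [Derivation.leibniz, h2, smul_zero, add_zero, smul_eq_mul, ← mul_assoc, ← pow_succ'] at h1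
    rw [Function.iterate_succ_apply']
    exact h1

theorem coeff_eul (i : VV p) (g : TT p) (μ : VV p →₀ ℕ) :
    coeff μ (X i * pderiv i g) = (μ i : ℂ) * coeff μ g := by
  classical
  rw [coeff_X_mul']
  split_ifs with h
  · rw [coeff_pderiv]
    have h1 : μ i ≠ 0 := Finsupp.mem_support_iff.1 h
    have h2 : μ - Finsupp.single i 1 + Finsupp.single i 1 = μ :=
      Finsupp.sub_add_single_one_cancel h1
    rw [h2, Finsupp.tsub_apply, Finsupp.single_eq_same]
    obtain ⟨n, hn⟩ := Nat.exists_eq_succ_of_ne_zero h1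
    rw [hn, Nat.succ_sub_one]
    push_cast
    ring
  · rw [Finsupp.notMem_support_iff.1 h]
    simp

theorem coeff_de (g : TT p) (μ : VV p →₀ ℕ) :
    coeff μ (de g) = ((μ (Sum.inl 2) + μ (Sum.inl 3) : ℕ) : ℂ) * coeff μ g := by
  unfold de
  rw [Derivation.add_apply, Derivation.smul_apply, Derivation.smul_apply, smul_eq_mul,
    smul_eq_mul, coeff_add, coeff_eul, coeff_eul]
  push_cast
  ring

/-- products of shifted degree operators -/
theorem iter_de {g : TT p} {n : ℕ} (hf : bb p ^ n * g ∈ SS C m) (s : Finset ℕ) :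
    ∃ h : TT p, bb p ^ (n + s.card) * h ∈ SS (p := p) (C + 3 * s.card) m ∧
      ∀ μ, coeff μ h = (∏ l ∈ s, (((μ (Sum.inl 2) + μ (Sum.inl 3) : ℕ) : ℂ) - l)) *
        coeff μ g := by
  classical
  induction s using Finset.induction_on with
  | empty => exact ⟨g, by simpa using hf, fun μ => by simp⟩
  | insert a s ha ih =>
    obtain ⟨h, h1, h2⟩ := ih
    refine ⟨de h - (a : TT p) * h, ?_, fun μ => ?_⟩
    · rw [Finset.card_insert_of_notMem ha]
      have h3 := (step h1).2
      have h4 : de (bb p ^ (n + s.card)) = 0 := de_A2 ((A2 p).pow_mem bb_A2 _)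
      rw [Derivation.leibniz, h4, smul_zero, add_zero, smul_eq_mul] at h3
      have h5 : (a : TT p) * bb p * (bb p ^ (n + s.card) * h) ∈ SS (p := p) (C + 3 * s.card) m :=
        SS.mul h1 ((A2 p).mul_mem ((A2 p).natCast_mem a) bb_A2)
      have h6 := (SS _ _).sub_mem h3 (SS.mono (C' := C + 3 * s.card + 3) (by omega) h5)
      have e1 : bb p ^ (n + (s.card + 1)) * (de h - (a : TT p) * h) =
          bb p * (bb p ^ (n + s.card) * de h) - (a : TT p) * bb p * (bb p ^ (n + s.card) * h) := by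
        rw [← add_assoc, pow_succ]
        ring
      rw [e1, show C + 3 * (s.card + 1) = C + 3 * s.card + 3 by ring]
      exact h6
    · rw [coeff_sub, coeff_de, Finset.prod_insert ha, ← map_natCast (MvPolynomial.C : ℂ →+* TT p),
        coeff_C_mul, h2]
      ring

theorem wJ_nonneg (μ : VV p →₀ ℕ) : μ (Sum.inl 2) + 3 * μ (Sum.inl 3) = Finsupp.weight wJ μ := by
  rw [Finsupp.weight_eq_sum]
  simp [Fintype.sum_sum_type, Fin.sum_univ_four, wJ, dv]
  ring

theorem up_dz {c : ℤ} {f : TT p} (hf : Up wJ c f) : Up wJ (c + -1) (dz f) := by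
  classical
  unfold dz
  rw [pderiv_def]
  refine Up.der (fun v => ?_) hf
  by_cases h : v = Sum.inl 2
  · subst h
    rw [Pi.single_eq_same]
    exact Up.one.mono (by simp [wJ, dv])
  · rw [Pi.single_eq_of_ne h]
    exact Up.zero _ _

theorem up_iter {c : ℤ} {f : TT p} (hf : Up wJ c f) (n : ℕ) : Up wJ (c - n) (dz^[n] f) := by
  induction n with
  | zero => simpa using hf
  | succ n ih =>
    rw [Function.iterate_succ_apply']
    exact (up_dz ih).mono (by push_cast; omega)

/-- **The combinations contain a monomial.** -/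
theorem exists_mono {M : ℕ} {f : TT p} (hf : Fam C (3 * M) f) (h0 : f ≠ 0) :
    ∃ l0 ≤ M, ∃ B ∈ A2 p, B ≠ 0 ∧ B * xv 3 ^ l0 ∈ SS (p := p) (C + 12 * M) (3 * M) := by
  classical
  -- the last derivative
  have hex : ∃ n, dz^[n] f = 0 := by
    refine ⟨3 * M + 1, ?_⟩
    by_contra hne
    obtain ⟨μ, hμ⟩ := MvPolynomial.ne_zero_iff.1 hne
    have h1 := up_iter hf.jt (3 * M + 1) μ (MvPolynomial.mem_support_iff.2 hμ)
    have h2 := wJ_nonneg μ
    push_cast at h1
    omega
  have hn0 : Nat.find hex ≠ 0 := by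
    intro h1
    have h2 := Nat.find_spec hex
    rw [h1] at h2
    exact h0 h2
  obtain ⟨a, ha⟩ := Nat.exists_eq_succ_of_ne_zero hn0
  set g := dz^[a] f with hg
  have hg0 : g ≠ 0 := Nat.find_min hex (by omega)
  have hdg : dz g = 0 := by
    have h2 := Nat.find_spec hex
    rw [ha, Function.iterate_succ_apply'] at h2
    exact h2
  have hz : ∀ μ, coeff μ g ≠ 0 → μ (Sum.inl 2) = 0 := by
    intro μ hμ
    by_contra hne
    have h1 := congrArg (coeff (μ - Finsupp.single (Sum.inl 2) 1)) hdg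
    unfold dz at h1
    rw [coeff_pderiv, coeff_zero, Finsupp.sub_add_single_one_cancel hne] at h1
    rcases mul_eq_zero.1 h1 with h2 | h2
    · exact hμ h2
    · exact absurd h2 (by
        have : ((μ - Finsupp.single (Sum.inl 2) 1 : VV p →₀ ℕ) (Sum.inl 2) : ℂ) + 1 ≠ 0 :=
          Nat.cast_add_one_ne_zero _
        simpa using this)
  have hjt := up_iter hf.jt a
  obtain ⟨μ0, hμ0⟩ := MvPolynomial.ne_zero_iff.1 hg0
  have hb : ∀ μ, coeff μ g ≠ 0 → a + 3 * μ (Sum.inl 3) ≤ 3 * M := by
    intro μ hμ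
    have h1 := hjt μ (MvPolynomial.mem_support_iff.2 hμ)
    have h2 := wJ_nonneg μ
    push_cast at h1
    omega
  set l0 := μ0 (Sum.inl 3) with hl0
  have hl0M : l0 ≤ M := by have := hb μ0 hμ0; omega
  have haM : a ≤ 3 * M := by have := hb μ0 hμ0; omega
  have h1 := iter_dz (SS.of hf) a
  obtain ⟨h, h2, h3⟩ := iter_de h1 ((Finset.range (M + 1)).erase l0)
  have hcard : ((Finset.range (M + 1)).erase l0).card = M := by
    rw [Finset.card_erase_of_mem (Finset.mem_range.2 (by omega)), Finset.card_range]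
    omega
  rw [hcard] at h2
  have h4 : ∀ μ, coeff μ h ≠ 0 → μ (Sum.inl 2) = 0 ∧ μ (Sum.inl 3) = l0 := by
    intro μ hμ
    rw [h3] at hμ
    have h5 := right_ne_zero_of_mul hμ
    have h6 := left_ne_zero_of_mul hμ
    have h7 := hz μ h5
    refine ⟨h7, ?_⟩
    by_contra hne
    apply h6
    refine Finset.prod_eq_zero (i := μ (Sum.inl 3)) (Finset.mem_erase.2 ⟨hne,
      Finset.mem_range.2 (by have := hb μ h5; omega)⟩) ?_
    rw [h7]
    simp
  have h5 : coeff μ0 h ≠ 0 := by
    rw [h3]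
    refine mul_ne_zero (Finset.prod_ne_zero_iff.2 fun l hl => ?_) hμ0
    rw [hz μ0 hμ0, zero_add, sub_ne_zero]
    exact_mod_cast (Finset.ne_of_mem_erase hl).symm
  -- division by the monomial
  let B0 : TT p := ∑ μ ∈ h.support, monomial (μ - Finsupp.single (Sum.inl 3) l0) (coeff μ h)
  have hB0 : B0 * xv 3 ^ l0 = h := by
    have h6 : (xv 3 : TT p) ^ l0 = monomial (Finsupp.single (Sum.inl 3) l0) 1 := by
      unfold xv
      rw [X_pow_eq_monomial]
    conv_rhs => rw [h.as_sum]
    simp only [B0]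
    rw [h6, Finset.sum_mul]
    refine Finset.sum_congr rfl fun μ hμ => ?_
    rw [monomial_mul, mul_one]
    have h7 : Finsupp.single (Sum.inl 3) l0 ≤ μ := by
      rw [Finsupp.single_le_iff]
      exact (h4 μ (MvPolynomial.mem_support_iff.1 hμ)).2.ge
    rw [tsub_add_cancel_of_le h7]
  have hBA : B0 ∈ A2 p := by
    refine (A2 p).sum_mem fun μ hμ => ?_
    obtain ⟨h6, h7⟩ := h4 μ (MvPolynomial.mem_support_iff.1 hμ)
    constructor
    · unfold dz
      rw [pderiv_monomial]
      have : (μ - Finsupp.single (Sum.inl 3) l0 : VV p →₀ ℕ) (Sum.inl 2) = 0 := by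
        rw [Finsupp.tsub_apply, h6]
        simp
      rw [this]
      simp
    · unfold dk
      rw [pderiv_monomial]
      have : (μ - Finsupp.single (Sum.inl 3) l0 : VV p →₀ ℕ) (Sum.inl 3) = 0 := by
        rw [Finsupp.tsub_apply, h7]
        simp
      rw [this]
      simp
  have hBne : B0 ≠ 0 := by
    intro h6
    rw [h6, zero_mul] at hB0
    rw [← hB0, coeff_zero] at h5
    exact h5 rfl
  refine ⟨l0, hl0M, bb p ^ (a + M) * B0, (A2 p).mul_mem ((A2 p).pow_mem bb_A2 _) hBA,
    mul_ne_zero (pow_ne_zero _ bb_ne) hBne, ?_⟩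
  rw [mul_assoc, hB0]
  exact SS.mono (by omega) h2

end Pool.Agent.K9h12.LN
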