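import Mathlib

/-!
Weights of the monomials of a polynomial, and derivations.
-/

set_option autoImplicit false

open MvPolynomial

namespace Pool.Agent.K9h12.LN

section

variable {V R : Type} [CommRing R]

/-- all monomials have weight at most `C` -/
def Up (w : V → ℤ) (C : ℤ) (f : MvPolynomial V R) : Prop :=
  ∀ m ∈ f.support, Finsupp.weight w m ≤ C

variable {w : V → ℤ} {C C' : ℤ} {f g : MvPolynomial V R}

theorem Up.zero (w : V → ℤ) (C : ℤ) : Up w C (0 : MvPolynomial V R) := fun m hm => by simp at hm

theorem Up.mono (h : Up w C f) (h1 : C ≤ C') : Up w C' f := fun m hm => (h m hm).trans h1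

theorem Up.add (hf : Up w C f) (hg : Up w C g) : Up w C (f + g) := fun m hm => by
  classical
  rcases Finset.mem_union.1 (MvPolynomial.support_add hm) with h | h
  · exact hf m h
  · exact hg m h

theorem Up.neg (hf : Up w C f) : Up w C (-f) := fun m hm => by
  rw [MvPolynomial.support_neg] at hm
  exact hf m hm

theorem Up.sub (hf : Up w C f) (hg : Up w C g) : Up w C (f - g) := by
  rw [sub_eq_add_neg]
  exact hf.add hg.neg

theorem Up.sum {ι : Type} (s : Finset ι) {f : ι → MvPolynomial V R}
    (hf : ∀ i ∈ s, Up w C (f i)) : Up w C (∑ i ∈ s, f i) := by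
  classical
  induction s using Finset.induction_on with
  | empty => simpa using Up.zero w C
  | insert a s ha ih =>
    rw [Finset.sum_insert ha]
    exact (hf a (Finset.mem_insert_self a s)).add (ih fun i hi => hf i (Finset.mem_insert_of_mem hi))

theorem Up.mul (hf : Up w C f) (hg : Up w C' g) : Up w (C + C') (f * g) := fun m hm => by
  classical
  obtain ⟨a, ha, b, hb, rfl⟩ := Finset.mem_add.1 (MvPolynomial.support_mul f g hm)
  rw [map_add]
  exact add_le_add (hf a ha) (hg b hb)

theorem Up.monomial (m : V →₀ ℕ) (r : R) : Up w (Finsupp.weight w m) (monomial m r) :=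
  fun m' hm' => by
  classical
  have h3 := MvPolynomial.support_monomial_subset hm'
  rw [Finset.mem_singleton] at h3
  rw [h3]

theorem Up.const (r : R) : Up w 0 (MvPolynomial.C r : MvPolynomial V R) := by
  have h := Up.monomial (w := w) (0 : V →₀ ℕ) r
  rw [map_zero] at h
  exact h

theorem Up.X (v : V) : Up w (w v) (MvPolynomial.X v : MvPolynomial V R) := by
  have h := Up.monomial (w := w) (Finsupp.single v 1 : V →₀ ℕ) (1 : R)
  rw [Finsupp.weight_single, one_smul] at h
  exact h

theorem Up.one : Up w 0 (1 : MvPolynomial V R) := by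
  have h := Up.const (w := w) (1 : R)
  rwa [map_one] at h

theorem Up.pow (hf : Up w C f) (n : ℕ) : Up w (n * C) (f ^ n) := by
  induction n with
  | zero => simpa using Up.one
  | succ n ih =>
    rw [pow_succ]
    refine (ih.mul hf).mono (le_of_eq ?_)
    push_cast
    ring

theorem Up.prod {ι : Type} (s : Finset ι) {f : ι → MvPolynomial V R} {c : ι → ℤ}
    (hf : ∀ i ∈ s, Up w (c i) (f i)) : Up w (∑ i ∈ s, c i) (∏ i ∈ s, f i) := by
  classical
  induction s using Finset.induction_on with
  | empty => simpa using Up.one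
  | insert a s ha ih =>
    rw [Finset.prod_insert ha, Finset.sum_insert ha]
    exact (hf a (Finset.mem_insert_self a s)).mul (ih fun i hi => hf i (Finset.mem_insert_of_mem hi))

/-- nonpositive weights -/
theorem Up.nonpos (hw : ∀ v, w v ≤ 0) (f : MvPolynomial V R) : Up w 0 f := fun m _ => by
  rw [Finsupp.weight_apply]
  exact Finset.sum_nonpos fun v _ => smul_nonpos_of_nonneg_of_nonpos (Nat.zero_le _) (hw v)

/-- the weights and a substitution -/
theorem Up.subst {V' : Type} {R' : Type} [CommRing R'] {w' : V' → ℤ} {τ : MvPolynomial V R →+*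
    MvPolynomial V' R'} (h1 : ∀ r, Up w' 0 (τ (MvPolynomial.C r)))
    (h2 : ∀ v, Up w' (w v) (τ (MvPolynomial.X v))) (hf : Up w C f) : Up w' C (τ f) := by
  rw [f.as_sum, map_sum]
  refine Up.sum _ fun m hm => ?_
  have h3 : MvPolynomial.monomial m (MvPolynomial.coeff m f) =
      MvPolynomial.C (MvPolynomial.coeff m f) * ∏ v ∈ m.support, MvPolynomial.X v ^ m v := by
    rw [MvPolynomial.monomial_eq]
    rfl
  rw [h3, map_mul, map_prod]
  have h4 := (h1 (MvPolynomial.coeff m f)).mul (Up.prod m.support
    (f := fun v => τ (MvPolynomial.X v ^ m v)) (c := fun v => m v * w v) fun v _ => by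
      rw [map_pow]
      exact (h2 v).pow (m v))
  refine h4.mono ?_
  rw [zero_add]
  refine le_trans (le_of_eq ?_) (hf m hm)
  rw [Finsupp.weight_apply, Finsupp.sum]
  refine Finset.sum_congr rfl fun v _ => ?_
  rw [nsmul_eq_mul]

/-- the weights and the derivations -/
theorem Up.der {e : ℤ} {d : V → MvPolynomial V R} (hd : ∀ v, Up w (w v + e) (d v))
    (hf : Up w C f) : Up w (C + e) (mkDerivation R d f) := by
  classical
  rw [f.as_sum, map_sum]
  refine Up.sum _ fun m hm => ?_
  rw [mkDerivation_monomial, MvPolynomial.smul_eq_C_mul]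
  refine ((Up.const _).mul (?_ : Up w (C + e) _)).mono (by omega)
  rw [Finsupp.sum]
  refine Up.sum _ fun v hv => ?_
  rw [smul_eq_mul]
  have h1 := Finsupp.weight_sub_single_add (w := w) (Finsupp.mem_support_iff.1 hv)
  refine ((Up.monomial _ _).mul (hd v)).mono ?_
  have h2 := hf m hm
  have h3 : (Finsupp.weight w) (m - Finsupp.single v 1) + w v = (Finsupp.weight w) m := h1
  linarith

/-- the top part -/
theorem Up.cancel [IsDomain R] (hw : ∀ m ∈ f.support, Finsupp.weight w m = 0) (hf : f ≠ 0)
    (h : Up w C (f * g)) : Up w C g := by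
  classical
  by_contra hcon
  unfold Up at hcon
  push Not at hcon
  obtain ⟨m0, hm0, hC⟩ := hcon
  obtain ⟨m1, hm1, hmax⟩ := Finset.exists_max_image g.support (fun m => Finsupp.weight w m)
    ⟨m0, hm0⟩
  set n := Finsupp.weight w m1 with hn
  have hCn : C < n := lt_of_lt_of_le hC (hmax m0 hm0)
  let g0 : MvPolynomial V R := ∑ m ∈ g.support.filter fun m => Finsupp.weight w m = n,
    MvPolynomial.monomial m (MvPolynomial.coeff m g)
  let g1 : MvPolynomial V R := ∑ m ∈ g.support.filter fun m => ¬ Finsupp.weight w m = n,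
    MvPolynomial.monomial m (MvPolynomial.coeff m g)
  have hsplit : g = g0 + g1 := by
    conv_lhs => rw [g.as_sum]
    exact (Finset.sum_filter_add_sum_filter_not _ _ _).symm
  have hc0 : ∀ m, MvPolynomial.coeff m g0 = if Finsupp.weight w m = n then
      MvPolynomial.coeff m g else 0 := by
    intro m
    simp only [g0]
    rw [MvPolynomial.coeff_sum]
    simp only [MvPolynomial.coeff_monomial]
    rw [Finset.sum_ite_eq']
    simp only [Finset.mem_filter, MvPolynomial.mem_support_iff]
    by_cases h1 : Finsupp.weight w m = n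
    · by_cases h2 : MvPolynomial.coeff m g = 0
      · simp [h2]
      · simp [h1, h2]
    · simp [h1]
  have hu1 : Up w (n - 1) g1 := by
    refine Up.sum _ fun m hm => (Up.monomial m _).mono ?_
    obtain ⟨h1, h2⟩ := Finset.mem_filter.1 hm
    have h3 := hmax m h1
    have h4 : Finsupp.weight w m ≤ n := h3
    omega
  have hf0 : Up w 0 f := fun m hm => (hw m hm).le
  have h1 : Up w (n - 1) (f * g0) := by
    have h2 : f * g0 = f * g - f * g1 := by rw [hsplit]; ring
    rw [h2]
    exact (h.mono (by omega)).sub ((hf0.mul hu1).mono (by omega))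
  have h3 : f * g0 = 0 := by
    by_contra hne
    obtain ⟨m, hm⟩ := MvPolynomial.ne_zero_iff.1 hne
    rw [← MvPolynomial.mem_support_iff] at hm
    have h4 := h1 m hm
    obtain ⟨a, ha, b, hb, rfl⟩ := Finset.mem_add.1 (MvPolynomial.support_mul f g0 hm)
    rw [map_add, hw a ha, zero_add] at h4
    rw [MvPolynomial.mem_support_iff, hc0] at hb
    by_cases h5 : Finsupp.weight w b = n
    · omega
    · rw [if_neg h5] at hb
      exact hb rfl
  have h5 := (mul_eq_zero.1 h3).resolve_left hf
  have h6 := hc0 m1
  rw [h5, MvPolynomial.coeff_zero, if_pos hn.symm] at h6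
  exact (MvPolynomial.mem_support_iff.1 hm1) h6.symm

end

end Pool.Agent.K9h12.LN
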